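import Mathlib

/-!
# MP_273810_co : the region of a closed polygonal curve, by winding numbers (library H52W, helper52)

`curve v` is the union of the sides of the closed polygonal curve `v : ZMod n → ℂ`, `turn v x` is the total turning
of the vector from `x` to a point that runs through the curve, `Inside v x` says that `x` is not on the curve and the
winding number is odd (even-odd rule; for a simple curve these are the points inside).
-/

namespace Pool.Agent.H52W

open Complex Topology Filter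

/-- The determinant of two vectors of the plane. -/
def cdet (a b : ℂ) : ℝ := a.re * b.im - a.im * b.re

/-- The union of the sides. -/
def curve {n : ℕ} (v : ZMod n → ℂ) : Set ℂ := ⋃ i, segment ℝ (v i) (v (i + 1))

/-- The total turning of the vector from `x` to the curve. -/
noncomputable def turn {n : ℕ} [NeZero n] (v : ZMod n → ℂ) (x : ℂ) : ℝ :=
  ∑ i, arg ((v (i + 1) - x) / (v i - x))

/-- `x` is not on the curve and the winding number of the curve about `x` is odd. -/
def Inside {n : ℕ} [NeZero n] (v : ZMod n → ℂ) (x : ℂ) : Prop :=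
  x ∉ curve v ∧ ∃ k : ℤ, Odd k ∧ turn v x = 2 * Real.pi * k

/-! ### Slit plane and segments -/

theorem winding_mem_segment_iff (a b x : ℂ) :
    x ∉ segment ℝ a b ↔ x ≠ a ∧ (b - x) / (a - x) ∈ slitPlane := by
  constructor
  · intro h
    have hxa : x ≠ a := fun he => h (he ▸ left_mem_segment ℝ a b)
    refine ⟨hxa, ?_⟩
    rw [Complex.mem_slitPlane_iff_not_le_zero]
    intro hle
    apply h
    have hax : a - x ≠ 0 := sub_ne_zero.2 (Ne.symm hxa)
    obtain ⟨hre, him⟩ := Complex.le_def.1 hle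
    set t : ℝ := -((b - x) / (a - x)).re with ht
    have ht0 : 0 ≤ t := by rw [ht]; simpa using hre
    have hz : (b - x) / (a - x) = ((-t : ℝ) : ℂ) := by
      apply Complex.ext
      · simp [ht]
      · simpa using him
    have hb : b - x = ((-t : ℝ) : ℂ) * (a - x) := by
      rw [← hz, div_mul_cancel₀ _ hax]
    have h1t : (1 + t) ≠ 0 := by positivity
    rw [segment_eq_image]
    refine ⟨1 / (1 + t), ⟨by positivity, by rw [div_le_one (by positivity)]; linarith⟩, ?_⟩
    have h1tc : (1 + (t : ℂ)) ≠ 0 := by exact_mod_cast h1t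
    simp only [Complex.real_smul]
    push_cast
    field_simp
    push_cast at hb
    linear_combination hb
  · rintro ⟨hxa, hs⟩ hx
    rw [segment_eq_image] at hx
    obtain ⟨s, ⟨hs0, hs1⟩, rfl⟩ := hx
    have hs0' : s ≠ 0 := by
      rintro rfl
      apply hxa
      simp
    have hspos : 0 < s := lt_of_le_of_ne hs0 (Ne.symm hs0')
    rw [Complex.mem_slitPlane_iff_not_le_zero] at hs
    apply hs
    have hab : b - a ≠ 0 := by
      intro he
      apply hxa
      have : b = a := sub_eq_zero.1 he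
      subst this
      simp only [← add_smul]
      simp
    have hsc : (s : ℂ) ≠ 0 := by exact_mod_cast hs0'
    have hq : (b - ((1 - s) • a + s • b)) / (a - ((1 - s) • a + s • b)) = ((-((1 - s) / s) : ℝ) : ℂ) := by
      have e1 : b - ((1 - s) • a + s • b) = (1 - (s : ℂ)) * (b - a) := by
        simp only [Complex.real_smul]; push_cast; ring
      have e2 : a - ((1 - s) • a + s • b) = -(s : ℂ) * (b - a) := by
        simp only [Complex.real_smul]; push_cast; ring
      rw [e1, e2]
      push_cast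
      field_simp
    rw [hq, Complex.le_def]
    constructor
    · simp only [Complex.ofReal_re, Complex.zero_re]
      have : 0 ≤ (1 - s) / s := div_nonneg (by linarith) hs0
      linarith
    · simp

theorem winding_continuousAt_ratio {n : ℕ} (v : ZMod n → ℂ) (x : ℂ) (i : ZMod n) (hx : x ≠ v i) :
    ContinuousAt (fun p : (ZMod n → ℂ) × ℂ => (p.1 (i + 1) - p.2) / (p.1 i - p.2)) (v, x) := by
  have h1 : ContinuousAt (fun p : (ZMod n → ℂ) × ℂ => p.1 (i + 1) - p.2) (v, x) := by fun_prop
  have h2 : ContinuousAt (fun p : (ZMod n → ℂ) × ℂ => p.1 i - p.2) (v, x) := by fun_prop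
  exact h1.div h2 (sub_ne_zero.2 (Ne.symm hx))

theorem winding_eventually_side {n : ℕ} (v : ZMod n → ℂ) (x : ℂ) (i : ZMod n)
    (hx : x ∉ segment ℝ (v i) (v (i + 1))) :
    ∀ᶠ p in 𝓝 ((v, x) : (ZMod n → ℂ) × ℂ), p.2 ∉ segment ℝ (p.1 i) (p.1 (i + 1)) := by
  obtain ⟨h1, h2⟩ := (winding_mem_segment_iff _ _ _).1 hx
  have e1 : ∀ᶠ p in 𝓝 ((v, x) : (ZMod n → ℂ) × ℂ), p.2 ≠ p.1 i := by
    have hc : ContinuousAt (fun p : (ZMod n → ℂ) × ℂ => p.2 - p.1 i) (v, x) := by fun_prop
    have h3 : ∀ᶠ p in 𝓝 ((v, x) : (ZMod n → ℂ) × ℂ), p.2 - p.1 i ≠ 0 :=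
      hc.eventually_ne (sub_ne_zero.2 h1)
    filter_upwards [h3] with p hp
    exact sub_ne_zero.1 hp
  have e2 : ∀ᶠ p in 𝓝 ((v, x) : (ZMod n → ℂ) × ℂ),
      (p.1 (i + 1) - p.2) / (p.1 i - p.2) ∈ slitPlane := by
    have hc := winding_continuousAt_ratio v x i h1
    exact hc.eventually_mem (isOpen_slitPlane.mem_nhds h2)
  filter_upwards [e1, e2] with p h3 h4
  exact (winding_mem_segment_iff _ _ _).2 ⟨h3, h4⟩

theorem not_mem_curve_iff {n : ℕ} (v : ZMod n → ℂ) (x : ℂ) :
    x ∉ curve v ↔ ∀ i, x ∉ segment ℝ (v i) (v (i + 1)) := by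
  unfold curve
  simp only [Set.mem_iUnion, not_exists]

theorem eventually_not_mem_curve {n : ℕ} [NeZero n] (v : ZMod n → ℂ) (x : ℂ) (hx : x ∉ curve v) :
    ∀ᶠ p in 𝓝 ((v, x) : (ZMod n → ℂ) × ℂ), p.2 ∉ curve p.1 := by
  simp only [not_mem_curve_iff] at hx ⊢
  rw [eventually_all]
  exact fun i => winding_eventually_side v x i (hx i)

theorem winding_continuousAt_arg {n : ℕ} (v : ZMod n → ℂ) (x : ℂ) (i : ZMod n)
    (hx : x ∉ segment ℝ (v i) (v (i + 1))) :
    ContinuousAt (fun p : (ZMod n → ℂ) × ℂ => arg ((p.1 (i + 1) - p.2) / (p.1 i - p.2))) (v, x) := by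
  obtain ⟨h1, h2⟩ := (winding_mem_segment_iff _ _ _).1 hx
  have hc := winding_continuousAt_ratio v x i h1
  exact ContinuousAt.comp (g := arg) (continuousAt_arg h2) hc

theorem continuousAt_turn {n : ℕ} [NeZero n] (v : ZMod n → ℂ) (x : ℂ) (hx : x ∉ curve v) :
    ContinuousAt (fun p : (ZMod n → ℂ) × ℂ => turn p.1 p.2) (v, x) := by
  rw [not_mem_curve_iff] at hx
  unfold turn
  exact tendsto_finsetSum _ fun i _ => winding_continuousAt_arg v x i (hx i)

/-! ### The winding number is an integer -/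

theorem exists_turn_eq {n : ℕ} [NeZero n] (v : ZMod n → ℂ) (x : ℂ) (hx : x ∉ curve v) :
    ∃ k : ℤ, turn v x = 2 * Real.pi * k := by
  have hv : ∀ i, v i - x ≠ 0 := by
    intro i he
    apply hx
    rw [curve, Set.mem_iUnion]
    exact ⟨i, (sub_eq_zero.1 he) ▸ left_mem_segment ℝ _ _⟩
  have h1 : exp (turn v x * I) = 1 := by
    unfold turn
    push_cast
    rw [Finset.sum_mul, Complex.exp_sum]
    have h2 : ∀ i, exp ((arg ((v (i + 1) - x) / (v i - x)) : ℂ) * I)
        = ((v (i + 1) - x) / ‖v (i + 1) - x‖) / ((v i - x) / ‖v i - x‖) := by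
      intro i
      have h3 := Complex.norm_mul_exp_arg_mul_I ((v (i + 1) - x) / (v i - x))
      have h4 : (‖(v (i + 1) - x) / (v i - x)‖ : ℂ) ≠ 0 := by
        simp only [ne_eq, Complex.ofReal_eq_zero, norm_eq_zero]
        exact div_ne_zero (hv _) (hv _)
      have h5 : (‖v (i + 1) - x‖ : ℂ) ≠ 0 := by simpa using hv (i + 1)
      have h6 : (‖v i - x‖ : ℂ) ≠ 0 := by simpa using hv i
      apply mul_left_cancel₀ h4
      rw [h3]
      rw [norm_div]
      push_cast
      have h7 := hv i
      field_simp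
    simp only [h2]
    rw [Finset.prod_div_distrib]
    have h8 : ∏ i, ((v (i + 1) - x) / (‖v (i + 1) - x‖ : ℂ)) = ∏ i, ((v i - x) / (‖v i - x‖ : ℂ)) :=
      Fintype.prod_equiv (Equiv.addRight 1) _ _ (fun i => rfl)
    rw [h8]
    apply div_self
    rw [Finset.prod_ne_zero_iff]
    intro i _
    exact div_ne_zero (hv i) (by simpa using hv i)
  rw [Complex.exp_eq_one_iff] at h1
  obtain ⟨k, hk⟩ := h1
  refine ⟨k, ?_⟩
  have h9 : (turn v x : ℂ) = ((2 * Real.pi * k : ℝ) : ℂ) := by
    have hI : (I : ℂ) ≠ 0 := Complex.I_ne_zero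
    apply mul_right_cancel₀ hI
    rw [hk]
    push_cast
    ring
  exact_mod_cast h9

end Pool.Agent.H52W
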