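import Mathlib
import Pool.Agent.Lib.H52W.Winding

/-!
# MP_273810_co : the winding number jumps at a side (library H52W, helper52)
-/

namespace Pool.Agent.H52W

open Complex Topology Filter

/-! ### Inside is open and closed off the curve -/

theorem turn_eventually_eq {n : ℕ} [NeZero n] (v : ZMod n → ℂ) (x : ℂ) (hx : x ∉ curve v) :
    ∀ᶠ p in 𝓝 ((v, x) : (ZMod n → ℂ) × ℂ), p.2 ∉ curve p.1 ∧ turn p.1 p.2 = turn v x := by
  have h1 := eventually_not_mem_curve v x hx
  have h2 : ∀ᶠ p in 𝓝 ((v, x) : (ZMod n → ℂ) × ℂ), |turn p.1 p.2 - turn v x| < 2 * Real.pi := by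
    have h3 := (continuousAt_turn v x hx).tendsto
    have h4 := Metric.tendsto_nhds.1 h3 (2 * Real.pi) (by positivity)
    filter_upwards [h4] with p hp
    simpa [Real.dist_eq] using hp
  filter_upwards [h1, h2] with p hp1 hp2
  refine ⟨hp1, ?_⟩
  obtain ⟨k, hk⟩ := exists_turn_eq v x hx
  obtain ⟨l, hl⟩ := exists_turn_eq p.1 p.2 hp1
  rw [hk, hl, ← mul_sub, abs_mul, abs_of_pos (by positivity : (0 : ℝ) < 2 * Real.pi)] at hp2
  have h5 : |(l : ℝ) - k| < 1 := by
    have h6 : (0 : ℝ) < 2 * Real.pi := by positivity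
    by_contra hcon
    push Not at hcon
    nlinarith
  have h7 : |l - k| < 1 := by exact_mod_cast h5
  have h8 : l = k := by
    rw [abs_lt] at h7
    omega
  rw [hk, hl, h8]

theorem eventually_inside {n : ℕ} [NeZero n] (v : ZMod n → ℂ) (x : ℂ) (hx : Inside v x) :
    ∀ᶠ p in 𝓝 ((v, x) : (ZMod n → ℂ) × ℂ), Inside p.1 p.2 := by
  filter_upwards [turn_eventually_eq v x hx.1] with p hp
  refine ⟨hp.1, ?_⟩
  rw [hp.2]
  exact hx.2

theorem eventually_not_inside {n : ℕ} [NeZero n] (v : ZMod n → ℂ) (x : ℂ) (hx : x ∉ curve v)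
    (hx' : ¬ Inside v x) :
    ∀ᶠ p in 𝓝 ((v, x) : (ZMod n → ℂ) × ℂ), p.2 ∉ curve p.1 ∧ ¬ Inside p.1 p.2 := by
  filter_upwards [turn_eventually_eq v x hx] with p hp
  refine ⟨hp.1, fun h => hx' ⟨hx, ?_⟩⟩
  rw [← hp.2]
  exact h.2

theorem isOpen_inside {n : ℕ} [NeZero n] (v : ZMod n → ℂ) : IsOpen {x | Inside v x} := by
  rw [isOpen_iff_mem_nhds]
  intro x hx
  have h := eventually_inside v x hx
  have hc : Tendsto (fun y : ℂ => ((v, y) : (ZMod n → ℂ) × ℂ)) (𝓝 x) (𝓝 (v, x)) :=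
    (Continuous.prodMk_right v).continuousAt
  exact hc.eventually h

theorem isOpen_outside {n : ℕ} [NeZero n] (v : ZMod n → ℂ) :
    IsOpen {x | x ∉ curve v ∧ ¬ Inside v x} := by
  rw [isOpen_iff_mem_nhds]
  rintro x ⟨hx, hx'⟩
  have h := eventually_not_inside v x hx hx'
  have hc : Tendsto (fun y : ℂ => ((v, y) : (ZMod n → ℂ) × ℂ)) (𝓝 x) (𝓝 (v, x)) :=
    (Continuous.prodMk_right v).continuousAt
  exact hc.eventually h

/-- `Inside v` is constant on preconnected sets which avoid the curve. -/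
theorem inside_iff_of_isPreconnected {n : ℕ} [NeZero n] (v : ZMod n → ℂ) {s : Set ℂ}
    (hs : IsPreconnected s) (hd : ∀ x ∈ s, x ∉ curve v) {x y : ℂ} (hx : x ∈ s) (hy : y ∈ s) :
    Inside v x ↔ Inside v y := by
  have key : ∀ x y, x ∈ s → y ∈ s → Inside v x → Inside v y := by
    intro x y hx hy hix
    by_contra hiy
    have hcov : s ⊆ {z | Inside v z} ∪ {z | z ∉ curve v ∧ ¬ Inside v z} := by
      intro z hz
      by_cases h : Inside v z
      · exact Or.inl h
      · exact Or.inr ⟨hd z hz, h⟩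
    obtain ⟨z, _, h1, h2⟩ := hs _ _ (isOpen_inside v) (isOpen_outside v) hcov
      ⟨x, hx, hix⟩ ⟨y, hy, hd y hy, hiy⟩
    exact h2.2 h1
  exact ⟨key x y hx hy, key y x hy hx⟩

/-! ### The jump -/

/-- The term of the side that is crossed. -/
theorem winding_side_im (a b w d : ℂ) (t : ℝ) (hw : cdet (a - w) (b - w) = 0) :
    ((b - (w + (t : ℂ) * d)) / (a - (w + (t : ℂ) * d))).im
      = -(t * cdet d (b - a)) / Complex.normSq (a - (w + (t : ℂ) * d)) := by
  rw [Complex.div_im]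
  have hw' : (a.re - w.re) * (b.im - w.im) - (a.im - w.im) * (b.re - w.re) = 0 := by
    simpa [cdet] using hw
  rw [← sub_div]
  congr 1
  simp only [cdet, Complex.sub_re, Complex.sub_im, Complex.add_re, Complex.add_im, Complex.mul_re,
    Complex.mul_im, Complex.ofReal_re, Complex.ofReal_im]
  linear_combination hw'

theorem winding_openSegment_ratio (a b w : ℂ) (hab : a ≠ b) (hw : w ∈ openSegment ℝ a b) :
    w ≠ a ∧ cdet (a - w) (b - w) = 0 ∧ ((b - w) / (a - w)).re < 0 ∧ ((b - w) / (a - w)).im = 0 := by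
  rw [openSegment_eq_image] at hw
  obtain ⟨s, ⟨hs0, hs1⟩, rfl⟩ := hw
  have hba : b - a ≠ 0 := sub_ne_zero.2 (Ne.symm hab)
  have hsc : (s : ℂ) ≠ 0 := by exact_mod_cast hs0.ne'
  have e1 : b - ((1 - s) • a + s • b) = (1 - (s : ℂ)) * (b - a) := by
    simp only [Complex.real_smul]; push_cast; ring
  have e2 : a - ((1 - s) • a + s • b) = -(s : ℂ) * (b - a) := by
    simp only [Complex.real_smul]; push_cast; ring
  have hq : (b - ((1 - s) • a + s • b)) / (a - ((1 - s) • a + s • b)) = ((-((1 - s) / s) : ℝ) : ℂ) := by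
    rw [e1, e2]
    push_cast
    field_simp
  refine ⟨?_, ?_, ?_, ?_⟩
  · intro he
    have he' : (1 - s) • a + s • b = a := he
    have : a - ((1 - s) • a + s • b) = 0 := by rw [he']; ring
    rw [e2] at this
    exact (mul_ne_zero (neg_ne_zero.2 hsc) hba) this
  · rw [e1, e2]
    simp only [cdet, Complex.mul_re, Complex.mul_im, Complex.neg_re, Complex.neg_im, Complex.ofReal_re,
      Complex.ofReal_im, Complex.sub_re, Complex.sub_im, Complex.one_re, Complex.one_im]
    ring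
  · rw [hq, Complex.ofReal_re]
    have : 0 < (1 - s) / s := div_pos (by linarith) hs0
    linarith
  · rw [hq, Complex.ofReal_im]

/-- One-sided limits of the term of the side that is crossed. -/
theorem winding_tendsto_side (a b w d : ℂ) (hab : a ≠ b) (hw : w ∈ openSegment ℝ a b)
    (hd : cdet d (b - a) < 0) :
    Tendsto (fun t : ℝ => arg ((b - (w + (t : ℂ) * d)) / (a - (w + (t : ℂ) * d)))) (𝓝[>] 0) (𝓝 Real.pi) ∧
    Tendsto (fun t : ℝ => arg ((b - (w + (t : ℂ) * d)) / (a - (w + (t : ℂ) * d)))) (𝓝[<] 0)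
      (𝓝 (-Real.pi)) := by
  obtain ⟨hwa, hdet, hre, him⟩ := winding_openSegment_ratio a b w hab hw
  have hcont : ContinuousAt (fun t : ℝ => (b - (w + (t : ℂ) * d)) / (a - (w + (t : ℂ) * d))) 0 := by
    apply ContinuousAt.div
    · fun_prop
    · fun_prop
    · simp only [Complex.ofReal_zero, zero_mul, add_zero]
      exact sub_ne_zero.2 (Ne.symm hwa)
  have h0 : (b - (w + ((0 : ℝ) : ℂ) * d)) / (a - (w + ((0 : ℝ) : ℂ) * d)) = (b - w) / (a - w) := by
    simp
  have hne : ∀ᶠ t : ℝ in 𝓝 (0 : ℝ), a - (w + (t : ℂ) * d) ≠ 0 := by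
    have hc : ContinuousAt (fun t : ℝ => a - (w + (t : ℂ) * d)) 0 := by fun_prop
    refine hc.eventually_ne ?_
    simp only [Complex.ofReal_zero, zero_mul, add_zero]
    exact sub_ne_zero.2 (Ne.symm hwa)
  constructor
  · have hl := Complex.tendsto_arg_nhdsWithin_im_nonneg_of_re_neg_of_im_zero hre him
    refine hl.comp ?_
    rw [tendsto_nhdsWithin_iff]
    constructor
    · have h1 := hcont.tendsto
      rw [h0] at h1
      exact h1.mono_left nhdsWithin_le_nhds
    · have h2 : ∀ᶠ t : ℝ in 𝓝[>] 0, a - (w + (t : ℂ) * d) ≠ 0 := hne.filter_mono nhdsWithin_le_nhds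
      filter_upwards [self_mem_nhdsWithin, h2] with t ht ht2
      have ht0 : 0 < t := ht
      show 0 ≤ ((b - (w + (t : ℂ) * d)) / (a - (w + (t : ℂ) * d))).im
      rw [winding_side_im a b w d t hdet]
      apply div_nonneg
      · have := mul_pos_of_neg_of_neg (neg_neg_of_pos ht0) hd
        nlinarith
      · exact Complex.normSq_nonneg _
  · have hl := Complex.tendsto_arg_nhdsWithin_im_neg_of_re_neg_of_im_zero hre him
    refine hl.comp ?_
    rw [tendsto_nhdsWithin_iff]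
    constructor
    · have h1 := hcont.tendsto
      rw [h0] at h1
      exact h1.mono_left nhdsWithin_le_nhds
    · have h2 : ∀ᶠ t : ℝ in 𝓝[<] 0, a - (w + (t : ℂ) * d) ≠ 0 := hne.filter_mono nhdsWithin_le_nhds
      filter_upwards [self_mem_nhdsWithin, h2] with t ht ht2
      have ht0 : t < 0 := ht
      show ((b - (w + (t : ℂ) * d)) / (a - (w + (t : ℂ) * d))).im < 0
      rw [winding_side_im a b w d t hdet]
      apply div_neg_of_neg_of_pos
      · nlinarith
      · exact Complex.normSq_pos.2 ht2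

theorem cdet_eq_zero_of_mem_segment (a b x : ℂ) (hx : x ∈ segment ℝ a b) :
    cdet (a - x) (b - x) = 0 := by
  rw [segment_eq_image] at hx
  obtain ⟨s, _, rfl⟩ := hx
  have e1 : b - ((1 - s) • a + s • b) = (1 - (s : ℂ)) * (b - a) := by
    simp only [Complex.real_smul]; push_cast; ring
  have e2 : a - ((1 - s) • a + s • b) = -(s : ℂ) * (b - a) := by
    simp only [Complex.real_smul]; push_cast; ring
  show cdet (a - ((1 - s) • a + s • b)) (b - ((1 - s) • a + s • b)) = 0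
  rw [e1, e2]
  simp only [cdet, Complex.mul_re, Complex.mul_im, Complex.neg_re, Complex.neg_im, Complex.ofReal_re,
    Complex.ofReal_im, Complex.sub_re, Complex.sub_im, Complex.one_re, Complex.one_im]
  ring

theorem cdet_shift (a b w d : ℂ) (t : ℝ) (hw : cdet (a - w) (b - w) = 0) :
    cdet (a - (w + (t : ℂ) * d)) (b - (w + (t : ℂ) * d)) = -(t * cdet d (b - a)) := by
  have hw' : (a.re - w.re) * (b.im - w.im) - (a.im - w.im) * (b.re - w.re) = 0 := by
    simpa [cdet] using hw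
  simp only [cdet, Complex.sub_re, Complex.sub_im, Complex.add_re, Complex.add_im, Complex.mul_re,
    Complex.mul_im, Complex.ofReal_re, Complex.ofReal_im]
  linear_combination hw'

theorem winding_near {n : ℕ} [NeZero n] (v : ZMod n → ℂ) (i : ZMod n) (w d : ℂ)
    (hw : w ∈ openSegment ℝ (v i) (v (i + 1)))
    (hother : ∀ j, j ≠ i → w ∉ segment ℝ (v j) (v (j + 1)))
    (hd : cdet d (v (i + 1) - v i) ≠ 0) :
    ∀ᶠ t : ℝ in 𝓝 0, t ≠ 0 → (w + (t : ℂ) * d) ∉ curve v := by
  have h1 : ∀ j, ∀ᶠ t : ℝ in 𝓝 0, t ≠ 0 → (w + (t : ℂ) * d) ∉ segment ℝ (v j) (v (j + 1)) := by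
    intro j
    by_cases hj : j = i
    · subst hj
      refine Eventually.of_forall fun t ht hmem => ?_
      have h2 := cdet_eq_zero_of_mem_segment _ _ _ hmem
      rw [cdet_shift _ _ _ _ _ (cdet_eq_zero_of_mem_segment _ _ _ (openSegment_subset_segment _ _ _ hw))] at h2
      have h3 := mul_ne_zero ht hd
      apply h3
      linarith
    · have h2 := winding_eventually_side v w j (hother j hj)
      have hc : Tendsto (fun t : ℝ => ((v, w + (t : ℂ) * d) : (ZMod n → ℂ) × ℂ)) (𝓝 0) (𝓝 (v, w)) := by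
        have hcc : Continuous (fun t : ℝ => ((v, w + (t : ℂ) * d) : (ZMod n → ℂ) × ℂ)) := by fun_prop
        have := hcc.tendsto 0
        simpa using this
      filter_upwards [hc.eventually h2] with t ht _
      exact ht
  have h2 := eventually_all.2 h1
  filter_upwards [h2] with t ht ht0
  rw [not_mem_curve_iff]
  exact fun j => ht j ht0

theorem winding_tendsto_turn {n : ℕ} [NeZero n] (v : ZMod n → ℂ) (i : ZMod n) (w d : ℂ)
    (hw : w ∈ openSegment ℝ (v i) (v (i + 1)))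
    (hother : ∀ j, j ≠ i → w ∉ segment ℝ (v j) (v (j + 1)))
    (hd : cdet d (v (i + 1) - v i) < 0) :
    ∃ S : ℝ, Tendsto (fun t : ℝ => turn v (w + (t : ℂ) * d)) (𝓝[>] 0) (𝓝 (Real.pi + S)) ∧
      Tendsto (fun t : ℝ => turn v (w + (t : ℂ) * d)) (𝓝[<] 0) (𝓝 (-Real.pi + S)) := by
  have hab : v i ≠ v (i + 1) := by
    intro he
    rw [he, sub_self] at hd
    simp [cdet] at hd
  obtain ⟨h1, h2⟩ := winding_tendsto_side (v i) (v (i + 1)) w d hab hw hd
  refine ⟨∑ j ∈ Finset.univ.erase i, arg ((v (j + 1) - w) / (v j - w)), ?_⟩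
  have hsum : ∀ x, turn v x = arg ((v (i + 1) - x) / (v i - x))
      + ∑ j ∈ Finset.univ.erase i, arg ((v (j + 1) - x) / (v j - x)) := by
    intro x
    unfold turn
    exact (Finset.add_sum_erase Finset.univ (fun j => arg ((v (j + 1) - x) / (v j - x)))
      (Finset.mem_univ i)).symm
  have hS : Tendsto (fun t : ℝ => ∑ j ∈ Finset.univ.erase i,
      arg ((v (j + 1) - (w + (t : ℂ) * d)) / (v j - (w + (t : ℂ) * d)))) (𝓝 0)
      (𝓝 (∑ j ∈ Finset.univ.erase i, arg ((v (j + 1) - w) / (v j - w)))) := by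
    apply tendsto_finsetSum
    intro j hj
    have hj' : j ≠ i := Finset.ne_of_mem_erase hj
    have hc : Tendsto (fun t : ℝ => ((v, w + (t : ℂ) * d) : (ZMod n → ℂ) × ℂ)) (𝓝 0) (𝓝 (v, w)) := by
      have hcc : Continuous (fun t : ℝ => ((v, w + (t : ℂ) * d) : (ZMod n → ℂ) × ℂ)) := by fun_prop
      have := hcc.tendsto 0
      simpa using this
    exact (winding_continuousAt_arg v w j (hother j hj')).tendsto.comp hc
  simp only [hsum]
  exact ⟨h1.add (hS.mono_left nhdsWithin_le_nhds), h2.add (hS.mono_left nhdsWithin_le_nhds)⟩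

theorem winding_flip_aux {n : ℕ} [NeZero n] (v : ZMod n → ℂ) (i : ZMod n) (w d : ℂ)
    (hw : w ∈ openSegment ℝ (v i) (v (i + 1)))
    (hother : ∀ j, j ≠ i → w ∉ segment ℝ (v j) (v (j + 1)))
    (hd : cdet d (v (i + 1) - v i) < 0) :
    ∀ᶠ t : ℝ in 𝓝[>] 0, (w + (t : ℂ) * d) ∉ curve v ∧ (w - (t : ℂ) * d) ∉ curve v ∧
      (Inside v (w - (t : ℂ) * d) ↔ ¬ Inside v (w + (t : ℂ) * d)) := by
  obtain ⟨S, h1, h2⟩ := winding_tendsto_turn v i w d hw hother hd
  have hneg : Tendsto (fun t : ℝ => -t) (𝓝[>] 0) (𝓝[<] 0) := by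
    rw [tendsto_nhdsWithin_iff]
    constructor
    · have hc : Continuous (fun t : ℝ => -t) := continuous_neg
      have := hc.tendsto 0
      simp only [neg_zero] at this
      exact this.mono_left nhdsWithin_le_nhds
    · filter_upwards [self_mem_nhdsWithin] with t ht
      have ht0 : 0 < t := ht
      show -t < 0
      linarith
  have h2' : Tendsto (fun t : ℝ => turn v (w - (t : ℂ) * d)) (𝓝[>] 0) (𝓝 (-Real.pi + S)) := by
    have h3 := h2.comp hneg
    refine h3.congr fun t => ?_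
    simp only [Function.comp]
    congr 1
    push_cast
    ring
  have hD : Tendsto (fun t : ℝ => turn v (w + (t : ℂ) * d) - turn v (w - (t : ℂ) * d)) (𝓝[>] 0)
      (𝓝 (2 * Real.pi)) := by
    have h3 := h1.sub h2'
    have e : Real.pi + S - (-Real.pi + S) = 2 * Real.pi := by ring
    rwa [e] at h3
  have hnear := winding_near v i w d hw hother hd.ne
  have hplus : ∀ᶠ t : ℝ in 𝓝[>] 0, (w + (t : ℂ) * d) ∉ curve v := by
    filter_upwards [hnear.filter_mono nhdsWithin_le_nhds, self_mem_nhdsWithin] with t ht ht0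
    have ht1 : 0 < t := ht0
    exact ht ht1.ne'
  have hminus : ∀ᶠ t : ℝ in 𝓝[>] 0, (w - (t : ℂ) * d) ∉ curve v := by
    have h3 := hneg.eventually (hnear.filter_mono nhdsWithin_le_nhds)
    filter_upwards [h3, self_mem_nhdsWithin] with t ht ht0
    have ht1 : 0 < t := ht0
    have h4 := ht (neg_ne_zero.2 ht1.ne')
    have e : w + ((-t : ℝ) : ℂ) * d = w - (t : ℂ) * d := by push_cast; ring
    rwa [e] at h4
  have hclose := Metric.tendsto_nhds.1 hD (2 * Real.pi) (by positivity)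
  filter_upwards [hplus, hminus, hclose] with t hp hm hc
  refine ⟨hp, hm, ?_⟩
  obtain ⟨k, hk⟩ := exists_turn_eq v _ hp
  obtain ⟨l, hl⟩ := exists_turn_eq v _ hm
  rw [Real.dist_eq, hk, hl] at hc
  have hpi : (0 : ℝ) < 2 * Real.pi := by positivity
  have h5 : |((k - l - 1 : ℤ) : ℝ)| < 1 := by
    have e : 2 * Real.pi * (k : ℝ) - 2 * Real.pi * l - 2 * Real.pi
        = 2 * Real.pi * ((k - l - 1 : ℤ) : ℝ) := by push_cast; ring
    rw [e, abs_mul, abs_of_pos hpi] at hc
    by_contra hcon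
    push Not at hcon
    nlinarith
  have h6 : |(k - l - 1 : ℤ)| < 1 := by exact_mod_cast h5
  have h7 : k = l + 1 := by
    rw [abs_lt] at h6
    omega
  have key : ∀ x : ℂ, ∀ m : ℤ, x ∉ curve v → turn v x = 2 * Real.pi * m → (Inside v x ↔ Odd m) := by
    intro x m hx hm'
    constructor
    · rintro ⟨_, m', hodd, hm''⟩
      rw [hm'] at hm''
      have h8 : (m : ℝ) = m' := by
        have := mul_left_cancel₀ hpi.ne' hm''
        exact this
      have h9 : m = m' := by exact_mod_cast h8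
      rwa [h9]
    · intro hodd
      exact ⟨hx, m, hodd, hm'⟩
  rw [key _ l hm hl, key _ k hp hk, h7]
  rw [Int.not_odd_iff_even, Int.even_add_one, Int.not_even_iff_odd]

/-- Local form of the jump: at a point in the relative interior of exactly one side, the winding numbers at
`w - t d` and `w + t d`, `t > 0` small, have different parity. -/
theorem inside_flip_local {n : ℕ} [NeZero n] (v : ZMod n → ℂ) (i : ZMod n) (w d : ℂ)
    (hw : w ∈ openSegment ℝ (v i) (v (i + 1)))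
    (hother : ∀ j, j ≠ i → w ∉ segment ℝ (v j) (v (j + 1)))
    (hd : cdet d (v (i + 1) - v i) ≠ 0) :
    ∀ᶠ t : ℝ in 𝓝[>] 0, (w + (t : ℂ) * d) ∉ curve v ∧ (w - (t : ℂ) * d) ∉ curve v ∧
      (Inside v (w - (t : ℂ) * d) ↔ ¬ Inside v (w + (t : ℂ) * d)) := by
  rcases lt_or_gt_of_ne hd with h | h
  · exact winding_flip_aux v i w d hw hother h
  · have h' : cdet (-d) (v (i + 1) - v i) < 0 := by
      have e : cdet (-d) (v (i + 1) - v i) = - cdet d (v (i + 1) - v i) := by
        simp only [cdet, Complex.neg_re, Complex.neg_im]; ring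
      rw [e]; linarith
    filter_upwards [winding_flip_aux v i w (-d) hw hother h'] with t ht
    obtain ⟨h1, h2, h3⟩ := ht
    have e1 : w + (t : ℂ) * -d = w - (t : ℂ) * d := by ring
    have e2 : w - (t : ℂ) * -d = w + (t : ℂ) * d := by ring
    rw [e1] at h1 h3
    rw [e2] at h2 h3
    refine ⟨h2, h1, ?_⟩
    rw [h3, not_not]

/-- The jump: a segment which meets the curve in exactly one point, in the relative interior of a side and
transversally, joins a point inside to a point outside. -/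
theorem inside_flip {n : ℕ} [NeZero n] (v : ZMod n → ℂ) (i : ZMod n) (x₁ x₂ w : ℂ)
    (hw : w ∈ openSegment ℝ (v i) (v (i + 1)))
    (hother : ∀ j, j ≠ i → w ∉ segment ℝ (v j) (v (j + 1)))
    (hwx : w ∈ openSegment ℝ x₁ x₂) (hone : ∀ y ∈ segment ℝ x₁ x₂, y ∈ curve v → y = w)
    (hd : cdet (x₂ - x₁) (v (i + 1) - v i) ≠ 0) :
    Inside v x₁ ↔ ¬ Inside v x₂ := by
  have hloc := inside_flip_local v i w (x₂ - x₁) hw hother hd
  rw [openSegment_eq_image] at hwx
  obtain ⟨s, ⟨hs0, hs1⟩, hsw⟩ := hwx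
  have hsw' : w = x₁ + (s : ℂ) * (x₂ - x₁) := by
    rw [← hsw]
    simp only [Complex.real_smul]
    push_cast
    ring
  have hsmall : ∀ᶠ t : ℝ in 𝓝[>] 0, t < s ∧ t < 1 - s := by
    have h1 : ∀ᶠ t : ℝ in 𝓝 0, t < s := eventually_lt_nhds hs0
    have h2 : ∀ᶠ t : ℝ in 𝓝 0, t < 1 - s := eventually_lt_nhds (by linarith)
    exact (h1.and h2).filter_mono nhdsWithin_le_nhds
  have hpos : ∀ᶠ t : ℝ in 𝓝[>] 0, 0 < t := self_mem_nhdsWithin
  obtain ⟨t, ⟨⟨hp, hm, hiff⟩, hts, hts'⟩, ht0⟩ := ((hloc.and hsmall).and hpos).exists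
  have hne : x₂ - x₁ ≠ 0 := by
    intro h0
    rw [h0] at hd
    simp [cdet] at hd
  -- points of the segment by their parameter
  have hpar : ∀ r : ℝ, 0 ≤ r → r ≤ 1 → x₁ + (r : ℂ) * (x₂ - x₁) ∈ segment ℝ x₁ x₂ := by
    intro r hr0 hr1
    rw [segment_eq_image]
    refine ⟨r, ⟨hr0, hr1⟩, ?_⟩
    simp only [Complex.real_smul]
    push_cast
    ring
  have hoff : ∀ r : ℝ, 0 ≤ r → r ≤ 1 → r ≠ s → x₁ + (r : ℂ) * (x₂ - x₁) ∉ curve v := by
    intro r hr0 hr1 hrs hmem
    have h1 := hone _ (hpar r hr0 hr1) hmem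
    rw [hsw'] at h1
    have h2 : (r : ℂ) * (x₂ - x₁) = (s : ℂ) * (x₂ - x₁) := by linear_combination h1
    have h3 := mul_right_cancel₀ hne h2
    exact hrs (by exact_mod_cast h3)
  have hseg : ∀ r₁ r₂ : ℝ, 0 ≤ r₁ → r₂ ≤ 1 → r₁ ≤ r₂ → (s < r₁ ∨ r₂ < s) →
      (Inside v (x₁ + (r₁ : ℂ) * (x₂ - x₁)) ↔ Inside v (x₁ + (r₂ : ℂ) * (x₂ - x₁))) := by
    intro r₁ r₂ h1 h2 h3 h4
    have hpc : IsPreconnected ((fun r : ℝ => x₁ + (r : ℂ) * (x₂ - x₁)) '' Set.Icc r₁ r₂) := by
      apply isPreconnected_Icc.image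
      fun_prop
    refine inside_iff_of_isPreconnected v hpc ?_ ⟨r₁, ⟨le_refl _, h3⟩, rfl⟩ ⟨r₂, ⟨h3, le_refl _⟩, rfl⟩
    rintro _ ⟨r, ⟨hr1, hr2⟩, rfl⟩
    refine hoff r (by linarith) (by linarith) ?_
    rcases h4 with h4 | h4
    · intro h; linarith
    · intro h; linarith
  have e1 : w - (t : ℂ) * (x₂ - x₁) = x₁ + ((s - t : ℝ) : ℂ) * (x₂ - x₁) := by
    rw [hsw']; push_cast; ring
  have e2 : w + (t : ℂ) * (x₂ - x₁) = x₁ + ((s + t : ℝ) : ℂ) * (x₂ - x₁) := by
    rw [hsw']; push_cast; ring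
  have f1 := hseg 0 (s - t) (le_refl _) (by linarith) (by linarith) (Or.inr (by linarith))
  have f2 := hseg (s + t) 1 (by linarith) (le_refl _) (by linarith) (Or.inl (by linarith))
  have g1 : x₁ + ((0 : ℝ) : ℂ) * (x₂ - x₁) = x₁ := by simp
  have g2 : x₁ + ((1 : ℝ) : ℂ) * (x₂ - x₁) = x₂ := by simp
  rw [g1] at f1
  rw [g2] at f2
  rw [e1, e2] at hiff
  rw [f1, hiff, f2]

end Pool.Agent.H52W
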