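import Mathlib
import Pool.Agent.Lib.H52W.Jump

/-!
# MP_273810_co : the region of a polygon is given by the parity of the winding number (library H52W, helper52)
-/

namespace Pool.Agent.H52W

open Complex Topology Filter

/-- `P` is a compact set which is the closure of its interior and whose frontier is the curve `v`; two different sides
meet in vertices only. -/
structure Reg {n : ℕ} (P : Set ℂ) (v : ZMod n → ℂ) : Prop where
  compact : IsCompact P
  closure_interior : closure (interior P) = P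
  frontier_eq : frontier P = curve v
  simple : ∀ i j, i ≠ j → ∀ x, x ∈ segment ℝ (v i) (v (i + 1)) → x ∈ segment ℝ (v j) (v (j + 1)) →
    ∃ k, x = v k

theorem Reg.isClosed {n : ℕ} {P : Set ℂ} {v : ZMod n → ℂ} (h : Reg P v) : IsClosed P :=
  h.compact.isClosed

theorem isClosed_curve {n : ℕ} [NeZero n] (v : ZMod n → ℂ) : IsClosed (curve v) := by
  unfold curve
  refine isClosed_iUnion_of_finite fun i => ?_
  rw [segment_eq_image]
  exact (isCompact_Icc.image (by fun_prop)).isClosed

/-- A preconnected set which avoids the frontier is inside `P` or disjoint from `P`. -/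
theorem Reg.dichotomy {n : ℕ} {P : Set ℂ} {v : ZMod n → ℂ} (h : Reg P v) {s : Set ℂ}
    (hs : IsPreconnected s) (hd : ∀ x ∈ s, x ∉ curve v) {x y : ℂ} (hx : x ∈ s) (hy : y ∈ s) :
    x ∈ P ↔ y ∈ P := by
  have key : ∀ x y, x ∈ s → y ∈ s → x ∈ P → y ∈ P := by
    intro x y hx hy hxP
    by_contra hyP
    have hcov : s ⊆ interior P ∪ Pᶜ := by
      intro z hz
      by_cases hzP : z ∈ P
      · left
        by_contra hzi
        apply hd z hz
        rw [← h.frontier_eq, h.isClosed.frontier_eq]
        exact ⟨hzP, hzi⟩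
      · exact Or.inr hzP
    have hxi : x ∈ interior P := by
      rcases hcov hx with h1 | h1
      · exact h1
      · exact absurd hxP h1
    obtain ⟨z, _, h1, h2⟩ := hs _ _ isOpen_interior h.isClosed.isOpen_compl hcov ⟨x, hx, hxi⟩ ⟨y, hy, hyP⟩
    exact h2 (interior_subset h1)
  exact ⟨key x y hx hy, key y x hy hx⟩

/-- Agreement of the two descriptions. -/
def Agree {n : ℕ} [NeZero n] (P : Set ℂ) (v : ZMod n → ℂ) (x : ℂ) : Prop := x ∈ P ↔ Inside v x

theorem Reg.agree_of_isPreconnected {n : ℕ} [NeZero n] {P : Set ℂ} {v : ZMod n → ℂ} (h : Reg P v)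
    {s : Set ℂ} (hs : IsPreconnected s) (hd : ∀ x ∈ s, x ∉ curve v) {x y : ℂ} (hx : x ∈ s) (hy : y ∈ s) :
    Agree P v x ↔ Agree P v y := by
  unfold Agree
  rw [h.dichotomy hs hd hx hy, inside_iff_of_isPreconnected v hs hd hx hy]

theorem Reg.agree_off {n : ℕ} [NeZero n] {P : Set ℂ} {v : ZMod n → ℂ} (h : Reg P v) (x : ℂ)
    (hx : x ∉ curve v) : ∀ᶠ y in 𝓝 x, y ∉ curve v ∧ (Agree P v y ↔ Agree P v x) := by
  have h1 : (curve v)ᶜ ∈ 𝓝 x := (isClosed_curve v).isOpen_compl.mem_nhds hx
  obtain ⟨r, hr, hball⟩ := Metric.mem_nhds_iff.1 h1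
  filter_upwards [Metric.ball_mem_nhds x hr] with y hy
  refine ⟨hball hy, ?_⟩
  exact h.agree_of_isPreconnected (convex_ball x r).isPreconnected (fun z hz => hball hz) hy
    (Metric.mem_ball_self hr)

/-- Points with `cdet d (y - w) > 0` near `w`. -/
theorem bridge_side_points (w d : ℂ) (hd : d ≠ 0) (t : ℝ) :
    cdet d ((w + (t : ℂ) * (I * d)) - w) = t * Complex.normSq d := by
  simp only [cdet, Complex.normSq_apply, Complex.sub_re, Complex.sub_im, Complex.add_re, Complex.add_im,
    Complex.mul_re, Complex.mul_im, Complex.ofReal_re, Complex.ofReal_im, Complex.I_re, Complex.I_im]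
  ring

theorem bridge_convex_half (w d : ℂ) (r : ℝ) (σ : ℝ) :
    Convex ℝ (Metric.ball w r ∩ {y | 0 < σ * cdet d (y - w)}) := by
  apply (convex_ball w r).inter
  have hlin : IsLinearMap ℝ (fun y : ℂ => σ * cdet d y) := by
    constructor
    · intro x y
      simp only [cdet, Complex.add_re, Complex.add_im]; ring
    · intro c x
      simp only [cdet, Complex.real_smul, Complex.mul_re, Complex.mul_im, Complex.ofReal_re,
        Complex.ofReal_im, smul_eq_mul]; ring
  have hc := convex_halfSpace_gt hlin (σ * cdet d w)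
  have he : {y | 0 < σ * cdet d (y - w)} = {y : ℂ | σ * cdet d w < σ * cdet d y} := by
    ext y
    simp only [Set.mem_ofPred_eq]
    have e : σ * cdet d (y - w) = σ * cdet d y - σ * cdet d w := by
      simp only [cdet, Complex.sub_re, Complex.sub_im]; ring
    rw [e]
    constructor <;> intro h <;> linarith
  rw [he]
  exact hc

/-- The local picture at a point in the relative interior of exactly one side. -/
theorem Reg.side_local {n : ℕ} [NeZero n] {P : Set ℂ} {v : ZMod n → ℂ} (h : Reg P v) (i : ZMod n) (w : ℂ)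
    (hw : w ∈ openSegment ℝ (v i) (v (i + 1)))
    (hother : ∀ j, j ≠ i → w ∉ segment ℝ (v j) (v (j + 1))) (hne : v i ≠ v (i + 1)) :
    ∃ r > 0, ∀ σ : ℝ, σ ≠ 0 → ∀ y ∈ Metric.ball w r, 0 < σ * cdet (v (i + 1) - v i) (y - w) → y ∉ curve v := by
  have h1 : ∀ j, j ≠ i → ∀ᶠ y in 𝓝 w, y ∉ segment ℝ (v j) (v (j + 1)) := by
    intro j hj
    have hcl : IsClosed (segment ℝ (v j) (v (j + 1))) := by
      rw [segment_eq_image]
      exact (isCompact_Icc.image (by fun_prop)).isClosed
    exact hcl.isOpen_compl.mem_nhds (hother j hj)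
  have h2 : ∀ᶠ y in 𝓝 w, ∀ j, j ≠ i → y ∉ segment ℝ (v j) (v (j + 1)) := by
    rw [eventually_all]
    intro j
    by_cases hj : j = i
    · exact Eventually.of_forall fun y hj' => absurd hj hj'
    · filter_upwards [h1 j hj] with y hy _
      exact hy
  obtain ⟨r, hr, hball⟩ := Metric.eventually_nhds_iff_ball.1 h2
  refine ⟨r, hr, fun σ hσ y hy hpos => ?_⟩
  rw [not_mem_curve_iff]
  intro j hmem
  by_cases hj : j = i
  · subst hj
    have h3 := cdet_eq_zero_of_mem_segment _ _ _ hmem
    have h4 := cdet_eq_zero_of_mem_segment _ _ _ (openSegment_subset_segment _ _ _ hw)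
    -- det (a - y) (b - y) = 0 and det (a - w) (b - w) = 0 give det (b - a) (y - w) = 0
    have h5 : cdet (v (j + 1) - v j) (y - w) = 0 := by
      simp only [cdet, Complex.sub_re, Complex.sub_im] at h3 h4 ⊢
      linear_combination h3 - h4
    rw [h5, mul_zero] at hpos
    exact lt_irrefl _ hpos
  · exact hball y hy j hj hmem

theorem bridge_mem_closure_half (w d : ℂ) (hd : d ≠ 0) (r : ℝ) (σ : ℝ) (hσ : σ ≠ 0) (y : ℂ)
    (hy : y ∈ Metric.ball w r) (hy0 : cdet d (y - w) = 0) :
    y ∈ closure (Metric.ball w r ∩ {y | 0 < σ * cdet d (y - w)}) := by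
  rw [mem_closure_iff_frequently]
  have hc : Tendsto (fun t : ℝ => y + ((t * σ : ℝ) : ℂ) * (I * d)) (𝓝[>] 0) (𝓝 y) := by
    have hcc : Continuous (fun t : ℝ => y + ((t * σ : ℝ) : ℂ) * (I * d)) := by fun_prop
    have := hcc.tendsto 0
    simp only [zero_mul, Complex.ofReal_zero, add_zero] at this
    exact this.mono_left nhdsWithin_le_nhds
  have hev : ∀ᶠ t : ℝ in 𝓝[>] 0, y + ((t * σ : ℝ) : ℂ) * (I * d) ∈
      Metric.ball w r ∩ {y | 0 < σ * cdet d (y - w)} := by
    have h1 : ∀ᶠ t : ℝ in 𝓝[>] 0, y + ((t * σ : ℝ) : ℂ) * (I * d) ∈ Metric.ball w r :=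
      hc.eventually (Metric.isOpen_ball.mem_nhds hy)
    filter_upwards [h1, self_mem_nhdsWithin] with t ht ht0
    refine ⟨ht, ?_⟩
    have ht1 : 0 < t := ht0
    show 0 < σ * cdet d (y + ((t * σ : ℝ) : ℂ) * (I * d) - w)
    have e : cdet d (y + ((t * σ : ℝ) : ℂ) * (I * d) - w) = cdet d (y - w) + t * σ * Complex.normSq d := by
      simp only [cdet, Complex.normSq_apply, Complex.sub_re, Complex.sub_im, Complex.add_re, Complex.add_im,
        Complex.mul_re, Complex.mul_im, Complex.ofReal_re, Complex.ofReal_im, Complex.I_re, Complex.I_im]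
      ring
    rw [e, hy0, zero_add]
    have hσ2 : 0 < σ * σ := mul_self_pos.2 hσ
    have hn := Complex.normSq_pos.2 hd
    nlinarith [mul_pos (mul_pos ht1 hσ2) hn]
  exact hc.frequently hev.frequently

/-- Membership in `P` changes at a side, and so does the parity: the agreement does not change. -/
theorem Reg.agree_side {n : ℕ} [NeZero n] {P : Set ℂ} {v : ZMod n → ℂ} (h : Reg P v) (i : ZMod n) (w : ℂ)
    (hw : w ∈ openSegment ℝ (v i) (v (i + 1)))
    (hother : ∀ j, j ≠ i → w ∉ segment ℝ (v j) (v (j + 1))) (hne : v i ≠ v (i + 1)) :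
    (∀ᶠ y in 𝓝 w, y ∉ curve v → Agree P v y) ∨ (∀ᶠ y in 𝓝 w, y ∉ curve v → ¬ Agree P v y) := by
  obtain ⟨r, hr, hoff⟩ := h.side_local i w hw hother hne
  have hd0 : v (i + 1) - v i ≠ 0 := sub_ne_zero.2 (Ne.symm hne)
  set d := v (i + 1) - v i with hd
  have hwball : w ∈ Metric.ball w r := Metric.mem_ball_self hr
  have hconv := fun σ : ℝ => (bridge_convex_half w d r σ).isPreconnected
  have hoffσ : ∀ σ : ℝ, σ ≠ 0 → ∀ y ∈ Metric.ball w r ∩ {y | 0 < σ * cdet d (y - w)}, y ∉ curve v :=
    fun σ hσ y hy => hoff σ hσ y hy.1 hy.2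
  -- two points, one in each half, small
  have hloc := inside_flip_local v i w (I * d) hw hother (by
    rw [← hd]
    have e : cdet (I * d) d = - Complex.normSq d := by
      simp only [cdet, Complex.normSq_apply, Complex.mul_re, Complex.mul_im, Complex.I_re, Complex.I_im]
      ring
    rw [e]
    exact neg_ne_zero.2 (Complex.normSq_pos.2 hd0).ne')
  have hc : Tendsto (fun t : ℝ => w + (t : ℂ) * (I * d)) (𝓝[>] 0) (𝓝 w) := by
    have hcc : Continuous (fun t : ℝ => w + (t : ℂ) * (I * d)) := by fun_prop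
    have := hcc.tendsto 0
    simp only [Complex.ofReal_zero, zero_mul, add_zero] at this
    exact this.mono_left nhdsWithin_le_nhds
  have hc' : Tendsto (fun t : ℝ => w - (t : ℂ) * (I * d)) (𝓝[>] 0) (𝓝 w) := by
    have hcc : Continuous (fun t : ℝ => w - (t : ℂ) * (I * d)) := by fun_prop
    have := hcc.tendsto 0
    simp only [Complex.ofReal_zero, zero_mul, sub_zero] at this
    exact this.mono_left nhdsWithin_le_nhds
  have hb1 := hc.eventually (Metric.isOpen_ball.mem_nhds hwball)
  have hb2 := hc'.eventually (Metric.isOpen_ball.mem_nhds hwball)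
  have hpos : ∀ᶠ t : ℝ in 𝓝[>] 0, 0 < t := self_mem_nhdsWithin
  obtain ⟨t, ⟨⟨⟨_, _, hflip⟩, ht1⟩, ht2⟩, ht0⟩ := (((hloc.and hb1).and hb2).and hpos).exists
  have hn := Complex.normSq_pos.2 hd0
  have hp1 : w + (t : ℂ) * (I * d) ∈ Metric.ball w r ∩ {y | 0 < (1 : ℝ) * cdet d (y - w)} := by
    refine ⟨ht1, ?_⟩
    show 0 < (1 : ℝ) * cdet d (w + (t : ℂ) * (I * d) - w)
    rw [bridge_side_points w d hd0, one_mul]
    positivity
  have hp2 : w - (t : ℂ) * (I * d) ∈ Metric.ball w r ∩ {y | 0 < (-1 : ℝ) * cdet d (y - w)} := by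
    refine ⟨ht2, ?_⟩
    show 0 < (-1 : ℝ) * cdet d (w - (t : ℂ) * (I * d) - w)
    have e : w - (t : ℂ) * (I * d) = w + ((-t : ℝ) : ℂ) * (I * d) := by push_cast; ring
    rw [e, bridge_side_points w d hd0]
    nlinarith
  set x1 := w + (t : ℂ) * (I * d) with hx1
  set x2 := w - (t : ℂ) * (I * d) with hx2
  -- membership flips
  have hwfr : w ∈ frontier P := by
    rw [h.frontier_eq, curve, Set.mem_iUnion]
    exact ⟨i, openSegment_subset_segment _ _ _ hw⟩
  have hgflip : x2 ∈ P ↔ ¬ x1 ∈ P := by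
    constructor
    · intro h2 h1
      -- both halves in P
      have hall : Metric.ball w r ⊆ P := by
        intro y hy
        rcases lt_trichotomy (cdet d (y - w)) 0 with hlt | heq | hgt
        · have hyh : y ∈ Metric.ball w r ∩ {y | 0 < (-1 : ℝ) * cdet d (y - w)} := by
            refine ⟨hy, ?_⟩
            show 0 < (-1 : ℝ) * cdet d (y - w)
            linarith
          exact (h.dichotomy (hconv (-1)) (hoffσ (-1) (by norm_num)) hp2 hyh).1 h2
        · have hcl := bridge_mem_closure_half w d hd0 r 1 one_ne_zero y hy heq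
          have hsub : Metric.ball w r ∩ {y | 0 < (1 : ℝ) * cdet d (y - w)} ⊆ P := fun z hz =>
            (h.dichotomy (hconv 1) (hoffσ 1 one_ne_zero) hp1 hz).1 h1
          exact (closure_minimal hsub h.isClosed) hcl
        · have hyh : y ∈ Metric.ball w r ∩ {y | 0 < (1 : ℝ) * cdet d (y - w)} := by
            refine ⟨hy, ?_⟩
            show 0 < (1 : ℝ) * cdet d (y - w)
            linarith
          exact (h.dichotomy (hconv 1) (hoffσ 1 one_ne_zero) hp1 hyh).1 h1
      have hint : w ∈ interior P := interior_maximal hall Metric.isOpen_ball hwball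
      exact hwfr.2 hint
    · intro h1
      by_contra h2
      -- both halves outside P: the ball does not meet the interior of P
      have hempty : ∀ y ∈ Metric.ball w r, y ∉ interior P := by
        intro y hy hyi
        have hz : ∃ z ∈ Metric.ball w r ∩ {y | 0 < (1 : ℝ) * cdet d (y - w)}, z ∈ P ∨
            ∃ z ∈ Metric.ball w r ∩ {y | 0 < (-1 : ℝ) * cdet d (y - w)}, z ∈ P := by
          rcases lt_trichotomy (cdet d (y - w)) 0 with hlt | heq | hgt
          · refine ⟨x1, hp1, Or.inr ⟨y, ⟨hy, ?_⟩, interior_subset hyi⟩⟩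
            show 0 < (-1 : ℝ) * cdet d (y - w)
            linarith
          · have hcl := bridge_mem_closure_half w d hd0 r 1 one_ne_zero y hy heq
            obtain ⟨z, hz1, hz2⟩ := mem_closure_iff.1 hcl (interior P) isOpen_interior hyi
            exact ⟨z, hz2, Or.inl (interior_subset hz1)⟩
          · refine ⟨y, ⟨hy, ?_⟩, Or.inl (interior_subset hyi)⟩
            show 0 < (1 : ℝ) * cdet d (y - w)
            linarith
        obtain ⟨z, hz, hzP⟩ := hz
        rcases hzP with hzP | ⟨z', hz', hzP'⟩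
        · exact h1 ((h.dichotomy (hconv 1) (hoffσ 1 one_ne_zero) hz hp1).1 hzP)
        · exact h2 ((h.dichotomy (hconv (-1)) (hoffσ (-1) (by norm_num)) hz' hp2).1 hzP')
      have hwP : w ∈ closure (interior P) := by
        rw [h.closure_interior]
        exact h.isClosed.frontier_subset hwfr
      obtain ⟨z, hz1, hz2⟩ := mem_closure_iff.1 hwP (Metric.ball w r) Metric.isOpen_ball hwball
      exact hempty z hz1 hz2
  have hag : Agree P v x2 ↔ Agree P v x1 := by
    unfold Agree
    rw [hgflip, hflip]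
    tauto
  -- all points off the curve in the ball agree with x1
  have hall : ∀ y ∈ Metric.ball w r, y ∉ curve v → (Agree P v y ↔ Agree P v x1) := by
    intro y hy hyc
    rcases lt_trichotomy (cdet d (y - w)) 0 with hlt | heq | hgt
    · have hyh : y ∈ Metric.ball w r ∩ {y | 0 < (-1 : ℝ) * cdet d (y - w)} := by
        refine ⟨hy, ?_⟩
        show 0 < (-1 : ℝ) * cdet d (y - w)
        linarith
      rw [← hag]
      exact h.agree_of_isPreconnected (hconv (-1)) (hoffσ (-1) (by norm_num)) hyh hp2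
    · have hcl := bridge_mem_closure_half w d hd0 r 1 one_ne_zero y hy heq
      have hev := h.agree_off y hyc
      obtain ⟨z, hz1, hz2⟩ := (mem_closure_iff_frequently.1 hcl |>.and_eventually hev).exists
      rw [← hz2.2]
      exact h.agree_of_isPreconnected (hconv 1) (hoffσ 1 one_ne_zero) hz1 hp1
    · have hyh : y ∈ Metric.ball w r ∩ {y | 0 < (1 : ℝ) * cdet d (y - w)} := by
        refine ⟨hy, ?_⟩
        show 0 < (1 : ℝ) * cdet d (y - w)
        linarith
      exact h.agree_of_isPreconnected (hconv 1) (hoffσ 1 one_ne_zero) hyh hp1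
  by_cases hx : Agree P v x1
  · left
    filter_upwards [Metric.ball_mem_nhds w hr] with y hy hyc
    exact (hall y hy hyc).2 hx
  · right
    filter_upwards [Metric.ball_mem_nhds w hr] with y hy hyc hya
    exact hx ((hall y hy hyc).1 hya)

/-! ### Far away -/

theorem bridge_far {n : ℕ} [NeZero n] (v : ZMod n → ℂ) :
    ∀ᶠ t : ℝ in atTop, ¬ Inside v (t : ℂ) := by
  have hinv : ∀ a : ℂ, Tendsto (fun t : ℝ => (a - (t : ℂ))⁻¹) atTop (𝓝 0) := by
    intro a
    have h1 : Tendsto (fun t : ℝ => ‖a - (t : ℂ)‖) atTop atTop := by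
      refine tendsto_atTop_mono (f := fun t : ℝ => t + (-‖a‖)) ?_ (tendsto_atTop_add_const_right _ _ tendsto_id)
      intro t
      have h2 : ‖(t : ℂ)‖ ≤ ‖a - (t : ℂ)‖ + ‖a‖ := by
        have e : (t : ℂ) = a - (a - (t : ℂ)) := by ring
        calc ‖(t : ℂ)‖ = ‖a - (a - (t : ℂ))‖ := by rw [← e]
          _ ≤ ‖a‖ + ‖a - (t : ℂ)‖ := norm_sub_le _ _
          _ = _ := by ring
      have h3 : t ≤ ‖(t : ℂ)‖ := by
        rw [Complex.norm_real]
        exact le_abs_self t
      show t + (-‖a‖) ≤ ‖a - (t : ℂ)‖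
      linarith
    rw [tendsto_zero_iff_norm_tendsto_zero]
    simp only [norm_inv]
    exact h1.inv_tendsto_atTop
  have hratio : ∀ i : ZMod n, Tendsto (fun t : ℝ => (v (i + 1) - (t : ℂ)) / (v i - (t : ℂ))) atTop (𝓝 1) := by
    intro i
    have h1 : Tendsto (fun t : ℝ => 1 + (v (i + 1) - v i) * (v i - (t : ℂ))⁻¹) atTop
        (𝓝 (1 + (v (i + 1) - v i) * 0)) := ((hinv (v i)).const_mul _).const_add 1
    rw [mul_zero, add_zero] at h1
    refine h1.congr' ?_
    have h2 : ∀ᶠ t : ℝ in atTop, v i - (t : ℂ) ≠ 0 := by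
      filter_upwards [eventually_gt_atTop (v i).re] with t ht h0
      have h3 := congrArg Complex.re h0
      simp only [Complex.sub_re, Complex.ofReal_re, Complex.zero_re] at h3
      linarith
    filter_upwards [h2] with t ht
    field_simp
    ring
  have harg : ∀ i : ZMod n, Tendsto (fun t : ℝ => arg ((v (i + 1) - (t : ℂ)) / (v i - (t : ℂ)))) atTop (𝓝 0) := by
    intro i
    have h1 : ContinuousAt arg (1 : ℂ) := Complex.continuousAt_arg (by simp)
    have h2 := h1.tendsto.comp (hratio i)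
    rw [Complex.arg_one] at h2
    exact h2
  have hturn : Tendsto (fun t : ℝ => turn v (t : ℂ)) atTop (𝓝 0) := by
    unfold turn
    have h1 := tendsto_finsetSum (s := Finset.univ) (f := fun (i : ZMod n) (t : ℝ) =>
      arg ((v (i + 1) - (t : ℂ)) / (v i - (t : ℂ)))) (a := fun _ => (0 : ℝ)) (x := atTop) (fun i _ => harg i)
    simpa using h1
  have hclose := Metric.tendsto_nhds.1 hturn (2 * Real.pi) (by positivity)
  filter_upwards [hclose] with t ht
  rintro ⟨_, k, hodd, hk⟩
  rw [Real.dist_eq, sub_zero, hk, abs_mul, abs_of_pos (by positivity : (0 : ℝ) < 2 * Real.pi)] at ht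
  have hpi : (0 : ℝ) < 2 * Real.pi := by positivity
  have h5 : |(k : ℝ)| < 1 := by
    by_contra hcon
    push Not at hcon
    nlinarith
  have h6 : |k| < 1 := by exact_mod_cast h5
  have h7 : k = 0 := by
    rw [abs_lt] at h6
    omega
  rw [h7] at hodd
  exact absurd hodd (by decide)

/-! ### The bridge -/

/-- For a polygon the points of `P` off the boundary are exactly those with odd winding number. -/
theorem Reg.mem_iff_inside {n : ℕ} [NeZero n] {P : Set ℂ} {v : ZMod n → ℂ} (h : Reg P v)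
    (hne : ∀ i, v i ≠ v (i + 1)) (x : ℂ) (hx : x ∉ curve v) : x ∈ P ↔ Inside v x := by
  have hS : IsPreconnected (Set.range v)ᶜ := by
    have hrank : 1 < Module.rank ℝ ℂ := by
      rw [Complex.rank_real_complex]
      exact Cardinal.one_lt_two
    exact ((Set.finite_range v).countable.isPathConnected_compl_of_one_lt_rank hrank).isConnected.isPreconnected
  set U : Set ℂ := {x | ∀ᶠ y in 𝓝 x, y ∉ curve v → Agree P v y} with hU
  set W : Set ℂ := {x | ∀ᶠ y in 𝓝 x, y ∉ curve v → ¬ Agree P v y} with hW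
  have hUo : IsOpen U := by
    rw [isOpen_iff_mem_nhds]
    intro x hx
    exact eventually_eventually_nhds.2 hx
  have hWo : IsOpen W := by
    rw [isOpen_iff_mem_nhds]
    intro x hx
    exact eventually_eventually_nhds.2 hx
  have hoff : ∀ x, x ∉ curve v → x ∈ U ∪ W := by
    intro x hx
    have h1 := h.agree_off x hx
    by_cases ha : Agree P v x
    · left
      show ∀ᶠ y in 𝓝 x, y ∉ curve v → Agree P v y
      filter_upwards [h1] with y hy _
      exact hy.2.2 ha
    · right
      show ∀ᶠ y in 𝓝 x, y ∉ curve v → ¬ Agree P v y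
      filter_upwards [h1] with y hy _ hya
      exact ha (hy.2.1 hya)
  have hcov : (Set.range v)ᶜ ⊆ U ∪ W := by
    intro x hx
    by_cases hxc : x ∈ curve v
    · rw [curve, Set.mem_iUnion] at hxc
      obtain ⟨i, hi⟩ := hxc
      have hop : x ∈ openSegment ℝ (v i) (v (i + 1)) := by
        refine mem_openSegment_of_ne_left_right ?_ ?_ hi
        · intro he; exact hx ⟨i, he⟩
        · intro he; exact hx ⟨i + 1, he⟩
      have hother : ∀ j, j ≠ i → x ∉ segment ℝ (v j) (v (j + 1)) := by
        intro j hj hmem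
        obtain ⟨k, hk⟩ := h.simple j i hj x hmem hi
        exact hx ⟨k, hk.symm⟩
      rcases h.agree_side i x hop hother (hne i) with h1 | h1
      · exact Or.inl h1
      · exact Or.inr h1
    · exact hoff x hxc
  -- far away
  obtain ⟨R, hR⟩ := h.compact.isBounded.subset_closedBall 0
  have hfarP : ∀ᶠ t : ℝ in atTop, (t : ℂ) ∉ P := by
    filter_upwards [eventually_gt_atTop (max R 0)] with t ht hmem
    have h1 := hR hmem
    rw [mem_closedBall_zero_iff, Complex.norm_real] at h1
    have h2 : R < t := lt_of_le_of_lt (le_max_left _ _) ht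
    have h3 := le_abs_self t
    simp only [Real.norm_eq_abs] at h1
    linarith
  obtain ⟨t, ht1, ht2⟩ := (hfarP.and (bridge_far v)).exists
  have htc : (t : ℂ) ∉ curve v := by
    intro hmem
    rw [← h.frontier_eq] at hmem
    exact ht1 (h.isClosed.frontier_subset hmem)
  have hagt : Agree P v (t : ℂ) := by
    unfold Agree
    exact ⟨fun h1 => absurd h1 ht1, fun h1 => absurd h1 ht2⟩
  have htU : (t : ℂ) ∈ U := by
    show ∀ᶠ y in 𝓝 (t : ℂ), y ∉ curve v → Agree P v y
    filter_upwards [h.agree_off _ htc] with y hy _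
    exact hy.2.2 hagt
  have hmemS : ∀ y, y ∉ curve v → y ∈ (Set.range v)ᶜ := by
    rintro y hy ⟨k, rfl⟩
    apply hy
    rw [curve, Set.mem_iUnion]
    exact ⟨k, left_mem_segment ℝ _ _⟩
  by_contra hcon
  have hxW : x ∈ W := by
    show ∀ᶠ y in 𝓝 x, y ∉ curve v → ¬ Agree P v y
    filter_upwards [h.agree_off x hx] with y hy _ hya
    exact hcon (hy.2.1 hya)
  obtain ⟨z, _, hzU, hzW⟩ := hS U W hUo hWo hcov ⟨_, hmemS _ htc, htU⟩ ⟨_, hmemS _ hx, hxW⟩
  have hz : ∀ᶠ y in 𝓝 z, y ∈ curve v := by
    have h1 : ∀ᶠ y in 𝓝 z, y ∉ curve v → Agree P v y := hzU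
    have h2 : ∀ᶠ y in 𝓝 z, y ∉ curve v → ¬ Agree P v y := hzW
    filter_upwards [h1, h2] with y hy1 hy2
    by_contra hyc
    exact hy2 hyc (hy1 hyc)
  have hz' : z ∈ interior (frontier P) := by
    rw [h.frontier_eq]
    exact mem_interior_iff_mem_nhds.2 hz
  rw [interior_frontier h.isClosed] at hz'
  exact hz'

end Pool.Agent.H52W
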