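import Mathlib
import Pool.Agent.Lib.H42I.Defs
import Pool.Agent.Lib.H52W.Bridge

/-!
# MP_273810_co : stability of the inside and of light segments (library H52W, helper52)
-/

namespace Pool.Agent.H52W

open Complex Topology Filter Set
open Pool.Agent.Lib.H42I (IsPolygon)

theorem neZero_of_polygon {n : ℕ} {P : Set ℂ} {v : ZMod n → ℂ} (h : IsPolygon P v) : NeZero n :=
  ⟨by have := h.three_le; omega⟩

theorem reg_of_polygon {n : ℕ} {P : Set ℂ} {v : ZMod n → ℂ} (h : IsPolygon P v) : Reg P v where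
  compact := h.compact
  closure_interior := h.closure_interior
  frontier_eq := h.frontier_eq
  simple := by
    intro i j hij x h1 h2
    have h3 := h.simple i j hij ⟨h1, h2⟩
    rcases h3.1 with h4 | h4
    · exact ⟨i, h4⟩
    · exact ⟨i + 1, h4⟩

theorem side_ne_of_polygon {n : ℕ} {P : Set ℂ} {v : ZMod n → ℂ} (h : IsPolygon P v) (i : ZMod n) :
    v i ≠ v (i + 1) := by
  intro he
  have h1 := h.inj he
  have h2 : (1 : ZMod n) = 0 := by
    have := congrArg (fun x => x - i) h1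
    simpa using this.symm
  have h3 := h.three_le
  have : Fact (1 < n) := ⟨by omega⟩
  exact one_ne_zero h2

theorem mem_iff_inside {n : ℕ} [NeZero n] {P : Set ℂ} {v : ZMod n → ℂ} (h : IsPolygon P v) (x : ℂ)
    (hx : x ∉ curve v) : x ∈ P ↔ Inside v x :=
  (reg_of_polygon h).mem_iff_inside (side_ne_of_polygon h) x hx

theorem mem_interior_iff_inside {n : ℕ} [NeZero n] {P : Set ℂ} {v : ZMod n → ℂ} (h : IsPolygon P v) (x : ℂ) :
    x ∈ interior P ↔ Inside v x := by
  constructor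
  · intro hx
    have hc : x ∉ curve v := by
      intro hmem
      have h1 : x ∈ frontier P := by rw [h.frontier_eq]; exact hmem
      exact h1.2 hx
    exact (mem_iff_inside h x hc).1 (interior_subset hx)
  · intro hx
    have h1 := (mem_iff_inside h x hx.1).2 hx
    by_contra h2
    apply hx.1
    have h3 : x ∈ frontier P := by
      rw [h.compact.isClosed.frontier_eq]
      exact ⟨h1, h2⟩
    rw [h.frontier_eq] at h3
    exact h3

/-- Interior points stay interior, jointly in the polygon and the point. -/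
theorem inside_stable_joint {n : ℕ} (P₀ : Set ℂ) (v₀ : ZMod n → ℂ) (h₀ : IsPolygon P₀ v₀) (p : ℂ)
    (hp : p ∈ interior P₀) :
    ∀ᶠ x in 𝓝 ((v₀, p) : (ZMod n → ℂ) × ℂ), ∀ P, IsPolygon P x.1 → x.2 ∈ interior P := by
  haveI := neZero_of_polygon h₀
  have h1 := eventually_inside v₀ p ((mem_interior_iff_inside h₀ p).1 hp)
  filter_upwards [h1] with x hx P hP
  exact (mem_interior_iff_inside hP _).2 hx

/-- Exterior points stay exterior, jointly in the polygon and the point. -/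
theorem outside_stable_joint {n : ℕ} (P₀ : Set ℂ) (v₀ : ZMod n → ℂ) (h₀ : IsPolygon P₀ v₀) (p : ℂ)
    (hp : p ∉ P₀) :
    ∀ᶠ x in 𝓝 ((v₀, p) : (ZMod n → ℂ) × ℂ), ∀ P, IsPolygon P x.1 → x.2 ∉ P := by
  haveI := neZero_of_polygon h₀
  have hc : p ∉ curve v₀ := by
    intro hmem
    apply hp
    have h1 : p ∈ frontier P₀ := by rw [h₀.frontier_eq]; exact hmem
    exact h₀.compact.isClosed.frontier_subset h1
  have hn : ¬ Inside v₀ p := fun h => hp ((mem_iff_inside h₀ p hc).2 h)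
  have h1 := eventually_not_inside v₀ p hc hn
  filter_upwards [h1] with x hx P hP hmem
  exact hx.2 ((mem_iff_inside hP _ hx.1).1 hmem)

theorem inside_stable {n : ℕ} (P₀ : Set ℂ) (v₀ : ZMod n → ℂ) (h₀ : IsPolygon P₀ v₀) (p : ℂ)
    (hp : p ∈ interior P₀) :
    ∃ r > 0, ∀ᶠ v in 𝓝 v₀, ∀ P, IsPolygon P v → Metric.ball p r ⊆ interior P := by
  have h1 := inside_stable_joint P₀ v₀ h₀ p hp
  rw [nhds_prod_eq, eventually_prod_iff] at h1
  obtain ⟨pa, ha, pb, hb, hab⟩ := h1
  obtain ⟨r, hr, hball⟩ := Metric.eventually_nhds_iff_ball.1 hb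
  refine ⟨r, hr, ?_⟩
  filter_upwards [ha] with v hv P hP y hy
  exact hab hv (hball y hy) P hP

theorem outside_stable {n : ℕ} (P₀ : Set ℂ) (v₀ : ZMod n → ℂ) (h₀ : IsPolygon P₀ v₀) (p : ℂ)
    (hp : p ∉ P₀) :
    ∃ r > 0, ∀ᶠ v in 𝓝 v₀, ∀ P, IsPolygon P v → Disjoint (Metric.ball p r) P := by
  have h1 := outside_stable_joint P₀ v₀ h₀ p hp
  rw [nhds_prod_eq, eventually_prod_iff] at h1
  obtain ⟨pa, ha, pb, hb, hab⟩ := h1
  obtain ⟨r, hr, hball⟩ := Metric.eventually_nhds_iff_ball.1 hb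
  refine ⟨r, hr, ?_⟩
  filter_upwards [ha] with v hv P hP
  rw [Set.disjoint_left]
  intro y hy
  exact hab hv (hball y hy) P hP

/-- A polygon is contained in every closed ball which contains its vertices. -/
theorem polygon_subset_closedBall {n : ℕ} {P : Set ℂ} {v : ZMod n → ℂ} (h : IsPolygon P v) (R : ℝ)
    (hv : ∀ i, ‖v i‖ ≤ R) : P ⊆ Metric.closedBall 0 R := by
  have hfr : frontier P ⊆ Metric.closedBall 0 R := by
    rw [h.frontier_eq]
    intro x hx
    rw [Set.mem_iUnion] at hx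
    obtain ⟨i, hi⟩ := hx
    refine (convex_closedBall (0 : ℂ) R).segment_subset ?_ ?_ hi
    · rw [mem_closedBall_zero_iff]; exact hv i
    · rw [mem_closedBall_zero_iff]; exact hv (i + 1)
  -- a point of P of largest norm is in the frontier
  intro x hx
  obtain ⟨y, hyP, hy⟩ := h.compact.exists_isMaxOn ⟨x, hx⟩ continuous_norm.continuousOn
  have hyfr : y ∈ frontier P := by
    rw [h.compact.isClosed.frontier_eq]
    refine ⟨hyP, fun hyi => ?_⟩
    obtain ⟨r, hr, hball⟩ := Metric.mem_nhds_iff.1 (mem_interior_iff_mem_nhds.1 hyi)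
    -- move y outwards
    by_cases hy0 : y = 0
    · have h1 : ((r / 2 : ℝ) : ℂ) ∈ P := by
        apply hball
        rw [hy0, mem_ball_zero_iff, Complex.norm_real, Real.norm_eq_abs, abs_of_pos (by linarith)]
        linarith
      have h2 := hy h1
      have h3 : ‖((r / 2 : ℝ) : ℂ)‖ ≤ ‖y‖ := h2
      rw [hy0, norm_zero, Complex.norm_real, Real.norm_eq_abs, abs_of_pos (by linarith)] at h3
      linarith
    · have hyn : 0 < ‖y‖ := norm_pos_iff.2 hy0
      set s : ℝ := r / (2 * ‖y‖) with hs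
      have hs0 : 0 < s := by positivity
      have h1 : y + (s : ℂ) * y ∈ P := by
        apply hball
        rw [Metric.mem_ball, dist_eq_norm, add_sub_cancel_left, norm_mul, Complex.norm_real,
          Real.norm_eq_abs, abs_of_pos hs0, hs]
        have e : r / (2 * ‖y‖) * ‖y‖ = r / 2 := by field_simp
        rw [e]
        linarith
      have h3 : ‖y + (s : ℂ) * y‖ ≤ ‖y‖ := hy h1
      have e : y + (s : ℂ) * y = ((1 + s : ℝ) : ℂ) * y := by push_cast; ring
      rw [e, norm_mul, Complex.norm_real, Real.norm_eq_abs, abs_of_pos (by linarith)] at h3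
      nlinarith
  have h1 := hfr hyfr
  rw [mem_closedBall_zero_iff] at h1 ⊢
  exact (show ‖x‖ ≤ ‖y‖ from hy hx).trans h1

/-- All polygons near `P₀` lie in a neighbourhood of `P₀`. -/
theorem subset_stable {n : ℕ} (P₀ : Set ℂ) (v₀ : ZMod n → ℂ) (h₀ : IsPolygon P₀ v₀) (U : Set ℂ)
    (hU : IsOpen U) (hPU : P₀ ⊆ U) :
    ∀ᶠ v in 𝓝 v₀, ∀ P, IsPolygon P v → P ⊆ U := by
  haveI := neZero_of_polygon h₀
  obtain ⟨R, hR⟩ : ∃ R : ℝ, ∀ i, ‖v₀ i‖ < R := by
    obtain ⟨R, hR⟩ := (Set.finite_range fun i => ‖v₀ i‖).bddAbove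
    exact ⟨R + 1, fun i => lt_of_le_of_lt (hR ⟨i, rfl⟩) (by linarith)⟩
  have h1 : ∀ᶠ v in 𝓝 v₀, ∀ i, ‖v i‖ < R := by
    rw [eventually_all]
    intro i
    have hc : Continuous (fun v : ZMod n → ℂ => ‖v i‖) := by fun_prop
    exact hc.continuousAt.eventually_lt continuousAt_const (hR i)
  have hK : IsCompact (Metric.closedBall (0 : ℂ) R ∩ Uᶜ) :=
    (isCompact_closedBall 0 R).inter_right hU.isClosed_compl
  have h2 := hK.eventually_forall_of_forall_eventually (x₀ := v₀)
    (P := fun v y => ∀ P, IsPolygon P v → y ∉ P) (by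
      intro y hy
      exact outside_stable_joint P₀ v₀ h₀ y (fun h => hy.2 (hPU h)))
  filter_upwards [h1, h2] with v hv1 hv2 P hP y hy
  by_contra hyU
  have h3 := polygon_subset_closedBall hP R (fun i => (hv1 i).le) hy
  exact hv2 y ⟨h3, hyU⟩ P hP hy

/-! ### Segments -/

/-- A preconnected set which avoids the curve and meets the interior lies in the interior. -/
theorem conn_interior {n : ℕ} {P : Set ℂ} {v : ZMod n → ℂ} (h : IsPolygon P v) {s : Set ℂ}
    (hs : IsPreconnected s) (hd : ∀ x ∈ s, x ∉ curve v) {x : ℂ} (hx : x ∈ s) (hxP : x ∈ interior P) :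
    s ⊆ interior P := by
  intro y hy
  have h1 : y ∈ P := ((reg_of_polygon h).dichotomy hs hd hx hy).1 (interior_subset hxP)
  by_contra h2
  apply hd y hy
  have h3 : y ∈ frontier P := by
    rw [h.compact.isClosed.frontier_eq]
    exact ⟨h1, h2⟩
  rw [h.frontier_eq] at h3
  exact h3

/-- MID: a compact part of a segment in the interior stays in the interior. -/
theorem seg_mid {n : ℕ} (P₀ : Set ℂ) (v₀ : ZMod n → ℂ) (h₀ : IsPolygon P₀ v₀) (z w : ℂ)
    (h : openSegment ℝ z w ⊆ interior P₀) (a b : ℝ) (ha : 0 < a) (hb : b < 1) :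
    ∀ᶠ x in 𝓝 (((v₀, z), w) : ((ZMod n → ℂ) × ℂ) × ℂ), ∀ P, IsPolygon P x.1.1 →
      ∀ s ∈ Icc a b, x.1.2 + (s : ℂ) * (x.2 - x.1.2) ∈ interior P := by
  have hK : IsCompact (Icc a b) := isCompact_Icc
  have h2 := hK.eventually_forall_of_forall_eventually (x₀ := (((v₀, z), w) : ((ZMod n → ℂ) × ℂ) × ℂ))
    (P := fun x s => ∀ P, IsPolygon P x.1.1 → x.1.2 + (s : ℂ) * (x.2 - x.1.2) ∈ interior P) (by
      intro s hs
      have hmem : z + (s : ℂ) * (w - z) ∈ interior P₀ := by
        apply h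
        rw [openSegment_eq_image]
        refine ⟨s, ⟨by linarith [hs.1], by linarith [hs.2]⟩, ?_⟩
        simp only [Complex.real_smul]
        push_cast
        ring
      have h3 := inside_stable_joint P₀ v₀ h₀ _ hmem
      have hc : Continuous (fun y : (((ZMod n → ℂ) × ℂ) × ℂ) × ℝ =>
          ((y.1.1.1, y.1.1.2 + (y.2 : ℂ) * (y.1.2 - y.1.1.2)) : (ZMod n → ℂ) × ℂ)) := by fun_prop
      exact (hc.tendsto (((v₀, z), w), s)).eventually h3)
  filter_upwards [h2] with x hx P hP s hs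
  exact hx s hs P hP

/-- The sides which do not contain `w` stay away from `w`. -/
theorem near_sides {n : ℕ} [NeZero n] (v₀ : ZMod n → ℂ) (w : ℂ) (J : Set (ZMod n))
    (hw : ∀ j ∈ J, w ∉ segment ℝ (v₀ j) (v₀ (j + 1))) :
    ∃ r > 0, ∀ᶠ v in 𝓝 v₀, ∀ j ∈ J, ∀ y ∈ Metric.ball w r, y ∉ segment ℝ (v j) (v (j + 1)) := by
  have h1 : ∀ᶠ x in 𝓝 ((v₀, w) : (ZMod n → ℂ) × ℂ), ∀ j, j ∈ J → x.2 ∉ segment ℝ (x.1 j) (x.1 (j + 1)) := by
    rw [eventually_all]
    intro j
    by_cases hj : j ∈ J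
    · filter_upwards [winding_eventually_side v₀ w j (hw j hj)] with x hx _
      exact hx
    · exact Eventually.of_forall fun x hj' => absurd hj' hj
  rw [nhds_prod_eq, eventually_prod_iff] at h1
  obtain ⟨pa, ha, pb, hb, hab⟩ := h1
  obtain ⟨r, hr, hball⟩ := Metric.eventually_nhds_iff_ball.1 hb
  refine ⟨r, hr, ?_⟩
  filter_upwards [ha] with v hv j hj y hy
  exact hab hv (hball y hy) j hj

/-- The vertices different from `w` stay away from `w`. -/
theorem near_vertices {n : ℕ} [NeZero n] (v₀ : ZMod n → ℂ) (w : ℂ) (J : Set (ZMod n))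
    (hw : ∀ j ∈ J, v₀ j ≠ w) :
    ∃ r > 0, ∀ᶠ v in 𝓝 v₀, ∀ j ∈ J, v j ∉ Metric.ball w r := by
  obtain ⟨r, hr, hr'⟩ : ∃ r > 0, ∀ j, j ∈ J → 2 * r < dist (v₀ j) w := by
    have h1 : ∀ᶠ r : ℝ in 𝓝[>] 0, ∀ j, j ∈ J → 2 * r < dist (v₀ j) w := by
      rw [eventually_all]
      intro j
      by_cases hj : j ∈ J
      · have h2 : 0 < dist (v₀ j) w := dist_pos.2 (hw j hj)
        have h3 : ∀ᶠ r : ℝ in 𝓝 0, r < dist (v₀ j) w / 2 := eventually_lt_nhds (by linarith)
        filter_upwards [h3.filter_mono nhdsWithin_le_nhds] with r hr _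
        linarith
      · exact Eventually.of_forall fun x hj' => absurd hj' hj
    obtain ⟨r, h2, h3⟩ := (h1.and self_mem_nhdsWithin).exists
    exact ⟨r, h3, h2⟩
  refine ⟨r, hr, ?_⟩
  have h2 : ∀ᶠ v in 𝓝 v₀, ∀ j, dist (v j) (v₀ j) < r := by
    rw [eventually_all]
    intro j
    have hc : Continuous (fun v : ZMod n → ℂ => dist (v j) (v₀ j)) := by fun_prop
    refine hc.continuousAt.eventually_lt continuousAt_const ?_
    simpa using hr
  filter_upwards [h2] with v hv j hj hmem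
  rw [Metric.mem_ball] at hmem
  have h3 := hr' j hj
  have h4 := dist_triangle (v₀ j) (v j) w
  rw [dist_comm (v₀ j) (v j)] at h4
  linarith [hv j]

end Pool.Agent.H52W
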