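import Mathlib
import Pool.Agent.Lib.H52W.Stab

/-!
# MP_273810_co : the first and the last piece of a light segment (library H52W, helper52)
-/

namespace Pool.Agent.H52W

open Complex Topology Filter Set
open Pool.Agent.Lib.H42I (IsPolygon)

/-- Good arrival at `w` with direction `d`: `w` is not on the boundary, or in the relative interior of a side, or a
vertex and `d` points to the same side of the lines of both sides at this vertex. -/
def GoodArr {n : ℕ} (v : ZMod n → ℂ) (w d : ℂ) : Prop :=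
  (∀ i, w ∉ segment ℝ (v i) (v (i + 1))) ∨ (∃ i, w ∈ openSegment ℝ (v i) (v (i + 1))) ∨
  ∃ i, w = v i ∧ 0 < cdet (v i - v (i - 1)) d * cdet (v (i + 1) - v i) d

theorem cdet_line (b c x y : ℂ) (s : ℝ) :
    cdet b (x + (s : ℂ) * (y - x) - c) = (1 - s) * cdet b (x - c) + s * cdet b (y - c) := by
  simp only [cdet, Complex.sub_re, Complex.sub_im, Complex.add_re, Complex.add_im, Complex.mul_re,
    Complex.mul_im, Complex.ofReal_re, Complex.ofReal_im]
  ring

theorem cdet_swap (a b : ℂ) : cdet a b = - cdet b a := by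
  simp only [cdet]; ring

theorem mem_segment_param {x y z : ℂ} (h : z ∈ segment ℝ x y) :
    ∃ s : ℝ, 0 ≤ s ∧ s ≤ 1 ∧ z = x + (s : ℂ) * (y - x) := by
  rw [segment_eq_image] at h
  obtain ⟨s, ⟨hs0, hs1⟩, rfl⟩ := h
  refine ⟨s, hs0, hs1, ?_⟩
  show (1 - s) • x + s • y = _
  simp only [Complex.real_smul]
  push_cast
  ring

theorem param_mem_segment (x y : ℂ) (s : ℝ) (h0 : 0 ≤ s) (h1 : s ≤ 1) :
    x + (s : ℂ) * (y - x) ∈ segment ℝ x y := by
  rw [segment_eq_image]
  refine ⟨s, ⟨h0, h1⟩, ?_⟩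
  simp only [Complex.real_smul]
  push_cast
  ring

theorem param_mem_openSegment (x y : ℂ) (s : ℝ) (h0 : 0 < s) (h1 : s < 1) :
    x + (s : ℂ) * (y - x) ∈ openSegment ℝ x y := by
  rw [openSegment_eq_image]
  refine ⟨s, ⟨h0, h1⟩, ?_⟩
  simp only [Complex.real_smul]
  push_cast
  ring

/-- Points of side `i`: the determinant with the direction of the side is zero. -/
theorem cdet_side_zero {n : ℕ} (v : ZMod n → ℂ) (i : ZMod n) (y : ℂ)
    (hy : y ∈ segment ℝ (v i) (v (i + 1))) : cdet (v (i + 1) - v i) (y - v i) = 0 := by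
  obtain ⟨s, _, _, rfl⟩ := mem_segment_param hy
  simp only [cdet, Complex.sub_re, Complex.sub_im, Complex.add_re, Complex.add_im, Complex.mul_re,
    Complex.mul_im, Complex.ofReal_re, Complex.ofReal_im]
  ring

/-- If the segment from `x ∈ interior P` to `w` has a unique point on the curve, in the relative interior of the side
`i`, different from `w`, and transversal, then `w ∉ P`. -/
theorem not_mem_of_cross {n : ℕ} [NeZero n] {P : Set ℂ} {v : ZMod n → ℂ} (h : IsPolygon P v) (i : ZMod n)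
    (x w y : ℂ) (hx : x ∈ interior P) (s : ℝ) (hs1 : s < 1) (hs0 : 0 ≤ s)
    (hy : y = x + (s : ℂ) * (w - x)) (hyi : y ∈ segment ℝ (v i) (v (i + 1)))
    (hother : ∀ j, j ≠ i → y ∉ segment ℝ (v j) (v (j + 1))) (hyl : y ≠ v i) (hyr : y ≠ v (i + 1))
    (huniq : ∀ z ∈ segment ℝ x w, z ∈ curve v → z = y)
    (hdet : cdet (v (i + 1) - v i) (x - v i) ≠ 0) : w ∉ P := by
  have hxI := (mem_interior_iff_inside h x).1 hx
  have hs0' : 0 < s := by
    rcases hs0.lt_or_eq with h1 | h1
    · exact h1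
    · exfalso
      rw [← h1] at hy
      simp only [Complex.ofReal_zero, zero_mul, add_zero] at hy
      apply hxI.1
      rw [curve, Set.mem_iUnion]
      exact ⟨i, hy ▸ hyi⟩
  have hyw : y ≠ w := by
    intro he
    have h1 : ((1 - s : ℝ) : ℂ) * (w - x) = 0 := by
      rw [he] at hy
      push_cast
      linear_combination hy
    have h2 : ((1 - s : ℝ) : ℂ) ≠ 0 := by
      norm_cast
      intro h3
      linarith
    have h3 : w - x = 0 := by
      rcases mul_eq_zero.1 h1 with h4 | h4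
      · exact absurd h4 h2
      · exact h4
    apply hxI.1
    rw [curve, Set.mem_iUnion]
    refine ⟨i, ?_⟩
    have h5 : x = y := by rw [hy, h3]; ring
    rw [h5]
    exact hyi
  have hwc : w ∉ curve v := fun hw => hyw (huniq w (right_mem_segment ℝ x w) hw).symm
  have hcd : cdet (w - x) (v (i + 1) - v i) ≠ 0 := by
    intro h0
    have h1 := cdet_side_zero v i y hyi
    rw [hy, cdet_line] at h1
    have h2 : cdet (v (i + 1) - v i) (w - v i) = cdet (v (i + 1) - v i) (x - v i) := by
      have e : cdet (v (i + 1) - v i) (w - v i) = cdet (v (i + 1) - v i) (x - v i)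
          - cdet (w - x) (v (i + 1) - v i) := by
        simp only [cdet, Complex.sub_re, Complex.sub_im]; ring
      rw [e, h0, sub_zero]
    rw [h2] at h1
    apply hdet
    linarith
  have hflip := inside_flip v i x w y (mem_openSegment_of_ne_left_right (Ne.symm hyl) (Ne.symm hyr) hyi)
    hother (hy ▸ param_mem_openSegment x w s hs0' hs1) huniq hcd
  intro hwP
  exact hflip.1 hxI ((mem_iff_inside h w hwc).1 hwP)

/-- If the segment from `x ∈ interior P` to `w` does not meet the curve before `w`, it is in the interior. -/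
theorem leg_of_avoid {n : ℕ} {P : Set ℂ} {v : ZMod n → ℂ} (h : IsPolygon P v) (x w : ℂ)
    (hx : x ∈ interior P) (hav : ∀ s : ℝ, 0 ≤ s → s < 1 → x + (s : ℂ) * (w - x) ∉ curve v) :
    ∀ s ∈ Ico (0 : ℝ) 1, x + (s : ℂ) * (w - x) ∈ interior P := by
  intro s hs
  have hpc : IsPreconnected ((fun r : ℝ => x + (r : ℂ) * (w - x)) '' Ico 0 1) := by
    apply isPreconnected_Ico.image
    fun_prop
  refine conn_interior h hpc ?_ ⟨0, ⟨le_refl _, by norm_num⟩, by simp⟩ hx ⟨s, hs, rfl⟩
  rintro _ ⟨r, ⟨hr0, hr1⟩, rfl⟩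
  exact hav r hr0 hr1

/-- An affine function with a zero at two different parameters vanishes at `0`. -/
theorem affine_two_zeros (f g s t : ℝ) (h1 : (1 - s) * f + s * g = 0) (h2 : (1 - t) * f + t * g = 0)
    (hst : s ≠ t) : f = 0 := by
  have h3 : (s - t) * (g - f) = 0 := by linear_combination h1 - h2
  have h4 : g - f = 0 := by
    rcases mul_eq_zero.1 h3 with h5 | h5
    · exact absurd (sub_eq_zero.1 h5) hst
    · exact h5
  linear_combination h1 - s * h4

/-- LAST LEG, one side near `w`. -/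
theorem last_leg_side {n : ℕ} [NeZero n] {P : Set ℂ} {v : ZMod n → ℂ} (h : IsPolygon P v) (i : ZMod n)
    (N : Set ℂ) (hN : Convex ℝ N) (hoth : ∀ j, j ≠ i → ∀ y ∈ N, y ∉ segment ℝ (v j) (v (j + 1)))
    (hvert : ∀ k, v k ∉ N) (x w : ℂ) (hxN : x ∈ N) (hwN : w ∈ N) (hx : x ∈ interior P) (hw : w ∈ P)
    (hdet : cdet (v (i + 1) - v i) (x - v i) ≠ 0) :
    ∀ s ∈ Ico (0 : ℝ) 1, x + (s : ℂ) * (w - x) ∈ interior P := by
  apply leg_of_avoid h x w hx
  intro s hs0 hs1 hmem
  have hseg : segment ℝ x w ⊆ N := hN.segment_subset hxN hwN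
  have hside : ∀ z ∈ N, z ∈ curve v → z ∈ segment ℝ (v i) (v (i + 1)) := by
    intro z hz hzc
    rw [curve, Set.mem_iUnion] at hzc
    obtain ⟨j, hj⟩ := hzc
    by_cases hji : j = i
    · rwa [hji] at hj
    · exact absurd hj (hoth j hji z hz)
  set y := x + (s : ℂ) * (w - x) with hy
  have hyN : y ∈ N := hseg (param_mem_segment x w s hs0 hs1.le)
  have hyi := hside y hyN hmem
  refine not_mem_of_cross h i x w y hx s hs1 hs0 hy hyi (fun j hj => hoth j hj y hyN) ?_ ?_ ?_ hdet hw
  · intro he; exact hvert i (he ▸ hyN)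
  · intro he; exact hvert (i + 1) (he ▸ hyN)
  · intro z hz hzc
    obtain ⟨t, ht0, ht1, rfl⟩ := mem_segment_param hz
    have h1 := cdet_side_zero v i y hyi
    have h2 := cdet_side_zero v i _ (hside _ (hseg hz) hzc)
    rw [hy, cdet_line] at h1
    rw [cdet_line] at h2
    by_contra hne
    have hst : t ≠ s := by
      rintro rfl
      exact hne rfl
    exact hdet (affine_two_zeros _ _ _ _ h2 h1 hst)

/-- The uniqueness of the crossing near a vertex. -/
theorem unique_near_vertex {n : ℕ} (v : ZMod n → ℂ) (i : ZMod n) (x w : ℂ)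
    (hsame : 0 < cdet (v i - v (i - 1)) (x - v i) * cdet (v (i + 1) - v i) (x - v i))
    (s t : ℝ) (hs0 : 0 ≤ s) (ht0 : 0 ≤ t)
    (hs : x + (s : ℂ) * (w - x) ∈ segment ℝ (v (i - 1)) (v i) ∨
      x + (s : ℂ) * (w - x) ∈ segment ℝ (v i) (v (i + 1)))
    (ht : x + (t : ℂ) * (w - x) ∈ segment ℝ (v (i - 1)) (v i) ∨
      x + (t : ℂ) * (w - x) ∈ segment ℝ (v i) (v (i + 1))) : s = t := by
  set a := v i - v (i - 1) with ha
  set b := v (i + 1) - v i with hb
  set f1 := cdet a (x - v i) with hf1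
  set f2 := cdet b (x - v i) with hf2
  set g1 := cdet a (w - v i) with hg1
  set g2 := cdet b (w - v i) with hg2
  have hf1ne : f1 ≠ 0 := by rintro h0; rw [h0, zero_mul] at hsame; exact lt_irrefl _ hsame
  have hf2ne : f2 ≠ 0 := by rintro h0; rw [h0, mul_zero] at hsame; exact lt_irrefl _ hsame
  -- description of the two sides
  have hA : ∀ r : ℝ, x + (r : ℂ) * (w - x) ∈ segment ℝ (v (i - 1)) (v i) →
      (1 - r) * f1 + r * g1 = 0 ∧ ∃ u : ℝ, 0 ≤ u ∧ (1 - r) * f2 + r * g2 = u * cdet a b := by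
    intro r hr
    obtain ⟨u, hu0, hu1, hu⟩ := mem_segment_param hr
    refine ⟨?_, 1 - u, by linarith, ?_⟩
    · rw [hf1, hg1, ← cdet_line, hu, ha]
      simp only [cdet, Complex.sub_re, Complex.sub_im, Complex.add_re, Complex.add_im, Complex.mul_re,
        Complex.mul_im, Complex.ofReal_re, Complex.ofReal_im]
      ring
    · rw [hf2, hg2, ← cdet_line, hu, ha]
      simp only [cdet, Complex.sub_re, Complex.sub_im, Complex.add_re, Complex.add_im, Complex.mul_re,
        Complex.mul_im, Complex.ofReal_re, Complex.ofReal_im]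
      ring
  have hB : ∀ r : ℝ, x + (r : ℂ) * (w - x) ∈ segment ℝ (v i) (v (i + 1)) →
      (1 - r) * f2 + r * g2 = 0 ∧ ∃ u : ℝ, 0 ≤ u ∧ (1 - r) * f1 + r * g1 = u * cdet a b := by
    intro r hr
    obtain ⟨u, hu0, hu1, hu⟩ := mem_segment_param hr
    refine ⟨?_, u, by linarith, ?_⟩
    · rw [hf2, hg2, ← cdet_line, hu, hb]
      simp only [cdet, Complex.sub_re, Complex.sub_im, Complex.add_re, Complex.add_im, Complex.mul_re,
        Complex.mul_im, Complex.ofReal_re, Complex.ofReal_im]
      ring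
    · rw [hf1, hg1, ← cdet_line, hu, hb]
      simp only [cdet, Complex.sub_re, Complex.sub_im, Complex.add_re, Complex.add_im, Complex.mul_re,
        Complex.mul_im, Complex.ofReal_re, Complex.ofReal_im]
      ring
  -- mixed case, abstractly
  have hmix : ∀ p q : ℝ, 0 ≤ p → 0 ≤ q →
      ((1 - p) * f1 + p * g1 = 0 ∧ ∃ u : ℝ, 0 ≤ u ∧ (1 - p) * f2 + p * g2 = u * cdet a b) →
      ((1 - q) * f2 + q * g2 = 0 ∧ ∃ u : ℝ, 0 ≤ u ∧ (1 - q) * f1 + q * g1 = u * cdet a b) → p = q := by
    rintro p q hp hq ⟨h1, u, hu0, h2⟩ ⟨h3, u', hu0', h4⟩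
    by_contra hpq
    -- the values: q * F1(q) = (q - p)... work with products
    have hp0 : 0 < p := by
      rcases hp.lt_or_eq with h5 | h5
      · exact h5
      · exfalso
        rw [← h5] at h1
        apply hf1ne
        linarith
    have hq0 : 0 < q := by
      rcases hq.lt_or_eq with h5 | h5
      · exact h5
      · exfalso
        rw [← h5] at h3
        apply hf2ne
        linarith
    -- p * F1(q) = (p - q) f1 ; q * F2(p) = (q - p) f2
    have e1 : p * ((1 - q) * f1 + q * g1) = (p - q) * f1 := by linear_combination q * h1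
    have e2 : q * ((1 - p) * f2 + p * g2) = (q - p) * f2 := by linear_combination p * h3
    rw [h4] at e1
    rw [h2] at e2
    -- multiply: p q u u' D^2 = - (p - q)^2 f1 f2 < 0
    have h6 : 0 < (p - q) ^ 2 := (sq_pos_iff.2 (sub_ne_zero.2 hpq))
    have h7 : (p * (u' * cdet a b)) * (q * (u * cdet a b)) = - ((p - q) ^ 2 * (f1 * f2)) := by
      rw [e1, e2]; ring
    have h8 : 0 ≤ (p * (u' * cdet a b)) * (q * (u * cdet a b)) := by
      have : (p * (u' * cdet a b)) * (q * (u * cdet a b)) = p * q * u * u' * (cdet a b) ^ 2 := by ring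
      rw [this]
      positivity
    have h9 : 0 < (p - q) ^ 2 * (f1 * f2) := mul_pos h6 hsame
    linarith
  rcases hs with hs | hs <;> rcases ht with ht | ht
  · by_contra hne
    exact hf1ne (affine_two_zeros _ _ _ _ (hA s hs).1 (hA t ht).1 hne)
  · exact hmix s t hs0 ht0 (hA s hs) (hB t ht)
  · exact (hmix t s ht0 hs0 (hA t ht) (hB s hs)).symm
  · by_contra hne
    exact hf2ne (affine_two_zeros _ _ _ _ (hB s hs).1 (hB t ht).1 hne)

end Pool.Agent.H52W
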