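import Mathlib
import Pool.Agent.Lib.H52W.Segs

/-!
# MP_273810_co : the first and the last piece of a light segment, stability (library H52W, helper52)
-/

namespace Pool.Agent.H52W

open Complex Topology Filter Set
open Pool.Agent.Lib.H42I (IsPolygon)

/-- LAST LEG, at a vertex: no difference between convex, straight and reflex vertices. -/
theorem last_leg_vertex {n : ℕ} [NeZero n] {P : Set ℂ} {v : ZMod n → ℂ} (h : IsPolygon P v) (i : ZMod n)
    (N : Set ℂ) (hN : Convex ℝ N) (hNo : IsOpen N)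
    (hoth : ∀ j, j ≠ i → j ≠ i - 1 → ∀ y ∈ N, y ∉ segment ℝ (v j) (v (j + 1)))
    (hvert : ∀ k, k ≠ i → v k ∉ N) (x w : ℂ) (hxN : x ∈ N) (hwN : w ∈ N) (hx : x ∈ interior P) (hw : w ∈ P)
    (hsame : 0 < cdet (v i - v (i - 1)) (x - v i) * cdet (v (i + 1) - v i) (x - v i)) :
    ∀ s ∈ Ico (0 : ℝ) 1, x + (s : ℂ) * (w - x) ∈ interior P := by
  have hxI := (mem_interior_iff_inside h x).1 hx
  have hi1 : i - 1 + 1 = i := sub_add_cancel i 1
  have hside : ∀ z ∈ N, z ∈ curve v →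
      z ∈ segment ℝ (v (i - 1)) (v i) ∨ z ∈ segment ℝ (v i) (v (i + 1)) := by
    intro z hz hzc
    rw [curve, Set.mem_iUnion] at hzc
    obtain ⟨j, hj⟩ := hzc
    by_cases hji : j = i
    · right; rwa [hji] at hj
    · by_cases hji' : j = i - 1
      · left; rw [hji', hi1] at hj; exact hj
      · exact absurd hj (hoth j hji hji' z hz)
  -- crossing at a point different from the vertex is impossible
  have hcross : ∀ w' : ℂ, w' ∈ N → w' ∈ P → ∀ s : ℝ, 0 ≤ s → s < 1 → x + (s : ℂ) * (w' - x) ∈ curve v →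
      x + (s : ℂ) * (w' - x) = v i := by
    intro w' hw'N hw'P s hs0 hs1 hmem
    by_contra hyv
    have hseg : segment ℝ x w' ⊆ N := hN.segment_subset hxN hw'N
    have hyN : x + (s : ℂ) * (w' - x) ∈ N := hseg (param_mem_segment x w' s hs0 hs1.le)
    have huniq : ∀ z ∈ segment ℝ x w', z ∈ curve v → z = x + (s : ℂ) * (w' - x) := by
      intro z hz hzc
      obtain ⟨t, ht0, ht1, rfl⟩ := mem_segment_param hz
      have := unique_near_vertex v i x w' hsame s t hs0 ht0 (hside _ hyN hmem) (hside _ (hseg hz) hzc)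
      rw [this]
    have hnv : ∀ k, x + (s : ℂ) * (w' - x) ≠ v k := by
      intro k hk
      by_cases hki : k = i
      · rw [hki] at hk; exact hyv hk
      · exact hvert k hki (hk ▸ hyN)
    have hone : ∀ k, x + (s : ℂ) * (w' - x) ∈ segment ℝ (v k) (v (k + 1)) → ∀ j, j ≠ k →
        x + (s : ℂ) * (w' - x) ∉ segment ℝ (v j) (v (j + 1)) := by
      intro k hk j hjk hj
      have h1 := h.simple k j (Ne.symm hjk) ⟨hk, hj⟩
      rcases h1.1 with h2 | h2
      · exact hnv k h2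
      · exact hnv (k + 1) h2
    have hf1 : cdet (v i - v (i - 1)) (x - v i) ≠ 0 := by
      intro h0; rw [h0, zero_mul] at hsame; exact lt_irrefl _ hsame
    have hf2 : cdet (v (i + 1) - v i) (x - v i) ≠ 0 := by
      intro h0; rw [h0, mul_zero] at hsame; exact lt_irrefl _ hsame
    rcases hside _ hyN hmem with h1 | h1
    · have h1' : x + (s : ℂ) * (w' - x) ∈ segment ℝ (v (i - 1)) (v (i - 1 + 1)) := by rw [hi1]; exact h1
      refine not_mem_of_cross h (i - 1) x w' _ hx s hs1 hs0 rfl h1' (hone _ h1') (hnv _) (hnv _) huniq ?_ hw'P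
      rw [hi1]
      have e : cdet (v i - v (i - 1)) (x - v (i - 1)) = cdet (v i - v (i - 1)) (x - v i) := by
        simp only [cdet, Complex.sub_re, Complex.sub_im]; ring
      rw [e]
      exact hf1
    · exact not_mem_of_cross h i x w' _ hx s hs1 hs0 rfl h1 (hone _ h1) (hnv _) (hnv _) huniq hf2 hw'P
  apply leg_of_avoid h x w hx
  intro s hs0 hs1 hmem
  have hyv := hcross w hwN hw s hs0 hs1 hmem
  have hseg : segment ℝ x w ⊆ N := hN.segment_subset hxN hwN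
  have hyN : x + (s : ℂ) * (w - x) ∈ N := hseg (param_mem_segment x w s hs0 hs1.le)
  have hs0' : 0 < s := by
    rcases hs0.lt_or_eq with h1 | h1
    · exact h1
    · exfalso
      rw [← h1] at hmem
      simp only [Complex.ofReal_zero, zero_mul, add_zero] at hmem
      exact hxI.1 hmem
  -- w is in the interior
  have hwc : w ∉ curve v := by
    intro hwc
    have e1 : w = x + ((1 : ℝ) : ℂ) * (w - x) := by push_cast; ring
    have h1 := hside w hwN hwc
    rw [e1] at h1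
    have h2 : x + ((1 : ℝ) : ℂ) * (w - x) = w := e1.symm
    rw [h2] at h1
    have h3 := unique_near_vertex v i x w hsame s 1 hs0 zero_le_one (hside _ hyN hmem) (by rw [h2]; exact h1)
    linarith
  have hwi : w ∈ interior P := (mem_interior_iff_inside h w).2 ((mem_iff_inside h w hwc).1 hw)
  -- perturbation in the direction of the side i
  set b := v (i + 1) - v i with hb
  have hb0 : b ≠ 0 := sub_ne_zero.2 (Ne.symm (side_ne_of_polygon h i))
  have hc : Tendsto (fun ε : ℝ => w + (ε : ℂ) * b) (𝓝[>] 0) (𝓝 w) := by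
    have hcc : Continuous (fun ε : ℝ => w + (ε : ℂ) * b) := by fun_prop
    have := hcc.tendsto 0
    simp only [Complex.ofReal_zero, zero_mul, add_zero] at this
    exact this.mono_left nhdsWithin_le_nhds
  have e1 := hc.eventually (hNo.mem_nhds hwN)
  have e2 := hc.eventually (isOpen_interior.mem_nhds hwi)
  have e3 : ∀ᶠ ε : ℝ in 𝓝[>] 0, 0 < ε := self_mem_nhdsWithin
  have e4 : ∀ᶠ ε : ℝ in 𝓝[>] 0, ε < 1 := by
    have : ∀ᶠ ε : ℝ in 𝓝 0, ε < 1 := eventually_lt_nhds one_pos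
    exact this.filter_mono nhdsWithin_le_nhds
  obtain ⟨ε, ⟨⟨h1, h2⟩, h3⟩, h4⟩ := (((e1.and e2).and e3).and e4).exists
  have hy' : x + (s : ℂ) * (w + (ε : ℂ) * b - x) = v i + ((s * ε : ℝ) : ℂ) * (v (i + 1) - v i) := by
    push_cast
    rw [← hb]
    linear_combination hyv
  have hmem' : x + (s : ℂ) * (w + (ε : ℂ) * b - x) ∈ curve v := by
    rw [hy', curve, Set.mem_iUnion]
    refine ⟨i, param_mem_segment _ _ _ (by positivity) ?_⟩
    nlinarith
  have h5 := hcross (w + (ε : ℂ) * b) h1 (interior_subset h2) s hs0 hs1 hmem'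
  rw [hy'] at h5
  have h6 : ((s * ε : ℝ) : ℂ) * b = 0 := by
    rw [hb]
    linear_combination h5
  rcases mul_eq_zero.1 h6 with h7 | h7
  · have h8 : s * ε = 0 := by exact_mod_cast h7
    have h9 : 0 < s * ε := mul_pos hs0' h3
    linarith
  · exact hb0 h7

/-! ### Elementary facts -/

theorem parallel_of_cdet {b d : ℂ} (hb : b ≠ 0) (h : cdet b d = 0) : ∃ c : ℝ, d = (c : ℂ) * b := by
  refine ⟨(b.re * d.re + b.im * d.im) / Complex.normSq b, ?_⟩
  have hn : Complex.normSq b ≠ 0 := (Complex.normSq_pos.2 hb).ne'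
  have hn' : b.re * b.re + b.im * b.im ≠ 0 := by rwa [Complex.normSq_apply] at hn
  have h' : b.re * d.im - b.im * d.re = 0 := h
  apply Complex.ext
  · rw [Complex.re_ofReal_mul, Complex.normSq_apply, div_mul_eq_mul_div, eq_div_iff hn']
    linear_combination -b.im * h'
  · rw [Complex.im_ofReal_mul, Complex.normSq_apply, div_mul_eq_mul_div, eq_div_iff hn']
    linear_combination b.re * h'

/-- If `w` is in the relative interior of the side `i` and `(z, w)` or `(w, z)` flies in the interior, the flight is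
transversal to the side. -/
theorem transversal_of_fly {n : ℕ} {P : Set ℂ} {v : ZMod n → ℂ} (h : IsPolygon P v) (i : ZMod n) (z w : ℂ)
    (hw : w ∈ openSegment ℝ (v i) (v (i + 1))) (hfly : openSegment ℝ z w ⊆ interior P) :
    cdet (v (i + 1) - v i) (z - w) ≠ 0 := by
  intro h0
  have hne := side_ne_of_polygon h i
  have hb0 : v (i + 1) - v i ≠ 0 := sub_ne_zero.2 (Ne.symm hne)
  obtain ⟨c, hc⟩ := parallel_of_cdet hb0 h0
  rw [openSegment_eq_image] at hw
  obtain ⟨t, ⟨ht0, ht1⟩, htw⟩ := hw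
  have htw' : w = v i + (t : ℂ) * (v (i + 1) - v i) := by
    rw [← htw]
    show (1 - t) • v i + t • v (i + 1) = _
    simp only [Complex.real_smul]
    push_cast
    ring
  -- the point w + s (z - w) for small s > 0
  have hev : ∀ᶠ s : ℝ in 𝓝[>] 0, 0 ≤ t + s * c ∧ t + s * c ≤ 1 ∧ s < 1 := by
    have hcc : Continuous (fun s : ℝ => t + s * c) := by fun_prop
    have h1 := hcc.tendsto 0
    simp only [zero_mul, add_zero] at h1
    have h2 : ∀ᶠ s : ℝ in 𝓝 0, 0 < t + s * c := h1.eventually (lt_mem_nhds ht0)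
    have h3 : ∀ᶠ s : ℝ in 𝓝 0, t + s * c < 1 := h1.eventually (gt_mem_nhds ht1)
    have h4 : ∀ᶠ s : ℝ in 𝓝 0, s < 1 := eventually_lt_nhds one_pos
    filter_upwards [h2.filter_mono nhdsWithin_le_nhds, h3.filter_mono nhdsWithin_le_nhds,
      h4.filter_mono nhdsWithin_le_nhds] with s a1 a2 a3
    exact ⟨a1.le, a2.le, a3⟩
  have hpos : ∀ᶠ s : ℝ in 𝓝[>] 0, 0 < s := self_mem_nhdsWithin
  obtain ⟨s, ⟨h1, h2, h3⟩, h4⟩ := (hev.and hpos).exists
  have hin : w + (s : ℂ) * (z - w) ∈ interior P := by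
    apply hfly
    rw [openSegment_symm]
    exact param_mem_openSegment w z s h4 h3
  have hon : w + (s : ℂ) * (z - w) ∈ frontier P := by
    rw [h.frontier_eq, Set.mem_iUnion]
    refine ⟨i, ?_⟩
    have e : w + (s : ℂ) * (z - w) = v i + ((t + s * c : ℝ) : ℂ) * (v (i + 1) - v i) := by
      rw [hc, htw']
      push_cast
      ring
    rw [e]
    exact param_mem_segment _ _ _ h1 h2
  exact hon.2 hin

theorem not_mem_other_side {n : ℕ} {P : Set ℂ} {v : ZMod n → ℂ} (h : IsPolygon P v) (i j : ZMod n) (hj : j ≠ i)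
    (w : ℂ) (hw : w ∈ openSegment ℝ (v i) (v (i + 1))) : w ∉ segment ℝ (v j) (v (j + 1)) := by
  intro hmem
  have hne := side_ne_of_polygon h i
  have h1 := h.simple i j (Ne.symm hj) ⟨openSegment_subset_segment _ _ _ hw, hmem⟩
  rcases h1.1 with h2 | h2
  · rw [h2, left_mem_openSegment_iff] at hw
    exact hne hw
  · have h3 : w = v (i + 1) := h2
    rw [h3, right_mem_openSegment_iff] at hw
    exact hne hw

theorem not_vertex_of_open {n : ℕ} {P : Set ℂ} {v : ZMod n → ℂ} (h : IsPolygon P v) (i : ZMod n)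
    (w : ℂ) (hw : w ∈ openSegment ℝ (v i) (v (i + 1))) (k : ZMod n) : v k ≠ w := by
  intro hk
  have hne := side_ne_of_polygon h i
  by_cases hki : k = i
  · rw [← hk, hki, left_mem_openSegment_iff] at hw
    exact hne hw
  · exact not_mem_other_side h i k hki w hw (hk ▸ left_mem_segment ℝ _ _)

/-- Near the end of the segment. -/
theorem near_end {n : ℕ} [NeZero n] (v₀ : ZMod n → ℂ) (z w : ℂ) (r : ℝ) (hr : 0 < r) :
    ∃ b : ℝ, 0 < b ∧ b < 1 ∧ ∀ᶠ x in 𝓝 (((v₀, z), w) : ((ZMod n → ℂ) × ℂ) × ℂ), ∀ s ∈ Icc b 1,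
      x.1.2 + (s : ℂ) * (x.2 - x.1.2) ∈ Metric.ball w r := by
  have hK : ∀ᶠ y in 𝓝 (((((v₀, z), w) : ((ZMod n → ℂ) × ℂ) × ℂ), (1 : ℝ)) : (((ZMod n → ℂ) × ℂ) × ℂ) × ℝ),
      y.1.1.2 + (y.2 : ℂ) * (y.1.2 - y.1.1.2) ∈ Metric.ball w r := by
    have hc : Continuous (fun y : (((ZMod n → ℂ) × ℂ) × ℂ) × ℝ =>
        y.1.1.2 + (y.2 : ℂ) * (y.1.2 - y.1.1.2)) := by fun_prop
    refine hc.continuousAt.eventually_mem (Metric.isOpen_ball.mem_nhds ?_)
    simpa using hr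
  rw [nhds_prod_eq, eventually_prod_iff] at hK
  obtain ⟨pa, ha, pb, hb, hab⟩ := hK
  obtain ⟨δ, hδ, hball⟩ := Metric.eventually_nhds_iff_ball.1 hb
  refine ⟨1 - min (δ / 2) (1 / 2), ?_, ?_, ?_⟩
  · have := min_le_right (δ / 2) (1 / 2 : ℝ); linarith
  · have : 0 < min (δ / 2) (1 / 2 : ℝ) := lt_min (by linarith) (by norm_num)
    linarith
  · filter_upwards [ha] with x hx s hs
    refine hab hx (hball s ?_)
    rw [Metric.mem_ball, Real.dist_eq, abs_lt]
    have h1 := min_le_left (δ / 2) (1 / 2 : ℝ)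
    constructor <;> linarith [hs.1, hs.2]

/-- Near the start of the segment. -/
theorem near_start {n : ℕ} [NeZero n] (v₀ : ZMod n → ℂ) (z w : ℂ) (r : ℝ) (hr : 0 < r) :
    ∃ a : ℝ, 0 < a ∧ a < 1 ∧ ∀ᶠ x in 𝓝 (((v₀, z), w) : ((ZMod n → ℂ) × ℂ) × ℂ), ∀ s ∈ Icc 0 a,
      x.1.2 + (s : ℂ) * (x.2 - x.1.2) ∈ Metric.ball z r := by
  have hK : ∀ᶠ y in 𝓝 (((((v₀, z), w) : ((ZMod n → ℂ) × ℂ) × ℂ), (0 : ℝ)) : (((ZMod n → ℂ) × ℂ) × ℂ) × ℝ),
      y.1.1.2 + (y.2 : ℂ) * (y.1.2 - y.1.1.2) ∈ Metric.ball z r := by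
    have hc : Continuous (fun y : (((ZMod n → ℂ) × ℂ) × ℂ) × ℝ =>
        y.1.1.2 + (y.2 : ℂ) * (y.1.2 - y.1.1.2)) := by fun_prop
    refine hc.continuousAt.eventually_mem (Metric.isOpen_ball.mem_nhds ?_)
    simpa using hr
  rw [nhds_prod_eq, eventually_prod_iff] at hK
  obtain ⟨pa, ha, pb, hb, hab⟩ := hK
  obtain ⟨δ, hδ, hball⟩ := Metric.eventually_nhds_iff_ball.1 hb
  refine ⟨min (δ / 2) (1 / 2), lt_min (by linarith) (by norm_num), ?_, ?_⟩
  · have := min_le_right (δ / 2) (1 / 2 : ℝ); linarith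
  · filter_upwards [ha] with x hx s hs
    refine hab hx (hball s ?_)
    rw [Metric.mem_ball, Real.dist_eq, abs_lt]
    have h1 := min_le_left (δ / 2) (1 / 2 : ℝ)
    constructor <;> linarith [hs.1, hs.2]

/-- A point of the open segment, stable. -/
theorem point_stable {n : ℕ} (P₀ : Set ℂ) (v₀ : ZMod n → ℂ) (h₀ : IsPolygon P₀ v₀) (z w : ℂ)
    (h : openSegment ℝ z w ⊆ interior P₀) (b : ℝ) (hb0 : 0 < b) (hb1 : b < 1) :
    ∀ᶠ x in 𝓝 (((v₀, z), w) : ((ZMod n → ℂ) × ℂ) × ℂ), ∀ P, IsPolygon P x.1.1 →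
      x.1.2 + (b : ℂ) * (x.2 - x.1.2) ∈ interior P := by
  filter_upwards [seg_mid P₀ v₀ h₀ z w h b b hb0 hb1] with x hx P hP
  exact hx P hP b ⟨le_refl _, le_refl _⟩

/-- Reparametrisation of the last piece. -/
theorem repar (z w : ℂ) (b s : ℝ) (hb : b < 1) :
    z + (s : ℂ) * (w - z) = (z + (b : ℂ) * (w - z)) +
      (((s - b) / (1 - b) : ℝ) : ℂ) * (w - (z + (b : ℂ) * (w - z))) := by
  have h1 : (1 - (b : ℂ)) ≠ 0 := by
    have : (1 - b : ℝ) ≠ 0 := by linarith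
    exact_mod_cast this
  push_cast
  field_simp
  ring

/-- START at a side: the beginning of the segment. -/
theorem seg_start {n : ℕ} (P₀ : Set ℂ) (v₀ : ZMod n → ℂ) (h₀ : IsPolygon P₀ v₀) (z w : ℂ) (i : ZMod n)
    (hz : z ∈ openSegment ℝ (v₀ i) (v₀ (i + 1)))
    (h : openSegment ℝ z w ⊆ interior P₀) :
    ∃ a : ℝ, 0 < a ∧ ∀ᶠ x in 𝓝 (((v₀, z), w) : ((ZMod n → ℂ) × ℂ) × ℂ), ∀ P, IsPolygon P x.1.1 →
      x.1.2 ∈ openSegment ℝ (x.1.1 i) (x.1.1 (i + 1)) →
      ∀ s ∈ Ioc (0 : ℝ) a, x.1.2 + (s : ℂ) * (x.2 - x.1.2) ∈ interior P := by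
  have := neZero_of_polygon h₀
  obtain ⟨r, hr, hnear⟩ := near_sides v₀ z {j | j ≠ i} (fun j hj => not_mem_other_side h₀ i j hj z hz)
  obtain ⟨a, ha0, ha1, hball⟩ := near_start v₀ z w r hr
  have hpt := point_stable P₀ v₀ h₀ z w h a ha0 ha1
  have htr := transversal_of_fly h₀ i w z hz (by rw [openSegment_symm]; exact h)
  have hdet : ∀ᶠ x in 𝓝 (((v₀, z), w) : ((ZMod n → ℂ) × ℂ) × ℂ),
      cdet (x.1.1 (i + 1) - x.1.1 i) (x.2 - x.1.1 i) ≠ 0 := by
    have hc : Continuous (fun x : ((ZMod n → ℂ) × ℂ) × ℂ =>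
        cdet (x.1.1 (i + 1) - x.1.1 i) (x.2 - x.1.1 i)) := by
      unfold cdet
      fun_prop
    refine hc.continuousAt.eventually_ne ?_
    show cdet (v₀ (i + 1) - v₀ i) (w - v₀ i) ≠ 0
    have h1 := cdet_side_zero v₀ i z (openSegment_subset_segment _ _ _ hz)
    have e : cdet (v₀ (i + 1) - v₀ i) (w - v₀ i) = cdet (v₀ (i + 1) - v₀ i) (w - z)
        + cdet (v₀ (i + 1) - v₀ i) (z - v₀ i) := by
      simp only [cdet, Complex.sub_re, Complex.sub_im]; ring
    rw [e, h1, add_zero]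
    exact htr
  have hnear' : ∀ᶠ x in 𝓝 (((v₀, z), w) : ((ZMod n → ℂ) × ℂ) × ℂ), ∀ j ∈ {j | j ≠ i},
      ∀ y ∈ Metric.ball z r, y ∉ segment ℝ (x.1.1 j) (x.1.1 (j + 1)) := by
    have hc : Continuous (fun x : ((ZMod n → ℂ) × ℂ) × ℂ => x.1.1) := by fun_prop
    exact (hc.tendsto (((v₀, z), w) : ((ZMod n → ℂ) × ℂ) × ℂ)).eventually hnear
  refine ⟨a, ha0, ?_⟩
  filter_upwards [hball, hpt, hdet, hnear'] with x hx1 hx2 hx3 hx4 P hP hzi
  have hpc : IsPreconnected ((fun r : ℝ => x.1.2 + (r : ℂ) * (x.2 - x.1.2)) '' Ioc 0 a) := by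
    apply isPreconnected_Ioc.image
    fun_prop
  intro s hs
  refine conn_interior hP hpc ?_ ⟨a, ⟨ha0, le_refl _⟩, rfl⟩ (hx2 P hP) ⟨s, hs, rfl⟩
  rintro _ ⟨t, ⟨ht0, ht1⟩, rfl⟩
  rw [not_mem_curve_iff]
  intro j hj
  by_cases hji : j = i
  · rw [hji] at hj
    have h1 := cdet_side_zero x.1.1 i _ hj
    rw [cdet_line, cdet_side_zero x.1.1 i _ (openSegment_subset_segment _ _ _ hzi), mul_zero, zero_add] at h1
    exact (mul_ne_zero ht0.ne' hx3) h1
  · exact hx4 j hji _ (hx1 t ⟨ht0.le, ht1⟩) hj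

/-- END: the last piece, for a good arrival. -/
theorem seg_end {n : ℕ} (P₀ : Set ℂ) (v₀ : ZMod n → ℂ) (h₀ : IsPolygon P₀ v₀) (z w : ℂ)
    (h : openSegment ℝ z w ⊆ interior P₀) (hg : GoodArr v₀ w (w - z)) :
    ∃ b : ℝ, b < 1 ∧ ∀ᶠ x in 𝓝 (((v₀, z), w) : ((ZMod n → ℂ) × ℂ) × ℂ), ∀ P, IsPolygon P x.1.1 → x.2 ∈ P →
      ∀ s ∈ Ico b (1 : ℝ), x.1.2 + (s : ℂ) * (x.2 - x.1.2) ∈ interior P := by
  have := neZero_of_polygon h₀
  rcases hg with hg | ⟨i, hi⟩ | ⟨i, hwi, hpos⟩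
  · -- w in the interior
    have hwc : w ∉ curve v₀ := (not_mem_curve_iff v₀ w).2 hg
    have hwP : w ∈ P₀ := by
      have h1 : w ∈ closure (openSegment ℝ z w) := by
        rw [closure_openSegment]
        exact right_mem_segment ℝ z w
      have h2 := closure_mono h h1
      rwa [h₀.closure_interior] at h2
    have hwi : w ∈ interior P₀ := (mem_interior_iff_inside h₀ w).2 ((mem_iff_inside h₀ w hwc).1 hwP)
    obtain ⟨r, hr, hst⟩ := inside_stable P₀ v₀ h₀ w hwi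
    obtain ⟨b, hb0, hb1, hball⟩ := near_end v₀ z w r hr
    have hst' : ∀ᶠ x in 𝓝 (((v₀, z), w) : ((ZMod n → ℂ) × ℂ) × ℂ), ∀ P, IsPolygon P x.1.1 →
        Metric.ball w r ⊆ interior P := by
      have hc : Continuous (fun x : ((ZMod n → ℂ) × ℂ) × ℂ => x.1.1) := by fun_prop
      exact (hc.tendsto (((v₀, z), w) : ((ZMod n → ℂ) × ℂ) × ℂ)).eventually hst
    refine ⟨b, hb1, ?_⟩
    filter_upwards [hball, hst'] with x hx1 hx2 P hP _ s hs
    exact hx2 P hP (hx1 s ⟨hs.1, hs.2.le⟩)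
  · -- w in the relative interior of the side i
    obtain ⟨r1, hr1, hnear1⟩ := near_sides v₀ w {j | j ≠ i} (fun j hj => not_mem_other_side h₀ i j hj w hi)
    obtain ⟨r2, hr2, hnear2⟩ := near_vertices v₀ w Set.univ (fun k _ => not_vertex_of_open h₀ i w hi k)
    obtain ⟨b, hb0, hb1, hball⟩ := near_end v₀ z w (min r1 r2) (lt_min hr1 hr2)
    have hpt := point_stable P₀ v₀ h₀ z w h b hb0 hb1
    have htr := transversal_of_fly h₀ i z w hi h
    have hdet : ∀ᶠ x in 𝓝 (((v₀, z), w) : ((ZMod n → ℂ) × ℂ) × ℂ),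
        cdet (x.1.1 (i + 1) - x.1.1 i) (x.1.2 + (b : ℂ) * (x.2 - x.1.2) - x.1.1 i) ≠ 0 := by
      have hc : Continuous (fun x : ((ZMod n → ℂ) × ℂ) × ℂ =>
          cdet (x.1.1 (i + 1) - x.1.1 i) (x.1.2 + (b : ℂ) * (x.2 - x.1.2) - x.1.1 i)) := by
        unfold cdet
        fun_prop
      refine hc.continuousAt.eventually_ne ?_
      show cdet (v₀ (i + 1) - v₀ i) (z + (b : ℂ) * (w - z) - v₀ i) ≠ 0
      have h1 := cdet_side_zero v₀ i w (openSegment_subset_segment _ _ _ hi)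
      rw [cdet_line, h1, mul_zero, add_zero]
      have e : cdet (v₀ (i + 1) - v₀ i) (z - v₀ i) = cdet (v₀ (i + 1) - v₀ i) (z - w)
          + cdet (v₀ (i + 1) - v₀ i) (w - v₀ i) := by
        simp only [cdet, Complex.sub_re, Complex.sub_im]; ring
      rw [e, h1, add_zero]
      exact mul_ne_zero (by linarith) htr
    have hc1 : Continuous (fun x : ((ZMod n → ℂ) × ℂ) × ℂ => x.1.1) := by fun_prop
    have hn1 := (hc1.tendsto (((v₀, z), w) : ((ZMod n → ℂ) × ℂ) × ℂ)).eventually hnear1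
    have hn2 := (hc1.tendsto (((v₀, z), w) : ((ZMod n → ℂ) × ℂ) × ℂ)).eventually hnear2
    refine ⟨b, hb1, ?_⟩
    filter_upwards [hball, hpt, hdet, hn1, hn2] with x hx1 hx2 hx3 hx4 hx5 P hP hxP s hs
    have hsub1 : Metric.ball w (min r1 r2) ⊆ Metric.ball w r1 := Metric.ball_subset_ball (min_le_left _ _)
    have hsub2 : Metric.ball w (min r1 r2) ⊆ Metric.ball w r2 := Metric.ball_subset_ball (min_le_right _ _)
    have hend : x.2 ∈ Metric.ball w (min r1 r2) := by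
      have h1 := hx1 1 ⟨hb1.le, le_refl _⟩
      have e : x.1.2 + ((1 : ℝ) : ℂ) * (x.2 - x.1.2) = x.2 := by push_cast; ring
      rwa [e] at h1
    have hleg := last_leg_side hP i (Metric.ball w (min r1 r2)) (convex_ball _ _)
      (fun j hj y hy => hx4 j hj y (hsub1 hy)) (fun k hk => hx5 k (Set.mem_univ k) (hsub2 hk))
      (x.1.2 + (b : ℂ) * (x.2 - x.1.2)) x.2 (hx1 b ⟨le_refl _, hb1.le⟩) hend (hx2 P hP) hxP hx3
      ((s - b) / (1 - b)) ⟨div_nonneg (by linarith [hs.1]) (by linarith),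
        by rw [div_lt_one (by linarith)]; linarith [hs.2]⟩
    rw [repar x.1.2 x.2 b s hb1]
    exact hleg
  · -- w is the vertex i
    obtain ⟨r1, hr1, hnear1⟩ := near_sides v₀ w {j | j ≠ i ∧ j ≠ i - 1} (by
      rintro j ⟨hj1, hj2⟩ hmem
      have h1 := h₀.simple i j (Ne.symm hj1) ⟨hwi ▸ left_mem_segment ℝ _ _, hmem⟩
      rcases h1.2 with h2 | h2
      · rw [hwi] at h2
        exact hj1 (h₀.inj h2).symm
      · have h3 : w = v₀ (j + 1) := h2
        rw [hwi] at h3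
        have h4 := h₀.inj h3
        apply hj2
        rw [h4]
        ring)
    obtain ⟨r2, hr2, hnear2⟩ := near_vertices v₀ w {k | k ≠ i} (by
      intro k hk he
      rw [hwi] at he
      exact hk (h₀.inj he))
    obtain ⟨b, hb0, hb1, hball⟩ := near_end v₀ z w (min r1 r2) (lt_min hr1 hr2)
    have hpt := point_stable P₀ v₀ h₀ z w h b hb0 hb1
    have hdet : ∀ᶠ x in 𝓝 (((v₀, z), w) : ((ZMod n → ℂ) × ℂ) × ℂ),
        0 < cdet (x.1.1 i - x.1.1 (i - 1)) (x.1.2 + (b : ℂ) * (x.2 - x.1.2) - x.1.1 i) *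
          cdet (x.1.1 (i + 1) - x.1.1 i) (x.1.2 + (b : ℂ) * (x.2 - x.1.2) - x.1.1 i) := by
      have hc : Continuous (fun x : ((ZMod n → ℂ) × ℂ) × ℂ =>
          cdet (x.1.1 i - x.1.1 (i - 1)) (x.1.2 + (b : ℂ) * (x.2 - x.1.2) - x.1.1 i) *
          cdet (x.1.1 (i + 1) - x.1.1 i) (x.1.2 + (b : ℂ) * (x.2 - x.1.2) - x.1.1 i)) := by
        unfold cdet
        fun_prop
      refine hc.continuousAt.eventually (lt_mem_nhds ?_)
      show 0 < cdet (v₀ i - v₀ (i - 1)) (z + (b : ℂ) * (w - z) - v₀ i) *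
          cdet (v₀ (i + 1) - v₀ i) (z + (b : ℂ) * (w - z) - v₀ i)
      have e1 : ∀ c : ℂ, cdet c (z + (b : ℂ) * (w - z) - v₀ i) = -(1 - b) * cdet c (w - z) := by
        intro c
        rw [← hwi]
        simp only [cdet, Complex.sub_re, Complex.sub_im, Complex.add_re, Complex.add_im, Complex.mul_re,
          Complex.mul_im, Complex.ofReal_re, Complex.ofReal_im]
        ring
      rw [e1, e1]
      have e2 : -(1 - b) * cdet (v₀ i - v₀ (i - 1)) (w - z) * (-(1 - b) * cdet (v₀ (i + 1) - v₀ i) (w - z))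
          = (1 - b) ^ 2 * (cdet (v₀ i - v₀ (i - 1)) (w - z) * cdet (v₀ (i + 1) - v₀ i) (w - z)) := by ring
      rw [e2]
      have h1b : 0 < 1 - b := by linarith
      positivity
    have hc1 : Continuous (fun x : ((ZMod n → ℂ) × ℂ) × ℂ => x.1.1) := by fun_prop
    have hn1 := (hc1.tendsto (((v₀, z), w) : ((ZMod n → ℂ) × ℂ) × ℂ)).eventually hnear1
    have hn2 := (hc1.tendsto (((v₀, z), w) : ((ZMod n → ℂ) × ℂ) × ℂ)).eventually hnear2
    refine ⟨b, hb1, ?_⟩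
    filter_upwards [hball, hpt, hdet, hn1, hn2] with x hx1 hx2 hx3 hx4 hx5 P hP hxP s hs
    have hsub1 : Metric.ball w (min r1 r2) ⊆ Metric.ball w r1 := Metric.ball_subset_ball (min_le_left _ _)
    have hsub2 : Metric.ball w (min r1 r2) ⊆ Metric.ball w r2 := Metric.ball_subset_ball (min_le_right _ _)
    have hend : x.2 ∈ Metric.ball w (min r1 r2) := by
      have h1 := hx1 1 ⟨hb1.le, le_refl _⟩
      have e : x.1.2 + ((1 : ℝ) : ℂ) * (x.2 - x.1.2) = x.2 := by push_cast; ring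
      rwa [e] at h1
    have hleg := last_leg_vertex hP i (Metric.ball w (min r1 r2)) (convex_ball _ _) Metric.isOpen_ball
      (fun j hj hj' y hy => hx4 j ⟨hj, hj'⟩ y (hsub1 hy)) (fun k hk hmem => hx5 k hk (hsub2 hmem))
      (x.1.2 + (b : ℂ) * (x.2 - x.1.2)) x.2 (hx1 b ⟨le_refl _, hb1.le⟩) hend (hx2 P hP) hxP hx3
      ((s - b) / (1 - b)) ⟨div_nonneg (by linarith [hs.1]) (by linarith),
        by rw [div_lt_one (by linarith)]; linarith [hs.2]⟩
    rw [repar x.1.2 x.2 b s hb1]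
    exact hleg

end Pool.Agent.H52W
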