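import Pool.Agent.Lib.H42I.Defs

/-! The source of the light lies in the polygon. -/

namespace Pool.Agent.Lib.H52W

open Set Metric
open Pool.Agent.Lib.H42I (Ray IsPolygon Illuminable)

theorem ray_first {n : ℕ} {P : Set ℂ} {v : ZMod n → ℂ} {q y d : ℂ} (h : Ray P v q y d) :
    ∃ z, z ≠ q ∧ openSegment ℝ q z ⊆ interior P := by
  induction h with
  | start z hz h => exact ⟨z, hz, h⟩
  | bounce z d w i t hr hz ht hw h ih => exact ih

theorem vertex_mem {n : ℕ} {P : Set ℂ} {v : ZMod n → ℂ} (hP : IsPolygon P v) (i : ZMod n) :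
    v i ∈ P := by
  have h1 : v i ∈ frontier P := by
    rw [hP.frontier_eq]
    exact mem_iUnion.2 ⟨i, left_mem_segment ℝ _ _⟩
  exact hP.compact.isClosed.frontier_subset h1

theorem mem_of_illuminable {n : ℕ} {P : Set ℂ} {v : ZMod n → ℂ} (hP : IsPolygon P v) {q : ℂ}
    (h : Illuminable P v q) : q ∈ P := by
  have hn := hP.three_le
  have : Fact (1 < n) := ⟨by omega⟩
  have h01 : v 0 ≠ v 1 := fun he => zero_ne_one (hP.inj he)
  obtain ⟨i, hi⟩ : ∃ i, v i ≠ q := by
    by_cases h0 : v 0 = q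
    · exact ⟨1, fun h1 => h01 (h0.trans h1.symm)⟩
    · exact ⟨0, h0⟩
  rcases h (v i) (vertex_mem hP i) with h1 | ⟨d, hd⟩
  · exact absurd h1 hi
  · obtain ⟨z, -, hz⟩ := ray_first hd
    have h2 : q ∈ closure (openSegment ℝ q z) :=
      segment_subset_closure_openSegment (left_mem_segment ℝ q z)
    have h3 : q ∈ closure (interior P) := closure_mono hz h2
    rwa [hP.closure_interior] at h3

theorem interior_of_near {n : ℕ} {P : Set ℂ} {v : ZMod n → ℂ} (hP : IsPolygon P v) {K : Set ℂ}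
    {ε : ℝ} (h : ∀ q' : ℂ, (∃ q ∈ K, ‖q' - q‖ < ε) → Illuminable P v q') {q' : ℂ}
    (hq : ∃ q ∈ K, ‖q' - q‖ < ε) : q' ∈ interior P := by
  obtain ⟨q, hqK, hq⟩ := hq
  have h1 : ball q ε ⊆ P := fun x hx =>
    mem_of_illuminable hP (h x ⟨q, hqK, by simpa [dist_eq_norm] using hx⟩)
  exact interior_maximal h1 isOpen_ball (by simpa [dist_eq_norm] using hq)

end Pool.Agent.Lib.H52W
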