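import Pool.Agent.Lib.H52W.Jordan1

/-!
# MP_273810_co : the polygonal Jordan curve theorem, part 2: the sectors at a vertex (library H52W, helper52)
-/

namespace Pool.Agent.H52W

open Complex Topology Filter Set

theorem cdet_add_smul (a x u : ℂ) (t : ℝ) : cdet a (x + (t : ℂ) * u) = cdet a x + t * cdet a u := by
  simp only [cdet, Complex.add_re, Complex.add_im, Complex.mul_re, Complex.mul_im, Complex.ofReal_re,
    Complex.ofReal_im]
  ring

theorem cdet_smul (a u : ℂ) (t : ℝ) : cdet a ((t : ℂ) * u) = t * cdet a u := by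
  simp only [cdet, Complex.mul_re, Complex.mul_im, Complex.ofReal_re, Complex.ofReal_im]
  ring

theorem cdet_self (a : ℂ) : cdet a a = 0 := by
  simp only [cdet]; ring

/-- An inner direction for a sector between the directions `a` and `b`. -/
theorem exists_sector_dir (a b : ℂ) (ha : a ≠ 0)
    (h : cdet a b = 0 → ∃ c : ℝ, 0 < c ∧ b = ((-c : ℝ) : ℂ) * a) :
    ∃ (σ : ℝ) (u : ℂ), 0 ≤ σ * cdet a b ∧ 0 < σ * cdet a u ∧ σ * cdet b u < 0 := by
  rcases lt_trichotomy (cdet a b) 0 with h1 | h1 | h1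
  · refine ⟨-1, a + b, by linarith, ?_, ?_⟩
    · have e : cdet a (a + b) = cdet a b := by
        simp only [cdet, Complex.add_re, Complex.add_im]; ring
      rw [e]; linarith
    · have e : cdet b (a + b) = - cdet a b := by
        simp only [cdet, Complex.add_re, Complex.add_im]; ring
      rw [e]; linarith
  · obtain ⟨c, hc, rfl⟩ := h h1
    have hn := Complex.normSq_pos.2 ha
    refine ⟨1, I * a, by rw [h1]; simp, ?_, ?_⟩
    · have e : cdet a (I * a) = Complex.normSq a := by
        simp only [cdet, Complex.normSq_apply, Complex.mul_re, Complex.mul_im, Complex.I_re, Complex.I_im]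
        ring
      rw [e]; linarith
    · have e : cdet (((-c : ℝ) : ℂ) * a) (I * a) = -c * Complex.normSq a := by
        simp only [cdet, Complex.normSq_apply, Complex.mul_re, Complex.mul_im, Complex.I_re, Complex.I_im,
          Complex.ofReal_re, Complex.ofReal_im]
        ring
      rw [e]; nlinarith
  · refine ⟨1, a + b, by linarith, ?_, ?_⟩
    · have e : cdet a (a + b) = cdet a b := by
        simp only [cdet, Complex.add_re, Complex.add_im]; ring
      rw [e]; linarith
    · have e : cdet b (a + b) = - cdet a b := by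
        simp only [cdet, Complex.add_re, Complex.add_im]; ring
      rw [e]; linarith

/-- The two sides at a vertex do not overlap. -/
theorem SimpleV.no_overlap {n : ℕ} {v : ZMod n → ℂ} (h : SimpleV v) (i : ZMod n)
    (h0 : cdet (v (i - 1) - v i) (v (i + 1) - v i) = 0) :
    ∃ c : ℝ, 0 < c ∧ v (i + 1) - v i = ((-c : ℝ) : ℂ) * (v (i - 1) - v i) := by
  have ha : v (i - 1) - v i ≠ 0 := by
    have := h.ne_succ (i - 1)
    rw [sub_add_cancel] at this
    exact sub_ne_zero.2 this
  have hb : v (i + 1) - v i ≠ 0 := sub_ne_zero.2 (Ne.symm (h.ne_succ i))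
  set a := v (i - 1) - v i with hadef
  set b := v (i + 1) - v i with hbdef
  -- b = c a
  obtain ⟨c, hc⟩ : ∃ c : ℝ, b = (c : ℂ) * a := by
    refine ⟨(b / a).re, ?_⟩
    have him : (b / a).im = 0 := by
      rw [Complex.div_im]
      have e : b.im * a.re / normSq a - b.re * a.im / normSq a = cdet a b / normSq a := by
        simp only [cdet]; ring
      rw [e, h0, zero_div]
    have e2 : ((b / a).re : ℂ) = b / a := by
      apply Complex.ext
      · simp
      · simpa using him.symm
    rw [e2, div_mul_cancel₀ _ ha]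
  have hc0 : c ≠ 0 := by
    rintro rfl
    apply hb
    rw [hc]
    simp
  rcases lt_or_gt_of_ne hc0 with hneg | hpos
  · exact ⟨-c, by linarith, by rw [hc]; push_cast; ring⟩
  · exfalso
    -- the point v i + s a with s = min 1 c
    set s : ℝ := min 1 c with hs
    have hs0 : 0 < s := lt_min one_pos hpos
    have hs1 : s ≤ 1 := min_le_left _ _
    have hsc : s ≤ c := min_le_right _ _
    have m1 : v i + (s : ℂ) * a ∈ segment ℝ (v (i - 1)) (v (i - 1 + 1)) := by
      rw [sub_add_cancel, segment_symm]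
      have := param_mem_segment (v i) (v (i - 1)) s hs0.le hs1
      rwa [← hadef] at this
    have m2 : v i + (s : ℂ) * a ∈ segment ℝ (v i) (v (i + 1)) := by
      have h1 := param_mem_segment (v i) (v (i + 1)) (s / c) (by positivity)
        (by rw [div_le_one hpos]; exact hsc)
      rw [← hbdef, hc] at h1
      have e : ((s / c : ℝ) : ℂ) * ((c : ℂ) * a) = (s : ℂ) * a := by
        have hcc : (c : ℂ) ≠ 0 := by exact_mod_cast hc0
        push_cast
        field_simp
      rwa [e] at h1
    have hij : i - 1 ≠ i := by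
      intro he
      apply h.one_ne
      have := congrArg (fun x => i - x) he
      simpa using this
    have h1 := h.simple (i - 1) i hij ⟨m1, m2⟩
    rw [sub_add_cancel] at h1
    have h3 : v i + (s : ℂ) * a = v i := by
      rcases h1.2 with h2 | h2
      · exact h2
      · rw [mem_singleton_iff] at h2
        rcases h1.1 with h4 | h4
        · exact absurd (h4.symm.trans h2) (h.ne_two i)
        · exact h4
    have h4 : (s : ℂ) * a = 0 := by
      have := congrArg (fun x => x - v i) h3
      simpa using this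
    rcases mul_eq_zero.1 h4 with h5 | h5
    · exact hs0.ne' (by exact_mod_cast h5)
    · exact ha h5

theorem half_convex (p a : ℂ) (σ : ℝ) : Convex ℝ {y | 0 < σ * cdet a (y - p)} := by
  have hlin : IsLinearMap ℝ (fun y : ℂ => σ * cdet a y) := by
    constructor
    · intro x y
      simp only [cdet, Complex.add_re, Complex.add_im]; ring
    · intro c x
      simp only [cdet, Complex.real_smul, Complex.mul_re, Complex.mul_im, Complex.ofReal_re,
        Complex.ofReal_im, smul_eq_mul]; ring
  have hc := convex_halfSpace_gt hlin (σ * cdet a p)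
  have he : {y | 0 < σ * cdet a (y - p)} = {y : ℂ | σ * cdet a p < σ * cdet a y} := by
    ext y
    simp only [Set.mem_ofPred_eq]
    have e : σ * cdet a (y - p) = σ * cdet a y - σ * cdet a p := by
      simp only [cdet, Complex.sub_re, Complex.sub_im]; ring
    rw [e]
    constructor <;> intro h <;> linarith
  rw [he]
  exact hc

/-- Near a vertex the inside is a sector. -/
theorem SimpleV.vertex_nbhd {n : ℕ} [NeZero n] {v : ZMod n → ℂ} (h : SimpleV v) (i : ZMod n) :
    ∃ r > 0, IsPreconnected (Metric.ball (v i) r ∩ InS v) := by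
  have ha : v (i - 1) - v i ≠ 0 := by
    have := h.ne_succ (i - 1)
    rw [sub_add_cancel] at this
    exact sub_ne_zero.2 this
  have hb : v (i + 1) - v i ≠ 0 := sub_ne_zero.2 (Ne.symm (h.ne_succ i))
  obtain ⟨σ, u, hΔ, hau, hbu⟩ := exists_sector_dir (v (i - 1) - v i) (v (i + 1) - v i) ha (h.no_overlap i)
  set p := v i with hp
  set a := v (i - 1) - p with hadef
  set b := v (i + 1) - p with hbdef
  -- a ball which meets only the two sides
  have h2 : ∀ᶠ y in 𝓝 p, ∀ j, j ≠ i → j ≠ i - 1 → y ∉ segment ℝ (v j) (v (j + 1)) := by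
    rw [eventually_all]
    intro j
    by_cases hj : j = i
    · exact Eventually.of_forall fun y hj' => absurd hj hj'
    · by_cases hj1 : j = i - 1
      · exact Eventually.of_forall fun y _ hj' => absurd hj1 hj'
      · have hcl : IsClosed (segment ℝ (v j) (v (j + 1))) := by
          rw [segment_eq_image]
          exact (isCompact_Icc.image (by fun_prop)).isClosed
        filter_upwards [hcl.isOpen_compl.mem_nhds (h.vertex_other i j hj hj1)] with y hy _ _
        exact hy
  obtain ⟨r, hr, hball⟩ := Metric.eventually_nhds_iff_ball.1 h2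
  refine ⟨r, hr, ?_⟩
  set S1 : Set ℂ := Metric.ball p r ∩ ({y | 0 < σ * cdet a (y - p)} ∩ {y | 0 < (-σ) * cdet b (y - p)}) with hS1
  set S2a : Set ℂ := Metric.ball p r ∩ {y | 0 < (-σ) * cdet a (y - p)} with hS2a
  set S2b : Set ℂ := Metric.ball p r ∩ {y | 0 < σ * cdet b (y - p)} with hS2b
  have c1 : Convex ℝ S1 := (convex_ball p r).inter ((half_convex p a σ).inter (half_convex p b (-σ)))
  have c2a : Convex ℝ S2a := (convex_ball p r).inter (half_convex p a (-σ))
  have c2b : Convex ℝ S2b := (convex_ball p r).inter (half_convex p b σ)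
  have hpball : p ∈ Metric.ball p r := Metric.mem_ball_self hr
  have hpos : ∀ᶠ t : ℝ in 𝓝[>] 0, 0 < t := self_mem_nhdsWithin
  -- points `y ± t u`
  have hstep : ∀ y ∈ Metric.ball p r, 0 ≤ σ * cdet a (y - p) → σ * cdet b (y - p) ≤ 0 →
      (∀ᶠ t : ℝ in 𝓝[>] 0, y + ((1 * t : ℝ) : ℂ) * u ∈ S1) := by
    intro y hy h3 h4
    filter_upwards [(tendsto_add_dir y u 1).eventually (Metric.isOpen_ball.mem_nhds hy), hpos] with t h5 h6
    refine ⟨h5, ?_, ?_⟩
    · show 0 < σ * cdet a (y + ((1 * t : ℝ) : ℂ) * u - p)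
      have e : y + ((1 * t : ℝ) : ℂ) * u - p = (y - p) + ((t : ℝ) : ℂ) * u := by push_cast; ring
      rw [e, cdet_add_smul]
      nlinarith [mul_pos h6 hau]
    · show 0 < (-σ) * cdet b (y + ((1 * t : ℝ) : ℂ) * u - p)
      have e : y + ((1 * t : ℝ) : ℂ) * u - p = (y - p) + ((t : ℝ) : ℂ) * u := by push_cast; ring
      rw [e, cdet_add_smul]
      nlinarith [mul_pos h6 (neg_pos.2 hbu)]
  have hstepa : ∀ y ∈ Metric.ball p r, σ * cdet a (y - p) ≤ 0 →
      (∀ᶠ t : ℝ in 𝓝[>] 0, y + ((-1 * t : ℝ) : ℂ) * u ∈ S2a) := by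
    intro y hy h3
    filter_upwards [(tendsto_add_dir y u (-1)).eventually (Metric.isOpen_ball.mem_nhds hy), hpos] with t h5 h6
    refine ⟨h5, ?_⟩
    show 0 < (-σ) * cdet a (y + ((-1 * t : ℝ) : ℂ) * u - p)
    have e : y + ((-1 * t : ℝ) : ℂ) * u - p = (y - p) + ((-t : ℝ) : ℂ) * u := by push_cast; ring
    rw [e, cdet_add_smul]
    nlinarith [mul_pos h6 hau]
  have hstepb : ∀ y ∈ Metric.ball p r, 0 ≤ σ * cdet b (y - p) →
      (∀ᶠ t : ℝ in 𝓝[>] 0, y + ((-1 * t : ℝ) : ℂ) * u ∈ S2b) := by
    intro y hy h3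
    filter_upwards [(tendsto_add_dir y u (-1)).eventually (Metric.isOpen_ball.mem_nhds hy), hpos] with t h5 h6
    refine ⟨h5, ?_⟩
    show 0 < σ * cdet b (y + ((-1 * t : ℝ) : ℂ) * u - p)
    have e : y + ((-1 * t : ℝ) : ℂ) * u - p = (y - p) + ((-t : ℝ) : ℂ) * u := by push_cast; ring
    rw [e, cdet_add_smul]
    nlinarith [mul_pos h6 (neg_pos.2 hbu)]
  have hpp : ∀ c : ℂ, cdet c (p - p) = 0 := by
    intro c
    rw [sub_self]
    simp [cdet]
  -- the second sector is connected
  have hmeet : (S2a ∩ S2b).Nonempty := by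
    obtain ⟨t, ht1, ht2⟩ := ((hstepa p hpball (by rw [hpp]; simp)).and
      (hstepb p hpball (by rw [hpp]; simp))).exists
    exact ⟨_, ht1, ht2⟩
  obtain ⟨z, hz1, hz2⟩ := hmeet
  have c2 : IsPreconnected (S2a ∪ S2b) := IsPreconnected.union z hz1 hz2 c2a.isPreconnected c2b.isPreconnected
  -- both sectors avoid the curve
  have hray : ∀ y ∈ Metric.ball p r, y ∈ curve v → 0 ≤ σ * cdet a (y - p) ∧ σ * cdet b (y - p) ≤ 0 ∧
      (cdet a (y - p) = 0 ∨ cdet b (y - p) = 0) := by
    intro y hy hyc
    rw [curve, mem_iUnion] at hyc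
    obtain ⟨j, hj⟩ := hyc
    by_cases h5 : j = i
    · rw [h5] at hj
      obtain ⟨s, hs0, hs1, rfl⟩ := mem_segment_param hj
      have e : p + (s : ℂ) * (v (i + 1) - p) - p = (s : ℂ) * b := by rw [hbdef]; ring
      rw [← hp, e, cdet_smul, cdet_smul, cdet_self]
      refine ⟨?_, by simp, Or.inr (by simp)⟩
      nlinarith
    · by_cases h6 : j = i - 1
      · rw [h6, sub_add_cancel, segment_symm] at hj
        obtain ⟨s, hs0, hs1, rfl⟩ := mem_segment_param hj
        have e : p + (s : ℂ) * (v (i - 1) - p) - p = (s : ℂ) * a := by rw [hadef]; ring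
        rw [← hp, e, cdet_smul, cdet_smul, cdet_self]
        refine ⟨by simp, ?_, Or.inl (by simp)⟩
        have e2 : cdet b a = - cdet a b := by simp only [cdet]; ring
        rw [e2]
        nlinarith
      · exact absurd hj (hball y hy j h5 h6)
  have o1 : ∀ y ∈ S1, y ∉ curve v := by
    rintro y ⟨hy, h5, h6⟩ hyc
    obtain ⟨_, _, h7⟩ := hray y hy hyc
    have h5' : 0 < σ * cdet a (y - p) := h5
    have h6' : 0 < (-σ) * cdet b (y - p) := h6
    rcases h7 with h7 | h7
    · rw [h7, mul_zero] at h5'; exact lt_irrefl _ h5'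
    · rw [h7, mul_zero] at h6'; exact lt_irrefl _ h6'
  have o2 : ∀ y ∈ S2a ∪ S2b, y ∉ curve v := by
    rintro y (⟨hy, h5⟩ | ⟨hy, h5⟩) hyc
    · obtain ⟨h7, _, _⟩ := hray y hy hyc
      have h5' : 0 < (-σ) * cdet a (y - p) := h5
      linarith
    · obtain ⟨_, h7, _⟩ := hray y hy hyc
      have h5' : 0 < σ * cdet b (y - p) := h5
      linarith
  -- a flip at a point of the side `i`
  obtain ⟨w, hw, hwball, hwa⟩ : ∃ w ∈ openSegment ℝ (v i) (v (i + 1)), w ∈ Metric.ball p r ∧
      ∃ s : ℝ, 0 < s ∧ w - p = (s : ℂ) * b := by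
    have h5 := (tendsto_add_dir p b 1).eventually (Metric.isOpen_ball.mem_nhds hpball)
    have h6 : ∀ᶠ t : ℝ in 𝓝[>] 0, t < 1 :=
      (eventually_lt_nhds (by norm_num : (0 : ℝ) < 1)).filter_mono nhdsWithin_le_nhds
    obtain ⟨t, ⟨ht1, ht2⟩, ht3⟩ := ((h5.and h6).and hpos).exists
    have e : p + ((1 * t : ℝ) : ℂ) * b = p + (t : ℂ) * b := by push_cast; ring
    rw [e] at ht1
    refine ⟨p + (t : ℂ) * b, ?_, ht1, t, ht3, by ring⟩
    have := param_mem_openSegment (v i) (v (i + 1)) t ht3 ht2
    rwa [← hp, ← hbdef] at this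
  obtain ⟨s, hs, hws⟩ := hwa
  have hubne : cdet u (v (i + 1) - v i) ≠ 0 := by
    have e : cdet u (v (i + 1) - v i) = - cdet b u := by
      rw [← hp, ← hbdef]; simp only [cdet]; ring
    rw [e]
    intro h5
    have h6 : cdet b u = 0 := by linarith
    rw [h6, mul_zero] at hbu
    exact lt_irrefl _ hbu
  have hloc := inside_flip_local v i w u hw (h.open_other hw) hubne
  have g1 := hstep w hwball (by rw [hws, cdet_smul]; nlinarith) (by rw [hws, cdet_smul, cdet_self]; simp)
  have g2 := hstepb w hwball (by rw [hws, cdet_smul, cdet_self]; simp)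
  obtain ⟨t, ⟨⟨_, _, hflip⟩, ht1⟩, ht2⟩ := ((hloc.and g1).and g2).exists
  have e1 : w + ((1 * t : ℝ) : ℂ) * u = w + (t : ℂ) * u := by push_cast; ring
  have e2 : w + ((-1 * t : ℝ) : ℂ) * u = w - (t : ℂ) * u := by push_cast; ring
  rw [e1] at ht1
  rw [e2] at ht2
  have ht2' : w - (t : ℂ) * u ∈ S2a ∪ S2b := Or.inr ht2
  set x1 := w + (t : ℂ) * u with hx1
  set x2 := w - (t : ℂ) * u with hx2
  -- trichotomy in the ball
  have htri : ∀ y ∈ Metric.ball p r, y ∈ S1 ∨ y ∈ S2a ∪ S2b ∨
      (0 ≤ σ * cdet a (y - p) ∧ σ * cdet b (y - p) ≤ 0 ∧ (σ * cdet a (y - p) = 0 ∨ σ * cdet b (y - p) = 0)) := by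
    intro y hy
    by_cases h5 : σ * cdet a (y - p) < 0
    · right; left; left
      exact ⟨hy, (by show 0 < (-σ) * cdet a (y - p); linarith)⟩
    by_cases h6 : 0 < σ * cdet b (y - p)
    · right; left; right
      exact ⟨hy, h6⟩
    push Not at h5 h6
    rcases h5.lt_or_eq with h7 | h7
    · rcases h6.lt_or_eq with h8 | h8
      · left
        exact ⟨hy, h7, (by show 0 < (-σ) * cdet b (y - p); linarith)⟩
      · right; right
        exact ⟨h5, h6, Or.inr h8⟩
    · right; right
      exact ⟨h5, h6, Or.inl h7.symm⟩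
  have hopen := isOpen_inside v
  -- boundary rays: points inside would have points of both sectors inside nearby
  have hboth : ∀ y ∈ Metric.ball p r, Inside v y → 0 ≤ σ * cdet a (y - p) → σ * cdet b (y - p) ≤ 0 →
      (σ * cdet a (y - p) = 0 ∨ σ * cdet b (y - p) = 0) →
      (∃ z ∈ S1, Inside v z) ∧ (∃ z ∈ S2a ∪ S2b, Inside v z) := by
    intro y hy hyI h5 h6 h7
    have k1 := (tendsto_add_dir y u 1).eventually (hopen.mem_nhds hyI)
    have k2 := (tendsto_add_dir y u (-1)).eventually (hopen.mem_nhds hyI)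
    constructor
    · obtain ⟨t, ht1, ht2⟩ := (k1.and (hstep y hy h5 h6)).exists
      exact ⟨_, ht2, ht1⟩
    · rcases h7 with h7 | h7
      · obtain ⟨t, ht1, ht2⟩ := (k2.and (hstepa y hy h7.le)).exists
        exact ⟨_, Or.inl ht2, ht1⟩
      · obtain ⟨t, ht1, ht2⟩ := (k2.and (hstepb y hy h7.ge)).exists
        exact ⟨_, Or.inr ht2, ht1⟩
  by_cases hI : Inside v x1
  · -- the first sector is inside
    have hall : ∀ y ∈ S1, Inside v y := fun y hy =>
      (inside_iff_of_isPreconnected v c1.isPreconnected o1 ht1 hy).1 hI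
    have hnone : ∀ y ∈ S2a ∪ S2b, ¬ Inside v y := fun y hy hyI =>
      (hflip.1 ((inside_iff_of_isPreconnected v c2 o2 ht2' hy).2 hyI)) hI
    have e : Metric.ball p r ∩ InS v = S1 := by
      ext y
      constructor
      · rintro ⟨hy, hyI⟩
        rcases htri y hy with h5 | h5 | ⟨h5, h6, h7⟩
        · exact h5
        · exact absurd hyI (hnone y h5)
        · obtain ⟨_, z, hz, hzI⟩ := hboth y hy hyI h5 h6 h7
          exact absurd hzI (hnone z hz)
      · intro hy
        exact ⟨hy.1, hall y hy⟩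
    rw [e]
    exact c1.isPreconnected
  · have hI2 : Inside v x2 := hflip.2 hI
    have hall : ∀ y ∈ S2a ∪ S2b, Inside v y := fun y hy =>
      (inside_iff_of_isPreconnected v c2 o2 ht2' hy).1 hI2
    have hnone : ∀ y ∈ S1, ¬ Inside v y := fun y hy hyI =>
      hI ((inside_iff_of_isPreconnected v c1.isPreconnected o1 ht1 hy).2 hyI)
    have e : Metric.ball p r ∩ InS v = S2a ∪ S2b := by
      ext y
      constructor
      · rintro ⟨hy, hyI⟩
        rcases htri y hy with h5 | h5 | ⟨h5, h6, h7⟩
        · exact absurd hyI (hnone y h5)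
        · exact h5
        · obtain ⟨⟨z, hz, hzI⟩, _⟩ := hboth y hy hyI h5 h6 h7
          exact absurd hzI (hnone z hz)
      · intro hy
        refine ⟨?_, hall y hy⟩
        rcases hy with hy | hy
        · exact hy.1
        · exact hy.1
    rw [e]
    exact c2

end Pool.Agent.H52W
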