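import Pool.Agent.Lib.H52W.Jordan2

/-!
# MP_273810_co : the polygonal Jordan curve theorem and its stability (library H52W, helper52)
-/

namespace Pool.Agent.H52W

open Complex Topology Filter Set
open Pool.Agent.Lib.H42I (IsPolygon)

theorem SimpleV.curve_nbhd {n : ℕ} [NeZero n] {v : ZMod n → ℂ} (h : SimpleV v) {w : ℂ}
    (hw : w ∈ curve v) : ∃ r > 0, IsPreconnected (Metric.ball w r ∩ InS v) := by
  rw [curve, mem_iUnion] at hw
  obtain ⟨i, hi⟩ := hw
  rw [← insert_endpoints_openSegment] at hi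
  rcases hi with rfl | rfl | hi
  · exact h.vertex_nbhd i
  · exact h.vertex_nbhd (i + 1)
  · exact h.side_nbhd i hi

theorem inS_disjoint_curve {n : ℕ} [NeZero n] (v : ZMod n → ℂ) {x : ℂ} (hx : x ∈ InS v) : x ∉ curve v :=
  hx.1

theorem SimpleV.isPreconnected_inS {n : ℕ} [NeZero n] {v : ZMod n → ℂ} (h : SimpleV v) :
    IsPreconnected (InS v) := by
  have hopen : IsOpen (InS v) := isOpen_inside v
  have key : ∀ U V : Set ℂ, IsOpen U → IsOpen V → InS v ⊆ U ∪ V → (InS v ∩ U).Nonempty →
      ¬ (InS v ∩ (U ∩ V)).Nonempty → (curve v ∩ closure (InS v ∩ U)).Nonempty := by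
    intro U V hU hV hcov hne hdis
    have hU' : IsOpen (InS v ∩ U) := hopen.inter hU
    have hV' : IsOpen (InS v ∩ V) := hopen.inter hV
    have hfr : (frontier (InS v ∩ U)).Nonempty := by
      rw [nonempty_iff_ne_empty]
      intro h0
      have h1 : IsClopen (InS v ∩ U) := by
        rw [isClopen_iff_frontier_eq_empty]; exact h0
      rcases isClopen_iff.1 h1 with h2 | h2
      · rw [h2] at hne
        exact not_nonempty_empty hne
      · have h3 : v 0 ∈ InS v ∩ U := by rw [h2]; exact mem_univ _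
        exact inS_disjoint_curve v h3.1 (curve_side v 0 (left_mem_segment _ _ _))
    obtain ⟨f, hf⟩ := hfr
    rw [hU'.frontier_eq] at hf
    refine ⟨f, ?_, hf.1⟩
    by_contra hfc
    by_cases hfI : f ∈ InS v
    · rcases hcov hfI with h1 | h1
      · exact hf.2 ⟨hfI, h1⟩
      · obtain ⟨z, hz1, hz2⟩ := mem_closure_iff.1 hf.1 _ hV' ⟨hfI, h1⟩
        exact hdis ⟨z, hz1.1, hz2.2, hz1.2⟩
    · obtain ⟨z, hz1, hz2⟩ := mem_closure_iff.1 hf.1 _ (isOpen_outside v) ⟨hfc, hfI⟩
      exact hz1.2 hz2.1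
  intro U V hU hV hcov hneU hneV
  by_contra hdis
  have h1 := key U V hU hV hcov hneU hdis
  have h2 := key V U hV hU (by rw [union_comm]; exact hcov) hneV (by rw [inter_comm V U]; exact hdis)
  have hcover : curve v ⊆ closure (InS v ∩ U) ∪ closure (InS v ∩ V) := by
    intro w hw
    have h3 := (h.mem_closures hw).1
    rw [← closure_union, ← inter_union_distrib_left, inter_eq_left.2 hcov]
    exact h3
  obtain ⟨w, hw, hwU, hwV⟩ := isPreconnected_closed_iff.1 (isPreconnected_curve v) _ _ isClosed_closure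
    isClosed_closure hcover h1 h2
  obtain ⟨r, hr, hpc⟩ := h.curve_nbhd hw
  obtain ⟨x, hx1, hx2⟩ := mem_closure_iff.1 hwU _ Metric.isOpen_ball (Metric.mem_ball_self hr)
  obtain ⟨y, hy1, hy2⟩ := mem_closure_iff.1 hwV _ Metric.isOpen_ball (Metric.mem_ball_self hr)
  obtain ⟨z, hz1, hz2⟩ := hpc U V hU hV (fun z hz => hcov hz.2) ⟨x, ⟨hx1, hx2.1⟩, hx2.2⟩
    ⟨y, ⟨hy1, hy2.1⟩, hy2.2⟩
  exact hdis ⟨z, hz1.2, hz2⟩

/-- The polygonal Jordan curve theorem: a simple closed polygonal curve bounds a polygon. -/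
theorem SimpleV.isPolygon {n : ℕ} [NeZero n] {v : ZMod n → ℂ} (h : SimpleV v) :
    IsPolygon (curve v ∪ InS v) v := by
  have hopen : IsOpen (InS v) := isOpen_inside v
  have hcompl : (curve v ∪ InS v)ᶜ = OutS v := by
    ext x
    simp only [mem_compl_iff, mem_union, not_or, InS, OutS, mem_ofPred_eq]
  have hclosed : IsClosed (curve v ∪ InS v) := by
    rw [← isOpen_compl_iff, hcompl]
    exact isOpen_outside v
  have hbdd : Bornology.IsBounded (curve v ∪ InS v) := by
    obtain ⟨R, hR⟩ : ∃ R : ℝ, ∀ i, ‖v i‖ ≤ R := by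
      obtain ⟨R, hR⟩ := (Set.finite_range fun i => ‖v i‖).bddAbove
      exact ⟨R, fun i => hR ⟨i, rfl⟩⟩
    refine (Metric.isBounded_closedBall (x := (0 : ℂ)) (r := R)).subset ?_
    rintro x (hx | hx)
    · exact curve_subset_closedBall v R hR hx
    · rw [mem_closedBall_zero_iff]
      by_contra hcon
      exact not_inside_far v R hR x (not_le.1 hcon) hx
  have hint : interior (curve v ∪ InS v) = InS v := by
    apply Subset.antisymm
    · intro x hx
      rcases interior_subset hx with hxc | hxI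
      · obtain ⟨z, hz1, hz2⟩ := mem_closure_iff.1 (h.mem_closures hxc).2 _ isOpen_interior hx
        have h1 : z ∈ (curve v ∪ InS v)ᶜ := by rw [hcompl]; exact hz2
        exact absurd (interior_subset hz1) h1
      · exact hxI
    · exact interior_maximal subset_union_right hopen
  have hcl : closure (InS v) = curve v ∪ InS v := by
    apply Subset.antisymm
    · exact closure_minimal subset_union_right hclosed
    · rintro x (hx | hx)
      · exact (h.mem_closures hx).1
      · exact subset_closure hx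
  refine ⟨h.three_le, h.inj, h.simple, Metric.isCompact_of_isClosed_isBounded hclosed hbdd, ?_, ?_, ?_⟩
  · rw [hint]
    refine ⟨?_, h.isPreconnected_inS⟩
    have h1 : v 0 ∈ closure (InS v) := (h.mem_closures (curve_side v 0 (left_mem_segment _ _ _))).1
    exact closure_nonempty_iff.1 ⟨_, h1⟩
  · rw [hint, hcl]
  · rw [hclosed.frontier_eq, hint]
    ext x
    constructor
    · rintro ⟨h1 | h1, h2⟩
      · exact h1
      · exact absurd h1 h2
    · intro hx
      exact ⟨Or.inl hx, fun h2 => h2.1 hx⟩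

theorem simpleV_of_polygon {n : ℕ} {P : Set ℂ} {v : ZMod n → ℂ} (h : IsPolygon P v) : SimpleV v :=
  ⟨h.three_le, h.inj, h.simple⟩

/-- The region of a polygon is determined by its vertices. -/
theorem polygon_eq {n : ℕ} [NeZero n] {P : Set ℂ} {v : ZMod n → ℂ} (h : IsPolygon P v) :
    P = curve v ∪ InS v := by
  ext x
  constructor
  · intro hx
    by_cases hc : x ∈ curve v
    · exact Or.inl hc
    · exact Or.inr ((mem_iff_inside h x hc).1 hx)
  · rintro (hx | hx)
    · have h1 : x ∈ frontier P := by rw [h.frontier_eq]; exact hx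
      exact h.compact.isClosed.frontier_subset h1
    · exact interior_subset ((mem_interior_iff_inside h x).2 hx)

/-! ### Stability of simplicity -/

theorem disjoint_sides_stable {n : ℕ} [NeZero n] (v₀ : ZMod n → ℂ) (i j : ZMod n)
    (h : ∀ x, x ∈ segment ℝ (v₀ i) (v₀ (i + 1)) → x ∉ segment ℝ (v₀ j) (v₀ (j + 1))) :
    ∀ᶠ v in 𝓝 v₀, ∀ x, x ∈ segment ℝ (v i) (v (i + 1)) → x ∉ segment ℝ (v j) (v (j + 1)) := by
  have hK : IsCompact (Icc (0 : ℝ) 1 ×ˢ Icc (0 : ℝ) 1) := isCompact_Icc.prod isCompact_Icc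
  have h1 := hK.eventually_forall_of_forall_eventually (x₀ := v₀)
    (P := fun v st => v i + (st.1 : ℂ) * (v (i + 1) - v i) - (v j + (st.2 : ℂ) * (v (j + 1) - v j)) ≠ 0) (by
      rintro ⟨s, t⟩ ⟨hs, ht⟩
      have hne : v₀ i + (s : ℂ) * (v₀ (i + 1) - v₀ i) - (v₀ j + (t : ℂ) * (v₀ (j + 1) - v₀ j)) ≠ 0 := by
        intro h0
        have h2 := param_mem_segment (v₀ i) (v₀ (i + 1)) s hs.1 hs.2
        apply h _ h2
        rw [sub_eq_zero.1 h0]
        exact param_mem_segment (v₀ j) (v₀ (j + 1)) t ht.1 ht.2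
      have hc : ContinuousAt (fun q : (ZMod n → ℂ) × (ℝ × ℝ) =>
          q.1 i + (q.2.1 : ℂ) * (q.1 (i + 1) - q.1 i) - (q.1 j + (q.2.2 : ℂ) * (q.1 (j + 1) - q.1 j)))
          (v₀, (s, t)) := by fun_prop
      exact hc.eventually_ne hne)
  filter_upwards [h1] with v hv x hx hx'
  obtain ⟨s, hs0, hs1, e1⟩ := mem_segment_param hx
  obtain ⟨t, ht0, ht1, e2⟩ := mem_segment_param hx'
  apply hv (s, t) ⟨⟨hs0, hs1⟩, ⟨ht0, ht1⟩⟩
  show v i + (s : ℂ) * (v (i + 1) - v i) - (v j + (t : ℂ) * (v (j + 1) - v j)) = 0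
  rw [← e1, ← e2, sub_self]

/-- the open condition at a vertex -/
theorem adjacent_only {a b p x : ℂ} (ha : a ≠ 0) (hab : cdet a b ≠ 0 ∨ a.re * b.re + a.im * b.im < 0)
    (h1 : x ∈ segment ℝ (p + a) p) (h2 : x ∈ segment ℝ p (p + b)) : x = p := by
  rw [segment_symm] at h1
  obtain ⟨s, hs0, hs1, e1⟩ := mem_segment_param h1
  obtain ⟨t, ht0, ht1, e2⟩ := mem_segment_param h2
  have e3 : (s : ℂ) * a = (t : ℂ) * b := by
    have e4 : p + a - p = a := by ring
    have e5 : p + b - p = b := by ring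
    rw [e4] at e1
    rw [e5] at e2
    have := e1.symm.trans e2
    exact add_left_cancel this
  have hre := congrArg Complex.re e3
  have him := congrArg Complex.im e3
  simp only [Complex.mul_re, Complex.mul_im, Complex.ofReal_re, Complex.ofReal_im, zero_mul, sub_zero,
    add_zero] at hre him
  have hs : s = 0 := by
    rcases hab with h | h
    · have h6 : s * cdet a b = 0 := by
        simp only [cdet]
        linear_combination b.im * hre - b.re * him
      exact (mul_eq_zero.1 h6).resolve_right h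
    · have h6 : s * Complex.normSq a = t * (a.re * b.re + a.im * b.im) := by
        rw [Complex.normSq_apply]
        linear_combination a.re * hre + a.im * him
      have h7 := Complex.normSq_pos.2 ha
      by_contra hs
      have hs' : 0 < s := lt_of_le_of_ne hs0 (Ne.symm hs)
      have h8 : 0 < s * Complex.normSq a := mul_pos hs' h7
      have h9 : t * (a.re * b.re + a.im * b.im) ≤ 0 := mul_nonpos_of_nonneg_of_nonpos ht0 h.le
      linarith
  rw [e1, hs]
  simp

theorem SimpleV.vertex_cond {n : ℕ} {v : ZMod n → ℂ} (h : SimpleV v) (i : ZMod n) :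
    cdet (v i - v (i + 1)) (v (i + 1 + 1) - v (i + 1)) ≠ 0 ∨
      (v i - v (i + 1)).re * (v (i + 1 + 1) - v (i + 1)).re +
        (v i - v (i + 1)).im * (v (i + 1 + 1) - v (i + 1)).im < 0 := by
  by_cases h0 : cdet (v i - v (i + 1)) (v (i + 1 + 1) - v (i + 1)) = 0
  · right
    have h1 := h.no_overlap (i + 1)
    rw [add_sub_cancel_right] at h1
    obtain ⟨c, hc, e⟩ := h1 h0
    have ha : v i - v (i + 1) ≠ 0 := sub_ne_zero.2 (h.ne_succ i)
    have h2 := Complex.normSq_pos.2 ha
    rw [e]
    simp only [Complex.mul_re, Complex.mul_im, Complex.ofReal_re, Complex.ofReal_im, zero_mul, sub_zero,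
      add_zero]
    rw [Complex.normSq_apply] at h2
    nlinarith
  · exact Or.inl h0

theorem SimpleV.stable {n : ℕ} [NeZero n] {v₀ : ZMod n → ℂ} (h : SimpleV v₀) :
    ∀ᶠ v in 𝓝 v₀, SimpleV v := by
  -- injectivity
  have h1 : ∀ᶠ v in 𝓝 v₀, ∀ i j : ZMod n, i ≠ j → v i ≠ v j := by
    rw [eventually_all]
    intro i
    rw [eventually_all]
    intro j
    by_cases hij : i = j
    · exact Eventually.of_forall fun v hne => absurd hij hne
    · have hc : ContinuousAt (fun v : ZMod n → ℂ => v i - v j) v₀ := by fun_prop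
      have h2 := hc.eventually_ne (sub_ne_zero.2 (fun he => hij (h.inj he)))
      filter_upwards [h2] with v hv _
      exact sub_ne_zero.1 hv
  -- sides which are not adjacent
  have h2 : ∀ᶠ v in 𝓝 v₀, ∀ i j : ZMod n, i ≠ j → j ≠ i + 1 → i ≠ j + 1 →
      ∀ x, x ∈ segment ℝ (v i) (v (i + 1)) → x ∉ segment ℝ (v j) (v (j + 1)) := by
    rw [eventually_all]
    intro i
    rw [eventually_all]
    intro j
    by_cases hij : i = j
    · exact Eventually.of_forall fun v hne => absurd hij hne
    by_cases hij1 : j = i + 1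
    · exact Eventually.of_forall fun v _ hne => absurd hij1 hne
    by_cases hij2 : i = j + 1
    · exact Eventually.of_forall fun v _ _ hne => absurd hij2 hne
    have h3 := disjoint_sides_stable v₀ i j (by
      intro x hx hx'
      obtain ⟨h4, h5⟩ := h.simple i j hij ⟨hx, hx'⟩
      rcases h4 with h4 | h4 <;> rcases h5 with h5 | h5
      · exact hij (h.inj (h4.symm.trans h5))
      · exact hij2 (h.inj (h4.symm.trans h5))
      · exact hij1 (h.inj (h5.symm.trans h4))
      · have h6 := h.inj ((mem_singleton_iff.1 h4).symm.trans (mem_singleton_iff.1 h5))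
        exact hij (add_right_cancel h6))
    filter_upwards [h3] with v hv _ _ _
    exact hv
  -- adjacent sides
  have h3 : ∀ᶠ v in 𝓝 v₀, ∀ i : ZMod n,
      cdet (v i - v (i + 1)) (v (i + 1 + 1) - v (i + 1)) ≠ 0 ∨
      (v i - v (i + 1)).re * (v (i + 1 + 1) - v (i + 1)).re +
        (v i - v (i + 1)).im * (v (i + 1 + 1) - v (i + 1)).im < 0 := by
    rw [eventually_all]
    intro i
    rcases h.vertex_cond i with h4 | h4
    · have hc : ContinuousAt (fun v : ZMod n → ℂ =>
          cdet (v i - v (i + 1)) (v (i + 1 + 1) - v (i + 1))) v₀ := by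
        unfold cdet; fun_prop
      filter_upwards [hc.eventually_ne h4] with v hv
      exact Or.inl hv
    · have hc : ContinuousAt (fun v : ZMod n → ℂ =>
          (v i - v (i + 1)).re * (v (i + 1 + 1) - v (i + 1)).re +
          (v i - v (i + 1)).im * (v (i + 1 + 1) - v (i + 1)).im) v₀ := by
        fun_prop
      filter_upwards [hc.eventually_lt continuousAt_const h4] with v hv
      exact Or.inr hv
  filter_upwards [h1, h2, h3] with v k1 k2 k3
  have hadj : ∀ i : ZMod n, ∀ x, x ∈ segment ℝ (v i) (v (i + 1)) →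
      x ∈ segment ℝ (v (i + 1)) (v (i + 1 + 1)) → x = v (i + 1) := by
    intro i x hx hx'
    have hne : i ≠ i + 1 := by
      intro he
      apply h.one_ne
      have := congrArg (fun x => x - i) he
      simpa using this.symm
    have ha : v i - v (i + 1) ≠ 0 := sub_ne_zero.2 (k1 i (i + 1) hne)
    refine adjacent_only (p := v (i + 1)) ha (k3 i) ?_ ?_
    · have e : v (i + 1) + (v i - v (i + 1)) = v i := by ring
      rwa [e]
    · have e : v (i + 1) + (v (i + 1 + 1) - v (i + 1)) = v (i + 1 + 1) := by ring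
      rwa [e]
  refine ⟨h.three_le, ?_, ?_⟩
  · intro i j hij
    by_contra hne
    exact k1 i j hne hij
  · rintro i j hij x ⟨hx, hx'⟩
    by_cases hj : j = i + 1
    · subst hj
      have := hadj i x hx hx'
      subst this
      exact ⟨Or.inr rfl, Or.inl rfl⟩
    by_cases hi : i = j + 1
    · subst hi
      have := hadj j x hx' hx
      subst this
      exact ⟨Or.inl rfl, Or.inr rfl⟩
    exact absurd hx' (k2 i j hij hj hi x hx)

/-- All vertex tuples near the vertex tuple of a polygon are vertex tuples of polygons. -/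
theorem exists_polygon_near {n : ℕ} {P₀ : Set ℂ} {v₀ : ZMod n → ℂ} (h₀ : IsPolygon P₀ v₀) :
    ∃ ε : ℝ, 0 < ε ∧ ∀ v : ZMod n → ℂ, (∀ i, ‖v i - v₀ i‖ < ε) → ∃ P, IsPolygon P v := by
  have := neZero_of_polygon h₀
  obtain ⟨ε, hε, hb⟩ := Metric.eventually_nhds_iff.1 (simpleV_of_polygon h₀).stable
  refine ⟨ε, hε, fun v hv => ?_⟩
  refine ⟨_, SimpleV.isPolygon (hb ?_)⟩
  rw [dist_pi_lt_iff hε]
  intro i
  rw [dist_eq_norm]
  exact hv i

/-- The polygonal Jordan curve theorem. -/
theorem exists_polygon {n : ℕ} {v : ZMod n → ℂ} (h : SimpleV v) : ∃! P, IsPolygon P v := by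
  have : NeZero n := ⟨by have := h.three_le; omega⟩
  refine ⟨_, h.isPolygon, fun P hP => polygon_eq hP⟩

end Pool.Agent.H52W
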