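import Mathlib
import Pool.Agent.Lib.H52W.Legs
import Pool.Agent.Lib.H32W.Robust

/-!
# MP_273810_co : the three facts used in the robust part (library H52W, helper52)
-/

namespace Pool.Agent.H52W

open Complex Topology Filter Set
open Pool.Agent.Lib.H42I (IsPolygon Ray Illuminable)

theorem facts {n : ℕ} {P₀ : Set ℂ} {v₀ : ZMod n → ℂ} (h₀ : IsPolygon P₀ v₀) :
    Pool.Agent.Lib.H32W.Facts P₀ v₀ where
  inside := fun p hp => inside_stable P₀ v₀ h₀ p hp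
  outside := fun p hp => outside_stable P₀ v₀ h₀ p hp
  segEnd := fun z w _ h hg => seg_end P₀ v₀ h₀ z w h hg

/-- The robust theorem, unconditional. -/
theorem robust {n : ℕ} {P₀ : Set ℂ} {v₀ : ZMod n → ℂ} (h₀ : IsPolygon P₀ v₀) (q₀ : ℂ)
    (hq : q₀ ∈ interior P₀)
    (hall : ∀ y ∈ P₀, y = q₀ ∨ ∃ d, Ray P₀ v₀ q₀ y d ∧ Pool.Agent.Lib.H32W.GoodArr v₀ y d) :
    ∀ᶠ x in 𝓝 (v₀, q₀), ∀ P, IsPolygon P x.1 → Illuminable P x.1 x.2 :=
  Pool.Agent.Lib.H32W.robust P₀ v₀ h₀ (facts h₀) q₀ hq hall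

end Pool.Agent.H52W
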