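import Pool.Agent.Lib.H52W.Stab
import Pool.Agent.Lib.H52W.Segs

/-!
# MP_273810_co : the polygonal Jordan curve theorem, part 1 (library H52W, helper52)
-/

namespace Pool.Agent.H52W

open Complex Topology Filter Set

/-- A simple closed polygonal curve. -/
structure SimpleV {n : ℕ} (v : ZMod n → ℂ) : Prop where
  three_le : 3 ≤ n
  inj : Function.Injective v
  simple : ∀ i j, i ≠ j → segment ℝ (v i) (v (i + 1)) ∩ segment ℝ (v j) (v (j + 1)) ⊆
    ({v i, v (i + 1)} : Set ℂ) ∩ {v j, v (j + 1)}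

/-- the points inside -/
def InS {n : ℕ} [NeZero n] (v : ZMod n → ℂ) : Set ℂ := {x | Inside v x}

/-- the points outside -/
def OutS {n : ℕ} [NeZero n] (v : ZMod n → ℂ) : Set ℂ := {x | x ∉ curve v ∧ ¬ Inside v x}

theorem SimpleV.one_ne {n : ℕ} {v : ZMod n → ℂ} (h : SimpleV v) : (1 : ZMod n) ≠ 0 := by
  have h3 := h.three_le
  have : Fact (1 < n) := ⟨by omega⟩
  exact one_ne_zero

theorem SimpleV.two_ne {n : ℕ} {v : ZMod n → ℂ} (h : SimpleV v) : (2 : ZMod n) ≠ 0 := by
  have h3 := h.three_le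
  intro h2
  have h4 : ((2 : ℕ) : ZMod n) = 0 := by exact_mod_cast h2
  rw [ZMod.natCast_eq_zero_iff] at h4
  have := Nat.le_of_dvd (by norm_num) h4
  omega

theorem SimpleV.ne_succ {n : ℕ} {v : ZMod n → ℂ} (h : SimpleV v) (i : ZMod n) : v i ≠ v (i + 1) := by
  intro he
  have h1 := h.inj he
  apply h.one_ne
  have := congrArg (fun x => x - i) h1
  simpa using this.symm

theorem SimpleV.ne_two {n : ℕ} {v : ZMod n → ℂ} (h : SimpleV v) (i : ZMod n) :
    v (i - 1) ≠ v (i + 1) := by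
  intro he
  have h1 := h.inj he
  apply h.two_ne
  have h2 := congrArg (fun x => x - (i - 1)) h1
  simp only [sub_self] at h2
  have e : i + 1 - (i - 1) = (2 : ZMod n) := by ring
  rw [e] at h2
  exact h2.symm

theorem SimpleV.open_other {n : ℕ} {v : ZMod n → ℂ} (h : SimpleV v) {i : ZMod n} {w : ℂ}
    (hw : w ∈ openSegment ℝ (v i) (v (i + 1))) (j : ZMod n) (hj : j ≠ i) :
    w ∉ segment ℝ (v j) (v (j + 1)) := by
  intro hm
  have h1 := (h.simple i j (Ne.symm hj) ⟨openSegment_subset_segment _ _ _ hw, hm⟩).1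
  have hne := h.ne_succ i
  rcases h1 with h1 | h1
  · rw [h1] at hw
    exact hne ((left_mem_openSegment_iff).1 hw)
  · rw [mem_singleton_iff] at h1
    rw [h1] at hw
    exact hne ((right_mem_openSegment_iff).1 hw)

theorem SimpleV.vertex_other {n : ℕ} {v : ZMod n → ℂ} (h : SimpleV v) (i j : ZMod n) (hj : j ≠ i)
    (hj1 : j ≠ i - 1) : v i ∉ segment ℝ (v j) (v (j + 1)) := by
  intro hm
  have h1 := (h.simple i j (Ne.symm hj) ⟨left_mem_segment _ _ _, hm⟩).2
  rcases h1 with h1 | h1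
  · exact hj (h.inj h1).symm
  · rw [mem_singleton_iff] at h1
    apply hj1
    rw [h.inj h1]
    ring

theorem curve_side {n : ℕ} (v : ZMod n → ℂ) (i : ZMod n) : segment ℝ (v i) (v (i + 1)) ⊆ curve v := by
  intro x hx
  rw [curve, mem_iUnion]
  exact ⟨i, hx⟩

theorem isPreconnected_curve {n : ℕ} [NeZero n] (v : ZMod n → ℂ) : IsPreconnected (curve v) := by
  have h1 : curve v = ⋃ k : ℕ, segment ℝ (v (k : ZMod n)) (v ((k : ZMod n) + 1)) := by
    ext x
    simp only [curve, mem_iUnion]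
    constructor
    · rintro ⟨i, hi⟩
      exact ⟨i.val, by rwa [ZMod.natCast_zmod_val]⟩
    · rintro ⟨k, hk⟩
      exact ⟨_, hk⟩
  rw [h1]
  refine IsPreconnected.iUnion_of_chain (fun k => (convex_segment _ _).isPreconnected) (fun k => ?_)
  refine ⟨v ((k : ZMod n) + 1), right_mem_segment _ _ _, ?_⟩
  have e : ((Order.succ k : ℕ) : ZMod n) = (k : ZMod n) + 1 := by
    rw [Nat.succ_eq_succ]
    push_cast
    ring
  rw [e]
  exact left_mem_segment _ _ _

theorem curve_subset_closedBall {n : ℕ} (v : ZMod n → ℂ) (R : ℝ) (hR : ∀ i, ‖v i‖ ≤ R) :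
    curve v ⊆ Metric.closedBall 0 R := by
  intro x hx
  rw [curve, mem_iUnion] at hx
  obtain ⟨i, hi⟩ := hx
  refine (convex_closedBall (0 : ℂ) R).segment_subset ?_ ?_ hi
  · rw [mem_closedBall_zero_iff]; exact hR i
  · rw [mem_closedBall_zero_iff]; exact hR (i + 1)

theorem not_inside_far {n : ℕ} [NeZero n] (v : ZMod n → ℂ) (R : ℝ) (hR : ∀ i, ‖v i‖ ≤ R) (x : ℂ)
    (hx : R < ‖x‖) : ¬ Inside v x := by
  have hR0 : 0 ≤ R := (norm_nonneg _).trans (hR 0)
  set S : Set ℂ := (fun p : ℝ × ℝ => (p.1 : ℂ) * exp ((p.2 : ℂ) * I)) '' (Ioi R ×ˢ univ) with hS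
  have hpc : IsPreconnected S := by
    apply IsPreconnected.image
    · exact ((convex_Ioi R).prod convex_univ).isPreconnected
    · exact Continuous.continuousOn (by fun_prop)
  have hSn : ∀ y ∈ S, R < ‖y‖ := by
    rintro _ ⟨⟨r, θ⟩, ⟨hr, _⟩, rfl⟩
    have hr' : R < r := hr
    simp only [norm_mul, Complex.norm_real, Complex.norm_exp_ofReal_mul_I, mul_one, Real.norm_eq_abs]
    rw [abs_of_pos (by linarith)]
    exact hr'
  have hmem : ∀ y : ℂ, R < ‖y‖ → y ∈ S := by
    intro y hy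
    refine ⟨(‖y‖, arg y), ⟨hy, mem_univ _⟩, ?_⟩
    simp only [Complex.norm_mul_exp_arg_mul_I]
  have hoff : ∀ y ∈ S, y ∉ curve v := by
    intro y hy hyc
    have h1 := curve_subset_closedBall v R hR hyc
    rw [mem_closedBall_zero_iff] at h1
    exact absurd (hSn y hy) (not_lt.2 h1)
  obtain ⟨t, ht1, ht2⟩ := ((bridge_far v).and (eventually_gt_atTop R)).exists
  have htS : (t : ℂ) ∈ S := by
    apply hmem
    rw [Complex.norm_real, Real.norm_eq_abs, abs_of_pos (by linarith)]
    exact ht2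
  intro hI
  exact ht1 ((inside_iff_of_isPreconnected v hpc hoff htS (hmem x hx)).2 hI)

theorem SimpleV.flip_dir {n : ℕ} {v : ZMod n → ℂ} (h : SimpleV v) (i : ZMod n) :
    cdet (I * (v (i + 1) - v i)) (v (i + 1) - v i) ≠ 0 := by
  have hd0 : v (i + 1) - v i ≠ 0 := sub_ne_zero.2 (Ne.symm (h.ne_succ i))
  have e : cdet (I * (v (i + 1) - v i)) (v (i + 1) - v i) = - Complex.normSq (v (i + 1) - v i) := by
    simp only [cdet, Complex.normSq_apply, Complex.mul_re, Complex.mul_im, Complex.I_re, Complex.I_im]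
    ring
  rw [e]
  exact neg_ne_zero.2 (Complex.normSq_pos.2 hd0).ne'

theorem tendsto_add_dir (w u : ℂ) (c : ℝ) :
    Tendsto (fun t : ℝ => w + ((c * t : ℝ) : ℂ) * u) (𝓝[>] 0) (𝓝 w) := by
  have hcc : Continuous (fun t : ℝ => w + ((c * t : ℝ) : ℂ) * u) := by fun_prop
  have := hcc.tendsto 0
  simp only [mul_zero, Complex.ofReal_zero, zero_mul, add_zero] at this
  exact this.mono_left nhdsWithin_le_nhds

/-- Points of the curve are limits of points inside and of points outside. -/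
theorem SimpleV.mem_closures {n : ℕ} [NeZero n] {v : ZMod n → ℂ} (h : SimpleV v) {w : ℂ}
    (hw : w ∈ curve v) : w ∈ closure (InS v) ∧ w ∈ closure (OutS v) := by
  have key : ∀ i, ∀ w ∈ openSegment ℝ (v i) (v (i + 1)),
      w ∈ closure (InS v) ∧ w ∈ closure (OutS v) := by
    intro i w hw
    have hloc := inside_flip_local v i w (I * (v (i + 1) - v i)) hw (h.open_other hw) (h.flip_dir i)
    set u := I * (v (i + 1) - v i) with hu
    have h1 := tendsto_add_dir w u 1
    have h2 := tendsto_add_dir w u (-1)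
    simp only [one_mul] at h1
    have hmem : ∀ N ∈ 𝓝 w, (∃ y ∈ InS v, y ∈ N) ∧ (∃ y ∈ OutS v, y ∈ N) := by
      intro N hN
      obtain ⟨t, ⟨⟨h3, h4, h5⟩, h6⟩, h7⟩ := ((hloc.and (h1.eventually hN)).and (h2.eventually hN)).exists
      have e : w + ((-1 * t : ℝ) : ℂ) * u = w - (t : ℂ) * u := by push_cast; ring
      rw [e] at h7
      by_cases hI : Inside v (w + (t : ℂ) * u)
      · exact ⟨⟨_, hI, h6⟩, ⟨_, ⟨h4, fun h8 => (h5.1 h8) hI⟩, h7⟩⟩
      · exact ⟨⟨_, h5.2 hI, h7⟩, ⟨_, ⟨h3, hI⟩, h6⟩⟩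
    constructor
    · rw [mem_closure_iff_nhds]
      intro N hN
      obtain ⟨⟨y, hy1, hy2⟩, _⟩ := hmem N hN
      exact ⟨y, hy2, hy1⟩
    · rw [mem_closure_iff_nhds]
      intro N hN
      obtain ⟨_, ⟨y, hy1, hy2⟩⟩ := hmem N hN
      exact ⟨y, hy2, hy1⟩
  rw [curve, mem_iUnion] at hw
  obtain ⟨i, hi⟩ := hw
  have h1 : w ∈ closure (openSegment ℝ (v i) (v (i + 1))) := segment_subset_closure_openSegment hi
  constructor
  · exact closure_minimal (fun y hy => (key i y hy).1) isClosed_closure h1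
  · exact closure_minimal (fun y hy => (key i y hy).2) isClosed_closure h1

/-- Near a point in the relative interior of a side the inside is a half disc. -/
theorem SimpleV.side_nbhd {n : ℕ} [NeZero n] {v : ZMod n → ℂ} (h : SimpleV v) (i : ZMod n) {w : ℂ}
    (hw : w ∈ openSegment ℝ (v i) (v (i + 1))) :
    ∃ r > 0, IsPreconnected (Metric.ball w r ∩ InS v) := by
  have hne := h.ne_succ i
  have hother := h.open_other hw
  have h2 : ∀ᶠ y in 𝓝 w, ∀ j, j ≠ i → y ∉ segment ℝ (v j) (v (j + 1)) := by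
    rw [eventually_all]
    intro j
    by_cases hj : j = i
    · exact Eventually.of_forall fun y hj' => absurd hj hj'
    · have hcl : IsClosed (segment ℝ (v j) (v (j + 1))) := by
        rw [segment_eq_image]
        exact (isCompact_Icc.image (by fun_prop)).isClosed
      filter_upwards [hcl.isOpen_compl.mem_nhds (hother j hj)] with y hy _
      exact hy
  obtain ⟨r, hr, hball⟩ := Metric.eventually_nhds_iff_ball.1 h2
  set d := v (i + 1) - v i with hd
  have hd0 : d ≠ 0 := sub_ne_zero.2 (Ne.symm hne)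
  have hoff : ∀ σ : ℝ, ∀ y ∈ Metric.ball w r ∩ {y | 0 < σ * cdet d (y - w)}, y ∉ curve v := by
    rintro σ y ⟨hy, hpos⟩
    rw [not_mem_curve_iff]
    intro j hmem
    by_cases hj : j = i
    · subst hj
      have h3 := cdet_eq_zero_of_mem_segment _ _ _ hmem
      have h4 := cdet_eq_zero_of_mem_segment _ _ _ (openSegment_subset_segment _ _ _ hw)
      have h5 : cdet d (y - w) = 0 := by
        rw [hd]
        simp only [cdet, Complex.sub_re, Complex.sub_im] at h3 h4 ⊢
        linear_combination h3 - h4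
      have hpos' : 0 < σ * cdet d (y - w) := hpos
      rw [h5, mul_zero] at hpos'
      exact lt_irrefl _ hpos'
    · exact hball y hy j hj hmem
  have hconv := fun σ : ℝ => (bridge_convex_half w d r σ).isPreconnected
  have hwball : w ∈ Metric.ball w r := Metric.mem_ball_self hr
  have hloc := inside_flip_local v i w (I * d) hw hother (h.flip_dir i)
  have hb1 := (tendsto_add_dir w (I * d) 1).eventually (Metric.isOpen_ball.mem_nhds hwball)
  have hb2 := (tendsto_add_dir w (I * d) (-1)).eventually (Metric.isOpen_ball.mem_nhds hwball)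
  have hpos : ∀ᶠ t : ℝ in 𝓝[>] 0, 0 < t := self_mem_nhdsWithin
  obtain ⟨t, ⟨⟨⟨_, _, hflip⟩, ht1⟩, ht2⟩, ht0⟩ := (((hloc.and hb1).and hb2).and hpos).exists
  have hn := Complex.normSq_pos.2 hd0
  have e1 : w + ((1 * t : ℝ) : ℂ) * (I * d) = w + (t : ℂ) * (I * d) := by push_cast; ring
  have e2 : w + ((-1 * t : ℝ) : ℂ) * (I * d) = w - (t : ℂ) * (I * d) := by push_cast; ring
  rw [e1] at ht1
  rw [e2] at ht2
  have hp1 : w + (t : ℂ) * (I * d) ∈ Metric.ball w r ∩ {y | 0 < (1 : ℝ) * cdet d (y - w)} := by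
    refine ⟨ht1, ?_⟩
    show 0 < (1 : ℝ) * cdet d (w + (t : ℂ) * (I * d) - w)
    rw [bridge_side_points w d hd0, one_mul]
    positivity
  have hp2 : w - (t : ℂ) * (I * d) ∈ Metric.ball w r ∩ {y | 0 < (-1 : ℝ) * cdet d (y - w)} := by
    refine ⟨ht2, ?_⟩
    show 0 < (-1 : ℝ) * cdet d (w - (t : ℂ) * (I * d) - w)
    have e : w - (t : ℂ) * (I * d) = w + ((-t : ℝ) : ℂ) * (I * d) := by push_cast; ring
    rw [e, bridge_side_points w d hd0]
    nlinarith
  set x1 := w + (t : ℂ) * (I * d) with hx1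
  set x2 := w - (t : ℂ) * (I * d) with hx2
  -- the half `σ` is inside, the other one is not
  have key : ∀ σ : ℝ, σ ≠ 0 →
      (∀ y ∈ Metric.ball w r ∩ {y | 0 < σ * cdet d (y - w)}, Inside v y) →
      (∀ y ∈ Metric.ball w r ∩ {y | 0 < (-σ) * cdet d (y - w)}, ¬ Inside v y) →
      IsPreconnected (Metric.ball w r ∩ InS v) := by
    intro σ hσ h5 h6
    have e : Metric.ball w r ∩ InS v = Metric.ball w r ∩ {y | 0 < σ * cdet d (y - w)} := by
      ext y
      constructor
      · rintro ⟨hy, hyI⟩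
        refine ⟨hy, ?_⟩
        show 0 < σ * cdet d (y - w)
        by_contra hcon
        rcases (not_lt.1 hcon).lt_or_eq with hlt | heq
        · exact h6 y ⟨hy, (by show 0 < (-σ) * cdet d (y - w); linarith)⟩ hyI
        · have hz : cdet d (y - w) = 0 := (mul_eq_zero.1 heq).resolve_left hσ
          have hcl := bridge_mem_closure_half w d hd0 r (-σ) (neg_ne_zero.2 hσ) y hy hz
          obtain ⟨z, hz1, hz2⟩ := mem_closure_iff.1 hcl (InS v) (isOpen_inside v) hyI
          exact h6 z hz2 hz1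
      · rintro ⟨hy, hy2⟩
        exact ⟨hy, h5 y ⟨hy, hy2⟩⟩
    rw [e]
    exact hconv σ
  refine ⟨r, hr, ?_⟩
  by_cases hI : Inside v x1
  · refine key 1 one_ne_zero ?_ ?_
    · intro y hy
      exact (inside_iff_of_isPreconnected v (hconv 1) (hoff 1) hp1 hy).1 hI
    · intro y hy hyI
      have h7 := (inside_iff_of_isPreconnected v (hconv (-1)) (hoff (-1)) hp2 hy).2 hyI
      exact (hflip.1 h7) hI
  · have hI2 : Inside v x2 := hflip.2 hI
    refine key (-1) (by norm_num) ?_ ?_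
    · intro y hy
      exact (inside_iff_of_isPreconnected v (hconv (-1)) (hoff (-1)) hp2 hy).1 hI2
    · intro y hy hyI
      have hy' : y ∈ Metric.ball w r ∩ {y | 0 < (1 : ℝ) * cdet d (y - w)} := by
        refine ⟨hy.1, ?_⟩
        have := hy.2
        simpa using this
      exact hI ((inside_iff_of_isPreconnected v (hconv 1) (hoff 1) hp1 hy').2 hyI)

end Pool.Agent.H52W
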