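import Pool.Agent.Lib.H82R.Family

/-! Rotations: polygons all of whose angles are multiples of a right angle. -/

namespace Pool.Agent.Lib.H52W

open Set Metric
open Pool.Agent.Lib.H42I (Ray IsPolygon Illuminable)

/-- the image of `P` under the multiplication with `c` -/
def mulSet (c : ℂ) (P : Set ℂ) : Set ℂ := (fun x => c * x) '' P

theorem openSegment_mul (c a b : ℂ) :
    mulSet c (openSegment ℝ a b) = openSegment ℝ (c * a) (c * b) := by
  have h := image_openSegment ℝ (LinearMap.mulLeft ℝ c).toAffineMap a b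
  simpa [mulSet] using h

theorem segment_mul (c a b : ℂ) :
    mulSet c (segment ℝ a b) = segment ℝ (c * a) (c * b) := by
  have h := image_segment ℝ (LinearMap.mulLeft ℝ c).toAffineMap a b
  simpa [mulSet] using h

theorem interior_mul {c : ℂ} (hc : c ≠ 0) (P : Set ℂ) :
    interior (mulSet c P) = mulSet c (interior P) :=
  ((Homeomorph.mulLeft₀ c hc).image_interior P).symm

theorem closure_mul {c : ℂ} (hc : c ≠ 0) (P : Set ℂ) :
    closure (mulSet c P) = mulSet c (closure P) :=
  ((Homeomorph.mulLeft₀ c hc).image_closure P).symm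

theorem frontier_mul {c : ℂ} (hc : c ≠ 0) (P : Set ℂ) :
    frontier (mulSet c P) = mulSet c (frontier P) :=
  ((Homeomorph.mulLeft₀ c hc).image_frontier P).symm

theorem mulSet_mulSet (b c : ℂ) (P : Set ℂ) : mulSet b (mulSet c P) = mulSet (b * c) P := by
  ext x
  simp only [mulSet, mem_image]
  constructor
  · rintro ⟨_, ⟨y, hy, rfl⟩, rfl⟩
    exact ⟨y, hy, by ring⟩
  · rintro ⟨y, hy, rfl⟩
    exact ⟨c * y, ⟨y, hy, rfl⟩, by ring⟩

theorem mulSet_one (P : Set ℂ) : mulSet 1 P = P := by
  simp [mulSet]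

theorem isPolygon_mul {n : ℕ} {P : Set ℂ} {v : ZMod n → ℂ} (h : IsPolygon P v) {c : ℂ}
    (hc : c ≠ 0) : IsPolygon (mulSet c P) (fun i => c * v i) where
  three_le := h.three_le
  inj := fun i j hij => h.inj (mul_left_cancel₀ hc hij)
  simple := by
    intro i j hij x hx
    obtain ⟨h1, h2⟩ := hx
    rw [← segment_mul] at h1 h2
    obtain ⟨y, hy, rfl⟩ := h1
    obtain ⟨z, hz, hyz⟩ := h2
    have hzy : z = y := mul_left_cancel₀ hc hyz
    subst hzy
    have h3 := h.simple i j hij ⟨hy, hz⟩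
    simp only [mem_inter_iff, mem_insert_iff, mem_singleton_iff] at h3 ⊢
    refine ⟨?_, ?_⟩
    · rcases h3.1 with h4 | h4
      · left; rw [h4]
      · right; rw [h4]
    · rcases h3.2 with h4 | h4
      · left; rw [h4]
      · right; rw [h4]
  compact := h.compact.image (continuous_const.mul continuous_id)
  connected := by
    rw [interior_mul hc]
    exact h.connected.image _ (continuous_const.mul continuous_id).continuousOn
  closure_interior := by
    rw [interior_mul hc, closure_mul hc, h.closure_interior]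
  frontier_eq := by
    rw [frontier_mul hc, h.frontier_eq]
    simp only [← segment_mul]
    simp only [mulSet, image_iUnion]

theorem refl_mul {c : ℂ} (hc : c ≠ 0) (u d : ℂ) :
    Pool.Agent.Lib.H42I.refl (c * u) (c * d) = c * Pool.Agent.Lib.H42I.refl u d := by
  have h1 : (starRingEnd ℂ) c ≠ 0 := by simpa using hc
  unfold Pool.Agent.Lib.H42I.refl
  rw [map_mul, map_mul]
  by_cases hu : (starRingEnd ℂ) u = 0
  · simp [hu]
  · field_simp

theorem ray_mul {n : ℕ} {P : Set ℂ} {v : ZMod n → ℂ} {q y d : ℂ} (h : Ray P v q y d) {c : ℂ}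
    (hc : c ≠ 0) : Ray (mulSet c P) (fun i => c * v i) (c * q) (c * y) (c * d) := by
  induction h with
  | start z hz h =>
    rw [mul_sub]
    refine Ray.start (c * z) (fun he => hz (mul_left_cancel₀ hc he)) ?_
    rw [← openSegment_mul, interior_mul hc]
    exact image_mono h
  | bounce z d w i t hr hz ht hw h ih =>
    have h1 : c * v (i + 1) - c * v i = c * (v (i + 1) - v i) := by ring
    have h2 : c * Pool.Agent.Lib.H42I.refl (v (i + 1) - v i) d =
        Pool.Agent.Lib.H42I.refl (c * v (i + 1) - c * v i) (c * d) := by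
      rw [h1, refl_mul hc]
    rw [h2]
    refine Ray.bounce (c * z) (c * d) (c * w) i t ih ?_ ht ?_ ?_
    · rw [← openSegment_mul]
      exact mem_image_of_mem _ hz
    · rw [← h2, hw]
      ring
    · rw [← openSegment_mul, interior_mul hc]
      exact image_mono h

theorem illuminable_of_mul {n : ℕ} {P : Set ℂ} {v : ZMod n → ℂ} {q c : ℂ} (hc : c ≠ 0)
    (h : Illuminable (mulSet c P) (fun i => c * v i) (c * q)) : Illuminable P v q := by
  intro y hy
  rcases h (c * y) (mem_image_of_mem _ hy) with h1 | ⟨d, hd⟩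
  · exact Or.inl (mul_left_cancel₀ hc h1)
  · right
    have h2 := ray_mul hd (inv_ne_zero hc)
    refine ⟨c⁻¹ * d, ?_⟩
    have h3 : mulSet c⁻¹ (mulSet c P) = P := by
      rw [mulSet_mulSet, inv_mul_cancel₀ hc, mulSet_one]
    have h4 : (fun i => c⁻¹ * (c * v i)) = v := by
      funext i
      rw [inv_mul_cancel_left₀ hc]
    rw [h3, inv_mul_cancel_left₀ hc, inv_mul_cancel_left₀ hc, h4] at h2
    exact h2

theorem axis_mul {a b : ℂ} (ha : a.re = 0 ∨ a.im = 0) (hb : b.re = 0 ∨ b.im = 0) :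
    (a * b).re = 0 ∨ (a * b).im = 0 := by
  rw [Complex.mul_re, Complex.mul_im]
  rcases ha with ha | ha <;> rcases hb with hb | hb <;> simp [ha, hb]

/-- Any two consecutive sides are perpendicular or parallel: there is a rotation after which all
sides are horizontal or vertical. -/
theorem exists_rot {n : ℕ} {P : Set ℂ} {v : ZMod n → ℂ} (hP : IsPolygon P v)
    (hs : ∀ i, ((v (i + 1) - v i) * (starRingEnd ℂ) (v i - v (i - 1))).re = 0 ∨
      ((v (i + 1) - v i) * (starRingEnd ℂ) (v i - v (i - 1))).im = 0) :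
    ∃ c : ℂ, ‖c‖ = 1 ∧ ∀ i, (c * v i).re = (c * v (i + 1)).re ∨ (c * v i).im = (c * v (i + 1)).im := by
  have hn := hP.three_le
  have : Fact (1 < n) := ⟨by omega⟩
  have : NeZero n := ⟨by omega⟩
  have hne : ∀ i : ZMod n, v (i + 1) - v i ≠ 0 := by
    intro i h
    have h1 : i + 1 = i := hP.inj (sub_eq_zero.1 h)
    have h2 : (1 : ZMod n) = 0 := by
      have := congrArg (fun z => z - i) h1
      simpa using this
    exact one_ne_zero h2
  have h0 : v (0 + 1) - v 0 ≠ 0 := hne 0
  set D : ℂ := v (0 + 1) - v 0 with hD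
  have hN : (‖D‖ : ℝ) ≠ 0 := norm_ne_zero_iff.2 h0
  refine ⟨(starRingEnd ℂ) D / (‖D‖ : ℝ), ?_, ?_⟩
  · rw [norm_div, RCLike.norm_conj, Complex.norm_real, norm_norm, div_self hN]
  set c : ℂ := (starRingEnd ℂ) D / (‖D‖ : ℝ) with hcdef
  have key : ∀ k : ℕ, (c * (v ((k : ZMod n) + 1) - v (k : ZMod n))).re = 0 ∨
      (c * (v ((k : ZMod n) + 1) - v (k : ZMod n))).im = 0 := by
    intro k
    induction k with
    | zero =>
      right
      have h1 : c * (v (((0 : ℕ) : ZMod n) + 1) - v ((0 : ℕ) : ZMod n)) = ((‖D‖ : ℝ) : ℂ) := by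
        rw [Nat.cast_zero, ← hD, hcdef, div_mul_eq_mul_div, mul_comm ((starRingEnd ℂ) D) D,
          Complex.mul_conj, Complex.normSq_eq_norm_sq]
        have h2 : ((‖D‖ : ℝ) : ℂ) ≠ 0 := by exact_mod_cast hN
        rw [div_eq_iff h2]
        push_cast
        ring
      rw [h1, Complex.ofReal_im]
    | succ k ih =>
      have h1 := hs ((k : ZMod n) + 1)
      rw [add_sub_cancel_right] at h1
      push_cast
      set a := v ((k : ZMod n) + 1) - v (k : ZMod n) with ha
      set b := v ((k : ZMod n) + 1 + 1) - v ((k : ZMod n) + 1) with hb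
      have ha0 : a ≠ 0 := hne _
      have h2 := axis_mul h1 ih
      have h3 : b * (starRingEnd ℂ) a * (c * a) = ((Complex.normSq a : ℝ) : ℂ) * (c * b) := by
        rw [← Complex.mul_conj a]
        ring
      rw [h3] at h2
      have h4 : Complex.normSq a ≠ 0 := fun h => ha0 (Complex.normSq_eq_zero.1 h)
      rw [Complex.re_ofReal_mul, Complex.im_ofReal_mul] at h2
      rcases h2 with h2 | h2
      · left
        exact (mul_eq_zero.1 h2).resolve_left h4
      · right
        exact (mul_eq_zero.1 h2).resolve_left h4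
  intro i
  have h1 := key i.val
  rw [ZMod.natCast_zmod_val] at h1
  rw [mul_sub, Complex.sub_re, Complex.sub_im] at h1
  rcases h1 with h1 | h1
  · left; linarith
  · right; linarith

/-- The family theorem for polygons all of whose angles are multiples of a right angle. -/
theorem family_rot {n : ℕ} {P : Set ℂ} {v : ZMod n → ℂ} (hP : IsPolygon P v)
    (hs : ∀ i, ((v (i + 1) - v i) * (starRingEnd ℂ) (v i - v (i - 1))).re = 0 ∨
      ((v (i + 1) - v i) * (starRingEnd ℂ) (v i - v (i - 1))).im = 0) :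
    ∃ c : ℂ, ‖c‖ = 1 ∧ ∃ A B : Set ℝ, A.Countable ∧ B.Countable ∧
      ∀ q ∈ P, (c * q).re ∉ A → (c * q).im ∉ B →
        ∃ ε > 0, ∀ (P' : Set ℂ) (v' : ZMod n → ℂ), IsPolygon P' v' →
          (∀ i, ‖v' i - v i‖ < ε) → ∀ q' : ℂ, ‖q' - q‖ < ε → Illuminable P' v' q' := by
  obtain ⟨c, hc, hax⟩ := exists_rot hP hs
  have hc0 : c ≠ 0 := by
    intro h
    rw [h, norm_zero] at hc
    exact zero_ne_one hc
  obtain ⟨A, B, hA, hB, h⟩ := Pool.Agent.Lib.H82R.family (isPolygon_mul hP hc0) hax
  refine ⟨c, hc, A, B, hA, hB, ?_⟩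
  intro q hq h1 h2
  obtain ⟨ε, hε, hh⟩ := h (c * q) (mem_image_of_mem _ hq) h1 h2
  refine ⟨ε, hε, ?_⟩
  intro P' v' hP' hv' q' hq'
  apply illuminable_of_mul hc0
  apply hh _ _ (isPolygon_mul hP' hc0)
  · intro i
    rw [← mul_sub, norm_mul, hc, one_mul]
    exact hv' i
  · rw [← mul_sub, norm_mul, hc, one_mul]
    exact hq'

end Pool.Agent.Lib.H52W
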